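import Pool.Agent.H50.OI.Stm

/-! # Project OI, stub GLU: gluing independent blocks, Borel-Cantelli -/

set_option autoImplicit false

namespace Pool.Agent.H50.OI

open Finset MeasureTheory Filter Topology Q198.CI

open Classical in
lemma law_total {I : Finset ℕ} {K : ℕ} {p : ℕ → ℝ} {w : Finset ℕ → ℝ} (h : IsLaw I K p w) :
    ∑ S ∈ I.powerset, w S = 1 := by
  have h1 := h.2 ∅ (empty_subset _) (by simp)
  rw [prod_empty] at h1
  rw [← h1]
  apply sum_congr _ (fun _ _ => rfl)
  ext S
  simp

open Classical in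
/-- the mass of the bad sets -/
lemma bm_bad {I : Finset ℕ} {K : ℕ} {p : ℕ → ℝ} {w : Finset ℕ → ℝ} (h : IsLaw I K p w)
    (G : Finset ℕ → Prop) :
    bm I w {S | ¬ (S ⊆ I ∧ G S)} = ENNReal.ofReal (1 - mass I w G) := by
  rw [bm_apply]
  have h1 : ∀ S ∈ I.powerset, ENNReal.ofReal (w S) *
      ({S | ¬ (S ⊆ I ∧ G S)} : Set (Finset ℕ)).indicator (1 : Finset ℕ → ENNReal) S =
      ENNReal.ofReal (w S - if G S then w S else 0) := by
    intro S hS
    have hSI := mem_powerset.1 hS
    by_cases hG : G S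
    · rw [Set.indicator_of_notMem (by simp [hSI, hG]), if_pos hG]
      simp
    · rw [Set.indicator_of_mem (by simp [hSI, hG]), if_neg hG]
      simp
  rw [sum_congr rfl h1, ← ENNReal.ofReal_sum_of_nonneg]
  · congr 1
    rw [sum_sub_distrib, law_total h, mass]
  · intro S hS
    have h2 := h.1 S (mem_powerset.1 hS)
    split_ifs
    · simp
    · simpa using h2

theorem glu : S_GLU := by
  classical
  intro b R K p w G hR hp hw hsum
  have : ∀ i, IsProbabilityMeasure (bm (R i) (w i)) := fun i => bm_prob (hw i)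
  refine ⟨ℕ → Finset ℕ, inferInstance, Measure.infinitePi (fun i => bm (R i) (w i)), inferInstance,
    fun n => {ω | n ∈ ω (b n)}, ?_, ?_, ?_⟩
  · intro n
    have h1 : MeasurableSet {S : Finset ℕ | n ∈ S} := MeasurableSet.of_discrete
    have h2 : Measurable (fun ω : ℕ → Finset ℕ => ω (b n)) := measurable_pi_apply (b n)
    exact h2 h1
  · intro T hT
    have e : (⋂ n ∈ T, {ω : ℕ → Finset ℕ | n ∈ ω (b n)}) =
        Set.pi (T.image b : Finset ℕ) (fun β => {S : Finset ℕ | T.filter (fun n => b n = β) ⊆ S}) := by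
      ext ω
      simp only [Set.mem_iInter, Set.mem_ofPred_eq, Set.mem_pi, coe_image, Set.mem_image, mem_coe]
      constructor
      · rintro h β ⟨m, hm, rfl⟩ n hn
        rw [mem_filter] at hn
        have := h n hn.1
        rw [hn.2] at this
        exact this
      · intro h n hn
        exact h (b n) ⟨n, hn, rfl⟩ (mem_filter.2 ⟨hn, rfl⟩)
    rw [e, Measure.infinitePi_pi _ (fun β _ => MeasurableSet.of_discrete)]
    have h1 : ∀ β ∈ T.image b, bm (R β) (w β) {S : Finset ℕ | T.filter (fun n => b n = β) ⊆ S} =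
        ENNReal.ofReal (∏ n ∈ T.filter (fun n => b n = β), p n) := by
      intro β hβ
      rw [mem_image] at hβ
      obtain ⟨m, hm, rfl⟩ := hβ
      apply bm_superset (hw (b m))
      · intro n hn
        rw [mem_filter] at hn
        exact (hR n (b m)).2 hn.2
      · exact (card_filter_le _ _).trans (hT m hm)
    rw [prod_congr rfl h1, ← ENNReal.ofReal_prod_of_nonneg (fun β _ => prod_nonneg fun n _ => hp n)]
    congr 1
    exact prod_fiberwise_of_maps_to (fun n hn => mem_image_of_mem b hn) p
  · -- Borel-Cantelli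
    have hbad : ∀ i, Measure.infinitePi (fun i => bm (R i) (w i))
        {ω : ℕ → Finset ℕ | ¬ (ω i ⊆ R i ∧ G i (ω i))} =
        ENNReal.ofReal (1 - mass (R i) (w i) (G i)) := by
      intro i
      have e : {ω : ℕ → Finset ℕ | ¬ (ω i ⊆ R i ∧ G i (ω i))} =
          Set.pi (({i} : Finset ℕ) : Set ℕ) (fun β => {S : Finset ℕ | ¬ (S ⊆ R β ∧ G β S)}) := by
        ext ω
        simp
      rw [e, Measure.infinitePi_pi _ (fun β _ => MeasurableSet.of_discrete), prod_singleton]
      exact bm_bad (hw i) (G i)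
    have hne : ∑' i, Measure.infinitePi (fun i => bm (R i) (w i))
        {ω : ℕ → Finset ℕ | ¬ (ω i ⊆ R i ∧ G i (ω i))} ≠ ⊤ := by
      simp only [hbad]
      exact hsum.tsum_ofReal_ne_top
    filter_upwards [ae_eventually_notMem hne] with ω hω
    filter_upwards [hω] with i hi
    have hi' : ω i ⊆ R i ∧ G i (ω i) := by
      by_contra h
      exact hi h
    refine ⟨ω i, ?_, hi'.2⟩
    intro n
    constructor
    · intro hn
      refine ⟨hi'.1 hn, ?_⟩
      have h1 : b n = i := (hR n i).1 (hi'.1 hn)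
      change n ∈ ω (b n)
      rw [h1]
      exact hn
    · rintro ⟨h1, h2⟩
      have h3 : b n = i := (hR n i).1 h1
      change n ∈ ω (b n) at h2
      rw [h3] at h2
      exact h2

end Pool.Agent.H50.OI
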