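import Pool.Agent.H50.L.CI.Dyad
import Pool.Agent.H50.L.LI.A

/-! # Project OI (MP_f9960f_nt): statements

The random set `A = {n | ω ∈ E n}` has independence of order `κ`: a finite set `T ⊂ [3, ∞)` with
`|T| ≤ κ n` for all `n ∈ T` is contained in `A` with probability `∏ 1 / log n`.
`G(x)` is the largest gap of `A` starting at or before `x`. Aim:
(1) if `κ n ≥ (ρ - o(1)) log n` then in every model `G(x) ≥ (min(1, ρ/4) - o(1)) log² x` a.s.;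
(2) if `κ n ≤ (ρ + o(1)) log n`, `0 ≤ ρ ≤ 4`, then in some model `G(x) ~ (ρ/4) log² x` a.s.;
(3) for nondecreasing `κ`: `G(x) ~ log² x` a.s. in every model iff `κ n ≥ (4 - o(1)) log n`.

`IsLaw I K p w` (library, `Q198.CI`): `w` is the law of a random subset of the finite set `I`
(`w S` for `S ⊆ I`), with `∑ S ∈ Icc T I, w S = ∏ n ∈ T, p n` for `T ⊆ I`, `T.card ≤ K`.
`cp n = 1 / log n` for `n ≥ 3` and `0` else.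
-/

set_option autoImplicit false

namespace Pool.Agent.H50.OI

open Finset MeasureTheory Filter Topology Q198.CI

/-! ## the negative part: construction of a law with small gaps -/

/-- the bound in `S_ANN` -/
noncomputable def B0 (ℓ m : ℕ) (p q : ℝ) : ℝ :=
  (1 / Real.sqrt q) ^ m * Real.exp (-(((ℓ : ℝ) - m) * (p / (1 - p)) * (1 - q)) +
    2 * ((ℓ : ℝ) - m) * (p / (1 - p)) ^ 2) / (1 - Real.sqrt q)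

/-- `S_ANN`: a small function with the same moments (up to order `m`) as the indicator of `X = 0`,
`X` binomial. -/
def S_ANN : Prop := ∀ (ℓ m : ℕ) (p q : ℝ), m ≤ ℓ → 0 < p → p ≤ 1 / 6 → 0 < q → q < 1 →
  ∃ H : ℕ → ℝ, (∀ x, |H x| ≤ B0 ℓ m p q) ∧
    ∀ j ≤ m, ∑ x ∈ range (ℓ - j + 1), ((ℓ - j).choose x : ℝ) *
      (p ^ (j + x) * (1 - p) ^ (ℓ - (j + x)) * H (j + x)) = if j = 0 then (1 - p) ^ ℓ else 0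

/-- `ψ 0 = 1`, `ψ` is small elsewhere, and orthogonal to the polynomials of degree `≤ m` -/
def IsPsi (ℓ m : ℕ) (p β : ℝ) (ψ : ℕ → ℝ) : Prop :=
  ψ 0 = 1 ∧ (∀ x, 1 ≤ x → x ≤ ℓ → |ψ x| ≤ β) ∧
    ∀ j ≤ m, ∑ x ∈ range (ℓ - j + 1), ((ℓ - j).choose x : ℝ) *
      (p ^ (j + x) * (1 - p) ^ (ℓ - (j + x)) * ψ (j + x)) = 0

/-- `S_PSI`: asymptotic form -/
def S_PSI : Prop := ∀ a b : ℝ, 0 < a → a < 2 * b → ∃ c : ℝ, 0 < c ∧ ∀ᶠ L : ℝ in atTop,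
  ∀ ℓ m : ℕ, (m : ℝ) ≤ a * L → b * L ^ 2 ≤ ℓ →
    ∃ ψ : ℕ → ℝ, IsPsi ℓ m (1 / L) (Real.exp (-(c * L))) ψ

/-- the partition function: `b` runs through the sets of sub-blocks `0, ..., N - 1`, and every
window of `S` consecutive sub-blocks contained in `b` contributes a factor `y j` -/
noncomputable def ff (S N : ℕ) (ψ y : ℕ → ℝ) : ℝ :=
  ∑ b ∈ (range N).powerset, (∏ i ∈ b, ψ i) * (∏ i ∈ range N \ b, (1 - ψ i)) *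
    ∏ j ∈ range (N + 1 - S), (if Ico j (j + S) ⊆ b then y j else 1)

/-- `S_POS`: positivity -/
def S_POS : Prop := ∀ (S N : ℕ) (ψ y : ℕ → ℝ) (β τ : ℝ), 1 ≤ S → 0 < τ → τ < 1 → 0 ≤ β →
  12 * β ≤ τ ^ S → (∀ i, ψ i = 1 ∨ |ψ i| ≤ β) → (∀ j, 0 ≤ y j ∧ y j ≤ 1 / τ) → 0 ≤ ff S N ψ y

/-- `S_EXJ`: expansion -/
def S_EXJ : Prop := ∀ (S N : ℕ) (ψ y : ℕ → ℝ), 1 ≤ S →
  ff S N ψ y = ∑ J ∈ (range (N + 1 - S)).powerset, (∏ j ∈ J, (y j - 1)) *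
    ∏ i ∈ J.biUnion (fun j => Ico j (j + S)), ψ i

/-- `S_EXP`: after averaging over the classes modulo `S` the terms of low degree disappear -/
def S_EXP : Prop := ∀ (S N : ℕ) (τ : ℝ), 1 ≤ S → 0 < τ → τ < 1 →
  ∃ c : Finset ℕ → ℝ, (∀ U, c U ≠ 0 → 2 * S ≤ U.card) ∧ ∀ ψ : ℕ → ℝ,
    ∑ D ∈ (range S).powerset, τ ^ D.card * (1 - τ) ^ (S - D.card) *
      ff S N ψ (fun j => if j % S ∈ D then 1 / τ else 0) =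
    1 + ∑ U ∈ (range N).powerset, c U * ∏ i ∈ U, ψ i

open Classical in
/-- the probability of the property `G` -/
noncomputable def mass (I : Finset ℕ) (w : Finset ℕ → ℝ) (G : Finset ℕ → Prop) : ℝ :=
  ∑ A ∈ I.powerset, if G A then w A else 0

/-- `S_BLK`: the law on a block of `N` sub-blocks of length `ℓ` -/
def S_BLK : Prop := ∀ (ℓ m S N a K : ℕ) (p β τ : ℝ) (ψ : ℕ → ℝ), 1 ≤ S → 0 < p → p < 1 →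
  0 < τ → τ < 1 → 0 ≤ β → 12 * β ≤ τ ^ S → K < 2 * S * (m + 1) → IsPsi ℓ m p β ψ →
  ∃ w : Finset ℕ → ℝ, IsLaw (Ico a (a + N * ℓ)) K (fun _ => p) w ∧
    (1 - τ) ^ S ≤ mass (Ico a (a + N * ℓ)) w (fun A => ∀ j, j + S ≤ N →
      ∃ n ∈ A, a + j * ℓ ≤ n ∧ n < a + (j + S) * ℓ)

/-- `S_THK`: enlarging the probabilities and the set -/
def S_THK : Prop := ∀ (I I' : Finset ℕ) (K : ℕ) (p p' : ℕ → ℝ) (w : Finset ℕ → ℝ), I ⊆ I' →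
  IsLaw I K p w → (∀ n ∈ I, p n < 1 ∧ p n ≤ p' n) → (∀ n ∈ I', 0 ≤ p' n ∧ p' n ≤ 1) →
  ∃ w' : Finset ℕ → ℝ, IsLaw I' K p' w' ∧ ∀ G : Finset ℕ → Prop,
    (∀ A B, A ⊆ B → G A → G B) → mass I w G ≤ mass I' w' G

/-- all intervals of length `h` inside `(a, X]` meet `A` -/
def Dense (a X : ℕ) (h : ℝ) (A : Finset ℕ) : Prop :=
  ∀ t : ℕ, a ≤ t → (t : ℝ) + h ≤ X → ∃ n ∈ A, t < n ∧ (n : ℝ) ≤ t + h

/-- `S_ONE`: the law on one block `(a, X]` -/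
def S_ONE : Prop := ∀ ρ σ : ℝ, 0 < ρ → ρ < 4 * σ → ∀ᶠ X : ℕ in atTop, ∀ a K : ℕ, 2 ≤ a →
  a ≤ X → (K : ℝ) ≤ ρ * Real.log X → ∃ w : Finset ℕ → ℝ, IsLaw (Ioc a X) K cp w ∧
    1 - 1 / Real.log X ^ 2 ≤ mass (Ioc a X) w (Dense a X (σ * Real.log X ^ 2))

/-- `S_GLU`: gluing independent blocks, Borel-Cantelli -/
def S_GLU : Prop := ∀ (b : ℕ → ℕ) (R : ℕ → Finset ℕ) (K : ℕ → ℕ) (p : ℕ → ℝ)
  (w : ℕ → Finset ℕ → ℝ) (G : ℕ → Finset ℕ → Prop), (∀ n i, n ∈ R i ↔ b n = i) →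
  (∀ n, 0 ≤ p n) → (∀ i, IsLaw (R i) (K i) p (w i)) →
  Summable (fun i => 1 - mass (R i) (w i) (G i)) →
  ∃ (Ω : Type) (_ : MeasurableSpace Ω) (P : Measure Ω) (_ : IsProbabilityMeasure P)
    (E : ℕ → Set Ω), (∀ n, MeasurableSet (E n)) ∧
    (∀ T : Finset ℕ, (∀ n ∈ T, T.card ≤ K (b n)) →
      P (⋂ n ∈ T, E n) = ENNReal.ofReal (∏ n ∈ T, p n)) ∧
    ∀ᵐ ω ∂P, ∀ᶠ i : ℕ in atTop, ∃ A : Finset ℕ, (∀ n, n ∈ A ↔ n ∈ R i ∧ ω ∈ E n) ∧ G i A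

/-! ## models of order `κ` -/

/-- the model of order `κ` -/
def CM {Ω : Type} [MeasurableSpace Ω] (P : Measure Ω) (κ : ℕ → ℕ) (E : ℕ → Set Ω) : Prop :=
  (∀ n, MeasurableSet (E n)) ∧ ∀ T : Finset ℕ, (∀ n ∈ T, 3 ≤ n ∧ T.card ≤ κ n) →
    P (⋂ n ∈ T, E n) = ENNReal.ofReal (∏ n ∈ T, 1 / Real.log n)

/-- `κ n ≥ (ρ - o(1)) log n` -/
def AtLeast (κ : ℕ → ℕ) (ρ : ℝ) : Prop :=
  ∀ c : ℝ, c < ρ → ∀ᶠ n : ℕ in atTop, c * Real.log n ≤ κ n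

/-- `κ n ≤ (ρ + o(1)) log n` -/
def AtMost (κ : ℕ → ℕ) (ρ : ℝ) : Prop :=
  ∀ c : ℝ, ρ < c → ∀ᶠ n : ℕ in atTop, (κ n : ℝ) ≤ c * Real.log n

/-- `S_BND`: the ends of the dyadic blocks are not empty -/
def S_BND : Prop := ∀ (Ω : Type) [MeasurableSpace Ω] (P : Measure Ω) [IsProbabilityMeasure P]
  (κ : ℕ → ℕ) (E : ℕ → Set Ω), CM P κ E → (∀ᶠ n : ℕ in atTop, 4 ≤ κ n) →
  ∀ᵐ ω ∂P, ∀ ε : ℝ, 0 < ε → ∀ᶠ i : ℕ in atTop, ∃ n : ℕ, ω ∈ E n ∧ n ≤ 2 ^ i ∧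
    (2 : ℝ) ^ i < n + ε * ((i : ℝ) * Real.log 2) ^ 2

/-- `S_NGA`: for `κ n ≤ (ρ + o(1)) log n` a model with `G(x) ≤ (ρ/4 + o(1)) log² x`. The model has
some order `κ' ≥ κ` with `κ' n ≥ (ρ - o(1)) log n`. -/
def S_NGA : Prop := ∀ (ρ : ℝ) (κ : ℕ → ℕ), 0 ≤ ρ → AtMost κ ρ →
  ∃ κ' : ℕ → ℕ, (∀ n, κ n ≤ κ' n) ∧ AtLeast κ' ρ ∧ (∀ n, 4 ≤ κ' n) ∧
  ∃ (Ω : Type) (_ : MeasurableSpace Ω) (P : Measure Ω) (_ : IsProbabilityMeasure P)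
    (E : ℕ → Set Ω), CM P κ' E ∧ ∀ᵐ ω ∂P, ∀ ε : ℝ, 0 < ε → ∀ᶠ x : ℕ in atTop,
      ∃ n : ℕ, x < n ∧ (n : ℝ) ≤ x + (ρ / 4 + ε) * Real.log x ^ 2 ∧ ω ∈ E n

/-- `S_NGB`: for nondecreasing `κ` with `κ n < c log n` infinitely often, `c < 4`, a model with
small largest gaps at infinitely many places -/
def S_NGB : Prop := ∀ (κ : ℕ → ℕ) (c : ℝ), Monotone κ → 0 < c → c < 4 →
  (∃ᶠ n : ℕ in atTop, (κ n : ℝ) < c * Real.log n) →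
  ∃ (Ω : Type) (_ : MeasurableSpace Ω) (P : Measure Ω) (_ : IsProbabilityMeasure P)
    (E : ℕ → Set Ω), CM P κ E ∧ ∀ᵐ ω ∂P, ∃ σ : ℝ, σ < 1 ∧ ∃ᶠ x : ℕ in atTop,
      ∀ t : ℕ, t ≤ x → ∃ n : ℕ, t < n ∧ (n : ℝ) ≤ t + σ * Real.log x ^ 2 ∧ ω ∈ E n

/-! ## the positive part -/

/-- `S_UPP`: the upper bound, from the library -/
def S_UPP : Prop := ∀ (Ω : Type) [MeasurableSpace Ω] (P : Measure Ω) [IsProbabilityMeasure P]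
  (κ : ℕ → ℕ) (E : ℕ → Set Ω), CM P κ E → AtLeast κ 2 → ∀ᵐ ω ∂P, ∀ ε : ℝ, 0 < ε →
    ∀ᶠ x : ℕ in atTop, ∃ n : ℕ, x < n ∧ (n : ℝ) ≤ x + (1 + ε) * Real.log x ^ 2 ∧ ω ∈ E n

/-- the truncated sum of the products of the odds `p / (1 - p)` -/
noncomputable def KI (p : ℕ → ℝ) (s : ℕ) (I : Finset ℕ) : ℝ :=
  ∑ T ∈ I.powerset with T.card ≤ s, ∏ n ∈ T, (p n / (1 - p n))

/-- the lower bound for the probability of an empty interval -/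
noncomputable def aI (p : ℕ → ℝ) (s : ℕ) (I : Finset ℕ) : ℝ :=
  ∏ n ∈ I, (1 - p n) - (∑ n ∈ I, p n) ^ (4 * s) / ((4 * s).factorial : ℝ)

/-- `S_CHE`: the second moment method -/
def S_CHE : Prop := ∀ (Ω : Type) [MeasurableSpace Ω] (P : Measure Ω) [IsProbabilityMeasure P]
  (s : Finset ℕ) (V : ℕ → Set Ω) (a b : ℕ → ℝ) (δ : ℝ), s.Nonempty → 0 ≤ δ →
  (∀ k ∈ s, MeasurableSet (V k)) → (∀ k ∈ s, 0 < a k ∧ 0 ≤ b k ∧ b k ≤ (1 + δ) * a k) →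
  (∀ k ∈ s, ENNReal.ofReal (a k) ≤ P (V k)) →
  (∀ k ∈ s, ∀ k' ∈ s, k ≠ k' → P (V k ∩ V k') ≤ ENNReal.ofReal (b k * b k')) →
  P (⋂ k ∈ s, (V k)ᶜ) ≤ ENNReal.ofReal (1 / ∑ k ∈ s, a k + (2 * δ + δ ^ 2))

/-- `S_PAI`: two disjoint empty intervals, independence of order `4 s` -/
def S_PAI : Prop := ∀ (Ω : Type) [MeasurableSpace Ω] (P : Measure Ω) [IsProbabilityMeasure P]
  (E : ℕ → Set Ω) (I J : Finset ℕ) (s : ℕ) (p : ℕ → ℝ), (∀ n, MeasurableSet (E n)) →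
  Disjoint I J → (∀ n ∈ I ∪ J, 0 ≤ p n ∧ p n < 1) →
  (∀ T ⊆ I ∪ J, T.card ≤ 4 * s → P (⋂ n ∈ T, E n) = ENNReal.ofReal (∏ n ∈ T, p n)) →
  P ((⋂ n ∈ I, (E n)ᶜ) ∩ ⋂ n ∈ J, (E n)ᶜ) ≤ ENNReal.ofReal (1 / KI p s I * (1 / KI p s J))

/-- `S_BON`: Bonferroni -/
def S_BON : Prop := ∀ (Ω : Type) [MeasurableSpace Ω] (P : Measure Ω) [IsProbabilityMeasure P]
  (E : ℕ → Set Ω) (I : Finset ℕ) (s : ℕ) (p : ℕ → ℝ), (∀ n, MeasurableSet (E n)) → 1 ≤ s →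
  (∀ n ∈ I, 0 ≤ p n ∧ p n ≤ 1) →
  (∀ T ⊆ I, T.card ≤ 4 * s → P (⋂ n ∈ T, E n) = ENNReal.ofReal (∏ n ∈ T, p n)) →
  ENNReal.ofReal (aI p s I) ≤ P (⋂ n ∈ I, (E n)ᶜ)

/-- `S_LES`: the estimates for an interval of length about `c log² X`, order `4 c' log X` -/
def S_LES : Prop := ∀ c c' : ℝ, 0 < c → c < c' → c < 1 → ∃ η : ℝ, 0 < η ∧
  ∀ᶠ i : ℕ in atTop, ∀ W : Finset ℕ, (W.card : ℝ) ≤ c * ((i : ℝ) * Real.log 2) ^ 2 →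
    (∀ n ∈ W, 2 ^ i < n ∧ n ≤ 2 ^ (i + 1)) →
    Real.exp (-((1 - η) * ((i : ℝ) * Real.log 2))) ≤ aI cp ⌊c' * ((i : ℝ) * Real.log 2)⌋₊ W ∧
    1 / KI cp ⌊c' * ((i : ℝ) * Real.log 2)⌋₊ W ≤ (1 + Real.exp (-(η * ((i : ℝ) * Real.log 2)))) *
      aI cp ⌊c' * ((i : ℝ) * Real.log 2)⌋₊ W

/-- `S_LOW`: the lower bound in every model -/
def S_LOW : Prop := ∀ (Ω : Type) [MeasurableSpace Ω] (P : Measure Ω) [IsProbabilityMeasure P]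
  (κ : ℕ → ℕ) (E : ℕ → Set Ω) (ρ c : ℝ), 0 < ρ → CM P κ E → AtLeast κ ρ → 0 < c → c < 1 →
  c < ρ / 4 → ∀ᵐ ω ∂P, ∀ᶠ i : ℕ in atTop, ∃ t : ℕ, 2 ^ i ≤ t ∧
    (t : ℝ) + c * ((i : ℝ) * Real.log 2) ^ 2 ≤ 2 ^ (i + 1) ∧
    ∀ n : ℕ, t < n → (n : ℝ) ≤ t + c * ((i : ℝ) * Real.log 2) ^ 2 → ω ∉ E n

/-! ## deterministic statements on the largest gap -/

/-- the largest difference `a' - a` of consecutive elements `a < a'` of `A` with `a ≤ x` -/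
noncomputable def maxGap (A : Set ℕ) (x : ℕ) : ℕ :=
  sSup {g | 0 < g ∧ ∃ a ∈ A, a ≤ x ∧ a + g ∈ A ∧ ∀ n, a < n → n < a + g → n ∉ A}

/-- `S_GUP` -/
def S_GUP : Prop := ∀ (A : Set ℕ) (C : ℝ), 0 ≤ C →
  (∀ ε : ℝ, 0 < ε → ∀ᶠ x : ℕ in atTop, ∃ n : ℕ, x < n ∧
    (n : ℝ) ≤ x + (C + ε) * Real.log x ^ 2 ∧ n ∈ A) →
  ∀ ε : ℝ, 0 < ε → ∀ᶠ x : ℕ in atTop, (maxGap A x : ℝ) ≤ (C + ε) * Real.log x ^ 2

/-- `S_GLO` -/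
def S_GLO : Prop := ∀ (A : Set ℕ) (c : ℝ), 0 < c → A.Infinite →
  (∀ᶠ i : ℕ in atTop, ∃ t : ℕ, 2 ^ i ≤ t ∧
    (t : ℝ) + c * ((i : ℝ) * Real.log 2) ^ 2 ≤ 2 ^ (i + 1) ∧
    ∀ n : ℕ, t < n → (n : ℝ) ≤ t + c * ((i : ℝ) * Real.log 2) ^ 2 → n ∉ A) →
  ∀ c' : ℝ, c' < c → ∀ᶠ x : ℕ in atTop, c' * Real.log x ^ 2 ≤ (maxGap A x : ℝ)

/-- `S_GNB` -/
def S_GNB : Prop := ∀ (A : Set ℕ) (x : ℕ) (h : ℝ),
  (∀ t : ℕ, t ≤ x → ∃ n : ℕ, t < n ∧ (n : ℝ) ≤ t + h ∧ n ∈ A) → (maxGap A x : ℝ) ≤ h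

end Pool.Agent.H50.OI
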