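import Pool.Agent.H50.OI.Stm

/-! # OI-ANN: a small function with the moments of the indicator of `0` (a circle integral) -/

set_option autoImplicit false

namespace Pool.Agent.H50.OI

open Finset Complex Metric

namespace Ann

/-- `w = (s + ξ) / (1 + s ξ)` -/
noncomputable def ww (s : ℝ) (ξ : ℂ) : ℂ := (s + ξ) / (1 + s * ξ)

/-- `z = w / ξ` -/
noncomputable def zz (s : ℝ) (ξ : ℂ) : ℂ := ww s ξ / ξ

/-- `k` -/
noncomputable def kk (s : ℝ) (ξ : ℂ) : ℂ := (1 - s ^ 2) / (1 + s * ξ) + s * ξ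

lemma one_add_ne {s : ℝ} (hs : 0 < s) (hs1 : s < 1) {ξ : ℂ} (hξ : ‖ξ‖ ≤ 1) :
    (1 + s * ξ : ℂ) ≠ 0 := by
  intro h
  have h1 : (s : ℂ) * ξ = -1 := by linear_combination h
  have h2 : ‖(s : ℂ) * ξ‖ = 1 := by rw [h1]; simp
  rw [norm_mul, Complex.norm_real, Real.norm_of_nonneg hs.le] at h2
  nlinarith [norm_nonneg ξ]

lemma conj_inv {ξ : ℂ} (hξ : ‖ξ‖ = 1) : ξ⁻¹ = (starRingEnd ℂ) ξ := Complex.inv_eq_conj hξ

lemma norm_ww {s : ℝ} (hs : 0 < s) (hs1 : s < 1) {ξ : ℂ} (hξ : ‖ξ‖ = 1) : ‖ww s ξ‖ = 1 := by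
  have h : (1 + s * ξ : ℂ) = ξ * (starRingEnd ℂ) (s + ξ) := by
    rw [map_add, Complex.conj_ofReal, mul_add, mul_conj, normSq_eq_norm_sq, hξ]; push_cast; ring
  have h2 : ‖(1 + s * ξ : ℂ)‖ = ‖(s + ξ : ℂ)‖ := by
    rw [h, norm_mul, hξ, one_mul, Complex.norm_conj]
  have h3 : ‖(1 + s * ξ : ℂ)‖ ≠ 0 := norm_ne_zero_iff.2 (one_add_ne hs hs1 hξ.le)
  rw [ww, norm_div, ← h2, div_self h3]

lemma norm_zz {s : ℝ} (hs : 0 < s) (hs1 : s < 1) {ξ : ℂ} (hξ : ‖ξ‖ = 1) : ‖zz s ξ‖ = 1 := by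
  rw [zz, norm_div, norm_ww hs hs1 hξ, hξ, div_one]

lemma re_kk {s : ℝ} (hs : 0 < s) (hs1 : s < 1) {ξ : ℂ} (hξ : ‖ξ‖ = 1) :
    (kk s ξ).re = (zz s ξ).re := by
  have h0 : (1 + s * ξ : ℂ) ≠ 0 := one_add_ne hs hs1 hξ.le
  have hξ0 : ξ ≠ 0 := by intro h; rw [h] at hξ; simp at hξ
  have h1 : zz s ξ = (1 - s ^ 2) / (1 + s * ξ) + s * (starRingEnd ℂ) ξ := by
    rw [← conj_inv hξ, zz, ww]
    field_simp
    ring
  rw [h1, kk, Complex.add_re, Complex.add_re]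
  simp

lemma norm_one_add {u : ℝ} (hu : 0 ≤ u) (hu5 : u ≤ 1 / 5) {z : ℂ} (hz : ‖z‖ = 1) :
    Real.exp (u * z.re - 2 * u ^ 2) ≤ ‖(1 + u * z : ℂ)‖ := by
  have hx : |z.re| ≤ 1 := hz ▸ Complex.abs_re_le_norm z
  obtain ⟨hx1, hx2⟩ := abs_le.1 hx
  set x := z.re with hxdef
  have hn : ‖(1 + u * z : ℂ)‖ ^ 2 = 1 + 2 * u * x + u ^ 2 := by
    rw [← Complex.normSq_eq_norm_sq, Complex.normSq_apply]
    have h1 : z.re * z.re + z.im * z.im = 1 := by
      rw [← Complex.normSq_apply, Complex.normSq_eq_norm_sq, hz]; norm_num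
    simp only [Complex.add_re, Complex.one_re, Complex.mul_re, Complex.ofReal_re,
      Complex.ofReal_im, Complex.add_im, Complex.one_im, Complex.mul_im]
    nlinarith [h1]
  set τ := u * x - 2 * u ^ 2 with hτ
  have hτ1 : τ < 1 := by nlinarith
  have key : 1 ≤ ‖(1 + u * z : ℂ)‖ * (1 - τ) := by
    have h2 : 1 ≤ (‖(1 + u * z : ℂ)‖ * (1 - τ)) ^ 2 := by
      rw [mul_pow, hn, hτ]
      have hx3 : x ^ 2 ≤ 1 := by nlinarith
      have hx4 : -1 ≤ x ^ 3 := by nlinarith [mul_nonneg (sub_nonneg.2 hx2) (sub_nonneg.2 hx3)]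
      have e : (1 + 2 * u * x + u ^ 2) * (1 - (u * x - 2 * u ^ 2)) ^ 2 =
          1 + u ^ 2 * ((5 - 3 * x ^ 2) + u * (2 * x + 2 * x ^ 3) + u ^ 2 * (8 - 7 * x ^ 2) +
            4 * u ^ 3 * x + 4 * u ^ 4) := by ring
      rw [e]
      have h3 : 0 ≤ (5 - 3 * x ^ 2) + u * (2 * x + 2 * x ^ 3) + u ^ 2 * (8 - 7 * x ^ 2) +
            4 * u ^ 3 * x + 4 * u ^ 4 := by
        have a1 : 2 ≤ 5 - 3 * x ^ 2 := by linarith
        have a2 : -(4 / 5) ≤ u * (2 * x + 2 * x ^ 3) := by nlinarith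
        have a3 : 0 ≤ u ^ 2 * (8 - 7 * x ^ 2) := mul_nonneg (sq_nonneg _) (by linarith)
        have hu3 : u ^ 3 ≤ 1 := pow_le_one₀ hu (by linarith)
        have hu3' : u ^ 3 ≤ 1 / 125 := by
          calc u ^ 3 ≤ (1 / 5) ^ 3 := pow_le_pow_left₀ hu hu5 3
            _ = 1 / 125 := by norm_num
        have a4 : -(4 / 125) ≤ 4 * u ^ 3 * x := by
          have : 0 ≤ u ^ 3 := pow_nonneg hu 3
          nlinarith
        have a5 : 0 ≤ 4 * u ^ 4 := by positivity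
        linarith
      nlinarith [mul_nonneg (sq_nonneg u) h3]
    by_contra hlt
    push Not at hlt
    have h4 : 0 ≤ ‖(1 + u * z : ℂ)‖ * (1 - τ) := mul_nonneg (norm_nonneg _) (by linarith)
    nlinarith
  have h5 : 1 - τ ≤ Real.exp (-τ) := by
    have := Real.add_one_le_exp (-τ); linarith
  calc Real.exp τ = 1 * Real.exp τ := (one_mul _).symm
    _ ≤ (‖(1 + u * z : ℂ)‖ * (1 - τ)) * Real.exp τ :=
        mul_le_mul_of_nonneg_right key (Real.exp_pos _).le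
    _ ≤ (‖(1 + u * z : ℂ)‖ * Real.exp (-τ)) * Real.exp τ :=
        mul_le_mul_of_nonneg_right (mul_le_mul_of_nonneg_left h5 (norm_nonneg _)) (Real.exp_pos _).le
    _ = ‖(1 + u * z : ℂ)‖ := by
        rw [mul_assoc, ← Real.exp_add]; simp

/-- the integrand -/
noncomputable def GG (s u lam : ℝ) (m d x : ℕ) (ξ : ℂ) : ℂ :=
  zz s ξ ^ x * ξ ^ m * Complex.exp (lam * kk s ξ) / (1 + u * zz s ξ) ^ d / (ξ + s)

lemma one_add_zz_ne {s u : ℝ} (hs : 0 < s) (hs1 : s < 1) (hu : 0 ≤ u) (hu5 : u ≤ 1 / 5) {ξ : ℂ}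
    (hξ : ‖ξ‖ = 1) : (1 + u * zz s ξ : ℂ) ≠ 0 := by
  have := norm_one_add hu hu5 (norm_zz hs hs1 hξ)
  have h2 := Real.exp_pos (u * (zz s ξ).re - 2 * u ^ 2)
  exact norm_ne_zero_iff.1 (by linarith)

lemma add_ne {s : ℝ} (hs : 0 < s) (hs1 : s < 1) {ξ : ℂ} (hξ : ‖ξ‖ = 1) : (ξ + s : ℂ) ≠ 0 := by
  intro h
  have h1 : ξ = -(s : ℂ) := by linear_combination h
  rw [h1, norm_neg, Complex.norm_real, Real.norm_of_nonneg hs.le] at hξ
  linarith

lemma norm_GG {s u lam : ℝ} (hs : 0 < s) (hs1 : s < 1) (hu : 0 ≤ u) (hu5 : u ≤ 1 / 5) {m d : ℕ}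
    (x : ℕ) (hlam : lam = d * u) {ξ : ℂ} (hξ : ‖ξ‖ = 1) :
    ‖GG s u lam m d x ξ‖ ≤ Real.exp (2 * d * u ^ 2) / (1 - s) := by
  have h1 := norm_one_add hu hu5 (norm_zz hs hs1 hξ)
  have h2 := Real.exp_pos (u * (zz s ξ).re - 2 * u ^ 2)
  have h3 : 1 - s ≤ ‖(ξ + s : ℂ)‖ := by
    have := norm_sub_le (ξ + s) (s : ℂ)
    rw [add_sub_cancel_right, hξ, Complex.norm_real, Real.norm_of_nonneg hs.le] at this
    linarith
  rw [GG, norm_div, norm_div, norm_mul, norm_mul, norm_pow, norm_pow, norm_pow, norm_zz hs hs1 hξ,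
    hξ, one_pow, one_pow, one_mul, one_mul, Complex.norm_exp]
  have h4 : (lam * kk s ξ : ℂ).re = lam * (zz s ξ).re := by
    rw [← re_kk hs hs1 hξ]; simp
  rw [h4]
  have h5 : Real.exp (u * (zz s ξ).re - 2 * u ^ 2) ^ d ≤ ‖(1 + u * zz s ξ : ℂ)‖ ^ d :=
    pow_le_pow_left₀ h2.le h1 d
  have h6 : 0 < Real.exp (u * (zz s ξ).re - 2 * u ^ 2) ^ d := pow_pos h2 d
  have h7 : Real.exp (lam * (zz s ξ).re) / ‖(1 + u * zz s ξ : ℂ)‖ ^ d ≤
      Real.exp (2 * d * u ^ 2) := by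
    rw [div_le_iff₀ (lt_of_lt_of_le h6 h5)]
    calc Real.exp (lam * (zz s ξ).re) =
        Real.exp (2 * d * u ^ 2) * Real.exp (u * (zz s ξ).re - 2 * u ^ 2) ^ d := by
          rw [← Real.exp_nat_mul, ← Real.exp_add, hlam]; congr 1; ring
      _ ≤ _ := mul_le_mul_of_nonneg_left h5 (Real.exp_pos _).le
  exact div_le_div₀ (Real.exp_pos _).le h7 (by linarith) h3

lemma cont_GG {s u lam : ℝ} (hs : 0 < s) (hs1 : s < 1) (hu : 0 ≤ u) (hu5 : u ≤ 1 / 5) (m d x : ℕ) :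
    ContinuousOn (GG s u lam m d x) (sphere 0 1) := by
  have hn : ∀ ξ ∈ sphere (0 : ℂ) 1, ‖ξ‖ = 1 := fun ξ hξ => by simpa using hξ
  have hw : ContinuousOn (ww s) (sphere 0 1) := by
    unfold ww
    refine ContinuousOn.div (by fun_prop) (by fun_prop) fun ξ hξ => one_add_ne hs hs1 (hn ξ hξ).le
  have hz : ContinuousOn (zz s) (sphere 0 1) := by
    unfold zz
    refine hw.div (by fun_prop) fun ξ hξ h => ?_
    have := hn ξ hξ
    rw [h] at this; simp at this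
  have hk : ContinuousOn (kk s) (sphere 0 1) := by
    unfold kk
    refine ContinuousOn.add (ContinuousOn.div (by fun_prop) (by fun_prop)
      fun ξ hξ => one_add_ne hs hs1 (hn ξ hξ).le) (by fun_prop)
  unfold GG
  refine ContinuousOn.div (ContinuousOn.div ?_ ?_ ?_) (by fun_prop) fun ξ hξ => add_ne hs hs1 (hn ξ hξ)
  · exact ((hz.pow x).mul (by fun_prop)).mul (Complex.continuous_exp.comp_continuousOn
      (continuousOn_const.mul hk))
  · exact (continuousOn_const.add (continuousOn_const.mul hz)).pow d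
  · intro ξ hξ
    exact pow_ne_zero _ (one_add_zz_ne hs hs1 hu hu5 (hn ξ hξ))

/-- the analytic function in Cauchy's formula -/
noncomputable def Ph (s u lam : ℝ) (m j : ℕ) (ξ : ℂ) : ℂ :=
  (u * ww s ξ) ^ j * (ξ + u * ww s ξ) ^ (m - j) * Complex.exp (lam * kk s ξ)

lemma ph_diff {s u lam : ℝ} (hs : 0 < s) (hs1 : s < 1) (m j : ℕ) :
    DiffContOnCl ℂ (Ph s u lam m j) (ball 0 1) := by
  have hne : ∀ ξ ∈ closure (ball (0 : ℂ) 1), (1 + s * ξ : ℂ) ≠ 0 := by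
    intro ξ hξ
    rw [closure_ball _ one_ne_zero, mem_closedBall_zero_iff] at hξ
    exact one_add_ne hs hs1 hξ
  have hd : ∀ ξ ∈ closure (ball (0 : ℂ) 1), DifferentiableAt ℂ (Ph s u lam m j) ξ := by
    intro ξ hξ
    have h := hne ξ hξ
    unfold Ph ww kk
    fun_prop (disch := assumption)
  exact ⟨fun ξ hξ => (hd ξ (subset_closure hξ)).differentiableWithinAt,
    fun ξ hξ => (hd ξ hξ).continuousAt.continuousWithinAt⟩

lemma cauchy {s u lam : ℝ} (hs : 0 < s) (hs1 : s < 1) (m j : ℕ) :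
    ((2 * Real.pi * I : ℂ)⁻¹ • ∮ ξ in C(0, 1), (ξ - (-s : ℂ))⁻¹ • Ph s u lam m j ξ) =
      Ph s u lam m j (-s) := by
  refine (ph_diff hs hs1 m j).two_pi_i_inv_smul_circleIntegral_sub_inv_smul ?_
  rw [mem_ball_zero_iff, norm_neg, Complex.norm_real, Real.norm_of_nonneg hs.le]
  exact hs1

lemma ph_val {s u lam : ℝ} (hs : 0 < s) (hs1 : s < 1) (m j : ℕ) :
    Ph s u lam m j (-s) = if j = 0 then ((-s) ^ m * Real.exp (lam * (1 - s ^ 2)) : ℝ) else 0 := by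
  have h1 : ww s (-s) = 0 := by simp [ww]
  have h2 : kk s (-s) = ((1 - s ^ 2 : ℝ) : ℂ) := by
    have h0 : (1 + s * (-s) : ℂ) ≠ 0 := one_add_ne hs hs1 (by
      rw [norm_neg, Complex.norm_real, Real.norm_of_nonneg hs.le]; exact hs1.le)
    have h3 : (1 - s ^ 2 : ℂ) / (1 + s * (-s)) = 1 := by
      rw [div_eq_one_iff_eq h0]; ring
    rw [kk, h3]; push_cast; ring
  rw [Ph, h1, h2]
  rcases Nat.eq_zero_or_pos j with hj | hj
  · subst hj
    simp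
  · rw [if_neg hj.ne', mul_zero, zero_pow hj.ne']
    simp

lemma sum_GG {s u lam p : ℝ} (hs : 0 < s) (hs1 : s < 1) (hu : 0 ≤ u) (hu5 : u ≤ 1 / 5)
    (hp1 : p < 1) (hpu : u = p / (1 - p)) {ℓ m j : ℕ} (hm : m ≤ ℓ) (hj : j ≤ m) {ξ : ℂ}
    (hξ : ‖ξ‖ = 1) :
    ∑ x ∈ range (ℓ - j + 1), ((((ℓ - j).choose x : ℝ) * (p ^ (j + x) * (1 - p) ^ (ℓ - (j + x))) : ℝ) : ℂ) *
      GG s u lam m (ℓ - m) (j + x) ξ =
      (((1 - p) ^ ℓ : ℝ) : ℂ) * ((ξ - (-s : ℂ))⁻¹ • Ph s u lam m j ξ) := by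
  have hξ0 : ξ ≠ 0 := by intro h; rw [h] at hξ; simp at hξ
  have hne := one_add_zz_ne hs hs1 hu hu5 hξ
  have hne2 := add_ne hs hs1 hξ
  have h1p : (1 - p : ℂ) ≠ 0 := by
    have : (1 - p : ℝ) ≠ 0 := by linarith
    exact_mod_cast this
  set z := zz s ξ with hz
  have hzw : ww s ξ = z * ξ := by rw [hz, zz, div_mul_cancel₀ _ hξ0]
  have hpz : (p : ℂ) = (1 - p) * u := by
    rw [hpu]; push_cast; field_simp
  -- the binomial theorem
  have hbin : ∑ x ∈ range (ℓ - j + 1), (((ℓ - j).choose x : ℂ) * (p ^ (j + x) * (1 - p) ^ (ℓ - (j + x)))) *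
      z ^ (j + x) = (1 - p : ℂ) ^ ℓ * ((u * z) ^ j * (1 + u * z) ^ (ℓ - j)) := by
    have h := add_pow (p * z : ℂ) (1 - p) (ℓ - j)
    have e1 : (p * z + (1 - p) : ℂ) = (1 - p) * (1 + u * z) := by
      linear_combination z * hpz
    have e2 : (p * z : ℂ) = (1 - p) * (u * z) := by linear_combination z * hpz
    calc ∑ x ∈ range (ℓ - j + 1), (((ℓ - j).choose x : ℂ) * (p ^ (j + x) * (1 - p) ^ (ℓ - (j + x)))) *
        z ^ (j + x) = ∑ x ∈ range (ℓ - j + 1), (p * z : ℂ) ^ j *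
          ((p * z) ^ x * (1 - p) ^ (ℓ - j - x) * (ℓ - j).choose x) := by
          refine sum_congr rfl fun x _ => ?_
          rw [← Nat.sub_sub, pow_add, pow_add, mul_pow, mul_pow]
          ring
      _ = (p * z : ℂ) ^ j * (p * z + (1 - p)) ^ (ℓ - j) := by rw [← mul_sum, h]
      _ = _ := by
          rw [e1, e2, mul_pow, mul_pow (1 - p : ℂ) (1 + u * z)]
          have : (1 - p : ℂ) ^ ℓ = (1 - p) ^ j * (1 - p) ^ (ℓ - j) := by
            rw [← pow_add]; congr 1; omega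
          rw [this]; ring
  have hsplit : (1 + u * z : ℂ) ^ (ℓ - j) = (1 + u * z) ^ (ℓ - m) * (1 + u * z) ^ (m - j) := by
    rw [← pow_add]; congr 1; omega
  have hξm : ξ ^ m = ξ ^ j * ξ ^ (m - j) := by rw [← pow_add]; congr 1; omega
  calc ∑ x ∈ range (ℓ - j + 1), ((((ℓ - j).choose x : ℝ) * (p ^ (j + x) * (1 - p) ^ (ℓ - (j + x))) : ℝ) : ℂ) *
      GG s u lam m (ℓ - m) (j + x) ξ =
      (∑ x ∈ range (ℓ - j + 1), (((ℓ - j).choose x : ℂ) * (p ^ (j + x) * (1 - p) ^ (ℓ - (j + x)))) *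
        z ^ (j + x)) * (ξ ^ m * Complex.exp (lam * kk s ξ) / (1 + u * z) ^ (ℓ - m) / (ξ + s)) := by
        rw [sum_mul]
        refine sum_congr rfl fun x _ => ?_
        rw [GG, ← hz]
        push_cast
        ring
    _ = _ := by
        rw [hbin, hsplit, hξm, Ph, hzw, smul_eq_mul, sub_neg_eq_add]
        have e3 : (ξ + u * (z * ξ) : ℂ) = (1 + u * z) * ξ := by ring
        rw [e3]
        push_cast
        field_simp
        rw [mul_pow (u * z : ℂ) ξ, mul_pow (1 + u * z : ℂ) ξ]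
        ring

end Ann

open Ann in
theorem ann : S_ANN := by
  intro ℓ m p q hm hp hp6 hq hq1
  set s := Real.sqrt q with hsdef
  have hs : 0 < s := Real.sqrt_pos.2 hq
  have hs1 : s < 1 := by
    rw [hsdef, Real.sqrt_lt' one_pos]; simpa using hq1
  have hs2 : s ^ 2 = q := Real.sq_sqrt hq.le
  set u := p / (1 - p) with hu
  have h1p : 0 < 1 - p := by linarith
  have hu0 : 0 ≤ u := (div_pos hp h1p).le
  have hu5 : u ≤ 1 / 5 := by
    rw [hu, div_le_iff₀ h1p]; linarith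
  set lam : ℝ := ((ℓ - m : ℕ) : ℝ) * u with hlam
  have hd : ((ℓ - m : ℕ) : ℝ) = (ℓ : ℝ) - m := by push_cast [hm]; ring
  set C0 : ℝ := (-(1 / s)) ^ m * Real.exp (-(lam * (1 - q))) with hC0
  refine ⟨fun x => C0 * ((2 * Real.pi * I : ℂ)⁻¹ • ∮ ξ in C(0, 1), GG s u lam m (ℓ - m) x ξ).re,
    fun x => ?_, fun j hj => ?_⟩
  · have h1 : ‖((2 * Real.pi * I : ℂ)⁻¹ • ∮ ξ in C(0, 1), GG s u lam m (ℓ - m) x ξ)‖ ≤
        1 * (Real.exp (2 * ((ℓ - m : ℕ) : ℝ) * u ^ 2) / (1 - s)) := by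
      refine circleIntegral.norm_two_pi_i_inv_smul_integral_le_of_norm_le_const zero_le_one ?_
      intro ξ hξ
      exact norm_GG hs hs1 hu0 hu5 x hlam (by simpa using hξ)
    rw [abs_mul]
    have h2 : |C0| = (1 / s) ^ m * Real.exp (-(lam * (1 - q))) := by
      rw [hC0, abs_mul, abs_pow, abs_neg, abs_of_nonneg (by positivity : (0 : ℝ) ≤ 1 / s),
        abs_of_pos (Real.exp_pos _)]
    rw [h2]
    have h3 := (Complex.abs_re_le_norm ((2 * Real.pi * I : ℂ)⁻¹ •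
      ∮ ξ in C(0, 1), GG s u lam m (ℓ - m) x ξ)).trans h1
    calc (1 / s) ^ m * Real.exp (-(lam * (1 - q))) * |((2 * Real.pi * I : ℂ)⁻¹ •
      ∮ ξ in C(0, 1), GG s u lam m (ℓ - m) x ξ).re| ≤
        (1 / s) ^ m * Real.exp (-(lam * (1 - q))) *
          (1 * (Real.exp (2 * ((ℓ - m : ℕ) : ℝ) * u ^ 2) / (1 - s))) :=
          mul_le_mul_of_nonneg_left h3 (by positivity)
      _ = B0 ℓ m p q := by
          rw [B0, ← hsdef, ← hu, hlam, hd, Real.exp_add]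
          ring
  · have hint : ∀ x, CircleIntegrable (GG s u lam m (ℓ - m) x) 0 1 := fun x =>
      (cont_GG hs hs1 hu0 hu5 m (ℓ - m) x).circleIntegrable zero_le_one
    have hmain : ∑ x ∈ range (ℓ - j + 1),
        ((((ℓ - j).choose x : ℝ) * (p ^ (j + x) * (1 - p) ^ (ℓ - (j + x))) : ℝ) : ℂ) *
        ((2 * Real.pi * I : ℂ)⁻¹ • ∮ ξ in C(0, 1), GG s u lam m (ℓ - m) (j + x) ξ) =
        (((1 - p) ^ ℓ : ℝ) : ℂ) * Ph s u lam m j (-s) := by
      rw [← cauchy hs hs1 m j]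
      have h1 : ∀ x ∈ range (ℓ - j + 1),
          ((((ℓ - j).choose x : ℝ) * (p ^ (j + x) * (1 - p) ^ (ℓ - (j + x))) : ℝ) : ℂ) *
          ((2 * Real.pi * I : ℂ)⁻¹ • ∮ ξ in C(0, 1), GG s u lam m (ℓ - m) (j + x) ξ) =
          (2 * Real.pi * I : ℂ)⁻¹ * ∮ ξ in C(0, 1),
          ((((ℓ - j).choose x : ℝ) * (p ^ (j + x) * (1 - p) ^ (ℓ - (j + x))) : ℝ) : ℂ) *
            GG s u lam m (ℓ - m) (j + x) ξ := by
        intro x _
        rw [circleIntegral.integral_const_mul, smul_eq_mul]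
        ring
      rw [sum_congr rfl h1, ← mul_sum, ← circleIntegral.integral_fun_sum]
      · have h3 : (∮ ξ in C(0, 1), ∑ x ∈ range (ℓ - j + 1),
            ((((ℓ - j).choose x : ℝ) * (p ^ (j + x) * (1 - p) ^ (ℓ - (j + x))) : ℝ) : ℂ) *
            GG s u lam m (ℓ - m) (j + x) ξ) =
            ∮ ξ in C(0, 1), (((1 - p) ^ ℓ : ℝ) : ℂ) * ((ξ - (-s : ℂ))⁻¹ • Ph s u lam m j ξ) :=
          circleIntegral.integral_congr zero_le_one fun ξ hξ =>
            sum_GG hs hs1 hu0 hu5 (by linarith) hu hm hj (by simpa using hξ)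
        rw [h3, circleIntegral.integral_const_mul, smul_eq_mul, mul_left_comm]
      · intro x _
        exact ContinuousOn.circleIntegrable zero_le_one
          (continuousOn_const.mul (cont_GG hs hs1 hu0 hu5 m (ℓ - m) (j + x)))
    have hre := congrArg Complex.re hmain
    rw [Complex.re_sum] at hre
    have h2 : ∀ x ∈ range (ℓ - j + 1), ((ℓ - j).choose x : ℝ) *
        (p ^ (j + x) * (1 - p) ^ (ℓ - (j + x)) * (C0 * ((2 * Real.pi * I : ℂ)⁻¹ •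
          ∮ ξ in C(0, 1), GG s u lam m (ℓ - m) (j + x) ξ).re)) =
        C0 * (((((ℓ - j).choose x : ℝ) * (p ^ (j + x) * (1 - p) ^ (ℓ - (j + x))) : ℝ) : ℂ) *
        ((2 * Real.pi * I : ℂ)⁻¹ • ∮ ξ in C(0, 1), GG s u lam m (ℓ - m) (j + x) ξ)).re := by
      intro x _
      rw [Complex.re_ofReal_mul]
      ring
    rw [sum_congr rfl h2, ← mul_sum, hre, ph_val hs hs1]
    split_ifs with h0
    · rw [← Complex.ofReal_mul, Complex.ofReal_re, hC0, hs2]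
      have e1 : (-(1 / s)) ^ m * (-s) ^ m = 1 := by
        rw [← mul_pow]
        have : -(1 / s) * -s = 1 := by field_simp
        rw [this, one_pow]
      have e2 : Real.exp (-(lam * (1 - q))) * Real.exp (lam * (1 - q)) = 1 := by
        rw [← Real.exp_add]; simp
      calc _ = (1 - p) ^ ℓ * (((-(1 / s)) ^ m * (-s) ^ m) *
            (Real.exp (-(lam * (1 - q))) * Real.exp (lam * (1 - q)))) := by ring
        _ = _ := by rw [e1, e2]; ring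
    · simp

end Pool.Agent.H50.OI
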