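import Pool.Agent.H50.OI.Stm

/-! # Project OI: the law on a block (stub OI-BLK) -/

set_option autoImplicit false

namespace Pool.Agent.H50.OI

open Finset Q198.CI

namespace Blk

/-- the sub-blocks -/
def cell (a ℓ i : ℕ) : Finset ℕ := Ico (a + i * ℓ) (a + (i + 1) * ℓ)

lemma mem_cell {a ℓ i n : ℕ} : n ∈ cell a ℓ i ↔ a + i * ℓ ≤ n ∧ n < a + (i + 1) * ℓ := by
  rw [cell, mem_Ico]

lemma cell_card (a ℓ i : ℕ) : (cell a ℓ i).card = ℓ := by
  rw [cell, Nat.card_Ico]
  have : (i + 1) * ℓ = i * ℓ + ℓ := by ring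
  omega

lemma cell_sub {a ℓ N i : ℕ} (h : i < N) : cell a ℓ i ⊆ Ico a (a + N * ℓ) := by
  intro n hn
  rw [mem_cell] at hn
  rw [mem_Ico]
  have : (i + 1) * ℓ ≤ N * ℓ := Nat.mul_le_mul_right _ h
  constructor
  · exact le_trans (Nat.le_add_right _ _) hn.1
  · omega

lemma cell_lt {a ℓ i j n : ℕ} (h : i < j) (hi : n ∈ cell a ℓ i) : n ∉ cell a ℓ j := by
  rw [mem_cell] at *
  have : (i + 1) * ℓ ≤ j * ℓ := Nat.mul_le_mul_right _ h
  omega

lemma cell_disj {a ℓ i j : ℕ} (h : i ≠ j) : Disjoint (cell a ℓ i) (cell a ℓ j) := by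
  rw [disjoint_left]
  intro n hi hj
  rcases lt_or_gt_of_ne h with h | h
  · exact cell_lt h hi hj
  · exact cell_lt h hj hi

lemma split_sum {I C T : Finset ℕ} (hC : C ⊆ I) (F : Finset ℕ → Finset ℕ → ℝ) :
    ∑ A ∈ Icc T I, F (A ∩ C) (A \ C) =
      ∑ B ∈ Icc (T ∩ C) C, ∑ D ∈ Icc (T \ C) (I \ C), F B D := by
  rw [← sum_product' (f := F)]
  refine sum_nbij' (fun A => (A ∩ C, A \ C)) (fun q => q.1 ∪ q.2) ?_ ?_ ?_ ?_ ?_
  · intro A hA
    rw [mem_Icc] at hA
    rw [mem_product, mem_Icc, mem_Icc]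
    exact ⟨⟨inter_subset_inter_right hA.1, inter_subset_right⟩,
      sdiff_subset_sdiff hA.1 le_rfl, sdiff_subset_sdiff hA.2 le_rfl⟩
  · rintro ⟨B, D⟩ h
    simp only [mem_product, mem_Icc] at h
    rw [mem_Icc]
    constructor
    · intro x hx
      rw [mem_union]
      by_cases hxC : x ∈ C
      · exact Or.inl (h.1.1 (mem_inter.2 ⟨hx, hxC⟩))
      · exact Or.inr (h.2.1 (mem_sdiff.2 ⟨hx, hxC⟩))
    · exact union_subset (h.1.2.trans hC) (h.2.2.trans sdiff_subset)
  · intro A _
    ext x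
    simp only [mem_union, mem_inter, mem_sdiff]
    tauto
  · rintro ⟨B, D⟩ h
    simp only [mem_product, mem_Icc] at h
    have h1 : B ⊆ C := h.1.2
    have h2 : ∀ x ∈ D, x ∉ C := fun x hx => (mem_sdiff.1 (h.2.2 hx)).2
    refine Prod.ext ?_ ?_
    · ext x
      simp only [mem_inter, mem_union]
      constructor
      · rintro ⟨h3 | h3, h4⟩
        · exact h3
        · exact absurd h4 (h2 x h3)
      · intro h3
        exact ⟨Or.inl h3, h1 h3⟩
    · ext x
      simp only [mem_sdiff, mem_union]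
      constructor
      · rintro ⟨h3 | h3, h4⟩
        · exact absurd (h1 h3) h4
        · exact h3
      · intro h3
        exact ⟨Or.inr h3, h2 x h3⟩
  · intro A _
    rfl

lemma vanish {ℓ m : ℕ} {p β : ℝ} {ψ : ℕ → ℝ} (hψ : IsPsi ℓ m p β ψ) {I C T : Finset ℕ}
    (hC : C ⊆ I) (hc : C.card = ℓ) (hTC : (T ∩ C).card ≤ m) (g : Finset ℕ → ℝ) :
    ∑ A ∈ Icc T I, p ^ A.card * (1 - p) ^ (I.card - A.card) * (ψ (A ∩ C).card * g (A \ C)) = 0 := by
  have h1 : ∀ A ∈ Icc T I, p ^ A.card * (1 - p) ^ (I.card - A.card) *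
      (ψ (A ∩ C).card * g (A \ C)) =
      (fun B D : Finset ℕ => (p ^ B.card * (1 - p) ^ (ℓ - B.card) * ψ B.card) *
        (p ^ D.card * (1 - p) ^ ((I \ C).card - D.card) * g D)) (A ∩ C) (A \ C) := by
    intro A hA
    rw [mem_Icc] at hA
    simp only
    have e1 : A.card = (A ∩ C).card + (A \ C).card := (card_inter_add_card_sdiff A C).symm
    have e2 : I.card = ℓ + (I \ C).card := by
      have := card_inter_add_card_sdiff I C
      rw [inter_eq_right.2 hC, hc] at this
      exact this.symm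
    have l1 : (A ∩ C).card ≤ ℓ := hc ▸ card_le_card inter_subset_right
    have l2 : (A \ C).card ≤ (I \ C).card := card_le_card (sdiff_subset_sdiff hA.2 le_rfl)
    have e3 : I.card - A.card = (ℓ - (A ∩ C).card) + ((I \ C).card - (A \ C).card) := by omega
    rw [e3, pow_add, e1, pow_add]
    ring
  rw [sum_congr rfl h1, split_sum hC (fun B D : Finset ℕ =>
    (p ^ B.card * (1 - p) ^ (ℓ - B.card) * ψ B.card) *
        (p ^ D.card * (1 - p) ^ ((I \ C).card - D.card) * g D))]
  simp only [← mul_sum, ← sum_mul]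
  have h2 : ∑ B ∈ Icc (T ∩ C) C, p ^ B.card * (1 - p) ^ (ℓ - B.card) * ψ B.card = 0 := by
    rw [sum_Icc_card inter_subset_right (fun k => p ^ k * (1 - p) ^ (ℓ - k) * ψ k), hc]
    exact hψ.2.2 _ hTC
  rw [h2, zero_mul]

/-- the product over the sub-blocks `U` vanishes on average if one of them contains few
points of `T` -/
lemma vanish_prod {ℓ m N a : ℕ} {p β : ℝ} {ψ : ℕ → ℝ} (hψ : IsPsi ℓ m p β ψ) {T U : Finset ℕ}
    (hU : U ⊆ range N) {i : ℕ} (hi : i ∈ U) (hTC : (T ∩ cell a ℓ i).card ≤ m) :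
    ∑ A ∈ Icc T (Ico a (a + N * ℓ)), p ^ A.card *
      (1 - p) ^ ((Ico a (a + N * ℓ)).card - A.card) * ∏ i ∈ U, ψ (A ∩ cell a ℓ i).card = 0 := by
  rw [← vanish hψ (cell_sub (mem_range.1 (hU hi))) (cell_card a ℓ i) hTC
    (fun D => ∏ j ∈ U.erase i, ψ (D ∩ cell a ℓ j).card)]
  refine sum_congr rfl fun A _ => ?_
  rw [← mul_prod_erase U _ hi]
  congr 2
  refine prod_congr rfl fun j hj => ?_
  have hd : Disjoint (cell a ℓ j) (cell a ℓ i) := cell_disj (ne_of_mem_erase hj)
  have e : A ∩ cell a ℓ j = (A \ cell a ℓ i) ∩ cell a ℓ j := by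
    ext x
    simp only [mem_inter, mem_sdiff]
    constructor
    · rintro ⟨h1, h2⟩
      exact ⟨⟨h1, disjoint_left.1 hd h2⟩, h2⟩
    · rintro ⟨⟨h1, _⟩, h2⟩
      exact ⟨h1, h2⟩
  rw [e]

lemma exists_few {ℓ m S a K : ℕ} {T U : Finset ℕ} (hK : K < 2 * S * (m + 1))
    (hTK : T.card ≤ K) (hU : 2 * S ≤ U.card) : ∃ i ∈ U, (T ∩ cell a ℓ i).card ≤ m := by
  by_contra h
  push Not at h
  have h1 : ∑ i ∈ U, (T ∩ cell a ℓ i).card ≤ T.card := by
    rw [← card_biUnion]
    · exact card_le_card (biUnion_subset.2 fun i _ => inter_subset_left)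
    · intro i _ j _ hij
      exact (cell_disj hij).mono inter_subset_right inter_subset_right
  have h2 : U.card * (m + 1) ≤ ∑ i ∈ U, (T ∩ cell a ℓ i).card := by
    rw [← smul_eq_mul]
    exact card_nsmul_le_sum U _ _ fun i hi => h i hi
  have h3 : 2 * S * (m + 1) ≤ U.card * (m + 1) := Nat.mul_le_mul_right _ hU
  omega

/-- `ff` vanishes without windows if there is a window on which `ψ = 1` -/
lemma ff_zero {S N j : ℕ} {ψ : ℕ → ℝ} (hj : j + S ≤ N) (h : ∀ i ∈ Ico j (j + S), ψ i = 1) :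
    ff S N ψ (fun _ => 0) = 0 := by
  rw [ff]
  refine sum_eq_zero fun b hb => ?_
  rw [mem_powerset] at hb
  by_cases hw : Ico j (j + S) ⊆ b
  · have : ∏ j ∈ range (N + 1 - S), (if Ico j (j + S) ⊆ b then (0:ℝ) else 1) = 0 := by
      refine prod_eq_zero (i := j) (mem_range.2 (by omega)) ?_
      rw [if_pos hw]
    rw [this, mul_zero]
  · rw [not_subset] at hw
    obtain ⟨i, hi, hib⟩ := hw
    have : ∏ i ∈ range N \ b, (1 - ψ i) = 0 := by
      refine prod_eq_zero (i := i) (mem_sdiff.2 ⟨mem_range.2 ?_, hib⟩) ?_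
      · rw [mem_Ico] at hi
        omega
      · rw [h i hi, sub_self]
    rw [this, mul_zero, zero_mul]

end Blk

open Blk

theorem blk (hpos : S_POS) (hexj : S_EXJ) (hexp : S_EXP) : S_BLK := by
  intro ℓ m S N a K p β τ ψ hS hp hp1 hτ hτ1 hβ hβτ hK hψ
  set I : Finset ℕ := Ico a (a + N * ℓ) with hI
  set P : Finset ℕ → ℝ := fun A => p ^ A.card * (1 - p) ^ (I.card - A.card) with hP
  have hP0 : ∀ A, 0 ≤ P A := fun A => by
    rw [hP]
    have : 0 ≤ 1 - p := by linarith
    positivity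
  set Ψ : Finset ℕ → ℕ → ℝ := fun A i => ψ (A ∩ cell a ℓ i).card with hΨ
  set y : Finset ℕ → ℕ → ℝ := fun D j => if j % S ∈ D then 1 / τ else 0 with hy
  set c0 : Finset ℕ → ℝ := fun D => τ ^ D.card * (1 - τ) ^ (S - D.card) with hc0
  have hc0p : ∀ D, 0 ≤ c0 D := fun D => by
    rw [hc0]
    have : 0 ≤ 1 - τ := by linarith
    positivity
  have hff : ∀ A D, 0 ≤ ff S N (Ψ A) (y D) := by
    intro A D
    refine hpos S N (Ψ A) (y D) β τ hS hτ hτ1 hβ hβτ ?_ ?_
    · intro i
      rw [hΨ]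
      simp only
      rcases Nat.eq_zero_or_pos (A ∩ cell a ℓ i).card with h | h
      · left
        rw [h]
        exact hψ.1
      · right
        refine hψ.2.1 _ h ?_
        calc (A ∩ cell a ℓ i).card ≤ (cell a ℓ i).card := card_le_card inter_subset_right
          _ = ℓ := cell_card a ℓ i
    · intro j
      rw [hy]
      simp only
      have : 0 < 1 / τ := by positivity
      split_ifs
      · exact ⟨this.le, le_rfl⟩
      · exact ⟨le_rfl, this.le⟩
  have hone : ∀ T ⊆ I, ∑ A ∈ Icc T I, P A = p ^ T.card := by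
    intro T hT
    have h := prod_moment hT (fun _ => p)
    rw [prod_const] at h
    rw [← h]
    refine sum_congr rfl fun A hA => ?_
    rw [mem_Icc] at hA
    rw [prod_const, prod_const, card_sdiff_of_subset hA.2]
  refine ⟨fun A => P A * ∑ D ∈ (range S).powerset, c0 D * ff S N (Ψ A) (y D), ⟨?_, ?_⟩, ?_⟩
  · intro A _
    exact mul_nonneg (hP0 A) (sum_nonneg fun D _ => mul_nonneg (hc0p D) (hff A D))
  · intro T hT hTK
    obtain ⟨c, hc, hex⟩ := hexp S N τ hS hτ hτ1
    have h1 : ∀ A ∈ Icc T I, P A * ∑ D ∈ (range S).powerset, c0 D * ff S N (Ψ A) (y D) =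
        P A + ∑ U ∈ (range N).powerset, c U * (P A * ∏ i ∈ U, Ψ A i) := by
      intro A _
      have := hex (Ψ A)
      rw [this, mul_add, mul_one, mul_sum]
      congr 1
      refine sum_congr rfl fun U _ => ?_
      ring
    rw [sum_congr rfl h1, sum_add_distrib, hone T hT, sum_comm, prod_const]
    have h2 : ∑ U ∈ (range N).powerset, ∑ A ∈ Icc T I, c U * (P A * ∏ i ∈ U, Ψ A i) = 0 := by
      refine sum_eq_zero fun U hU => ?_
      rw [← mul_sum]
      by_cases hcU : c U = 0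
      · rw [hcU, zero_mul]
      · obtain ⟨i, hi, hTi⟩ := exists_few (ℓ := ℓ) (a := a) hK hTK (hc U hcU)
        rw [vanish_prod hψ (mem_powerset.1 hU) hi hTi, mul_zero]
    rw [h2, add_zero]
  · rw [mass]
    classical
    have h1 : ∀ A ∈ I.powerset, (1 - τ) ^ S * (P A * ff S N (Ψ A) (fun _ => 0)) ≤
        if (∀ j, j + S ≤ N → ∃ n ∈ A, a + j * ℓ ≤ n ∧ n < a + (j + S) * ℓ) then
          P A * ∑ D ∈ (range S).powerset, c0 D * ff S N (Ψ A) (y D) else 0 := by
      intro A _
      split_ifs with hG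
      · have h2 : c0 ∅ * ff S N (Ψ A) (y ∅) ≤
            ∑ D ∈ (range S).powerset, c0 D * ff S N (Ψ A) (y D) :=
          single_le_sum (f := fun D => c0 D * ff S N (Ψ A) (y D))
            (fun D _ => mul_nonneg (hc0p D) (hff A D)) (empty_mem_powerset _)
        have e1 : c0 ∅ = (1 - τ) ^ S := by
          rw [hc0]
          simp
        have e2 : y ∅ = fun _ => 0 := by
          rw [hy]
          funext j
          simp
        rw [e1, e2] at h2
        calc (1 - τ) ^ S * (P A * ff S N (Ψ A) (fun _ => 0))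
            = P A * ((1 - τ) ^ S * ff S N (Ψ A) (fun _ => 0)) := by ring
          _ ≤ _ := mul_le_mul_of_nonneg_left h2 (hP0 A)
      · push Not at hG
        obtain ⟨j, hj, hA⟩ := hG
        have h3 : ff S N (Ψ A) (fun _ => 0) = 0 := by
          refine ff_zero hj fun i hi => ?_
          rw [mem_Ico] at hi
          have h4 : A ∩ cell a ℓ i = ∅ := by
            rw [eq_empty_iff_forall_notMem]
            intro n hn
            rw [mem_inter, mem_cell] at hn
            have h5 : j * ℓ ≤ i * ℓ := Nat.mul_le_mul_right _ hi.1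
            have h6 : (i + 1) * ℓ ≤ (j + S) * ℓ := Nat.mul_le_mul_right _ (by omega)
            have := hA n hn.1 (by omega)
            omega
          rw [hΨ]
          simp only
          rw [h4, card_empty]
          exact hψ.1
        rw [h3, mul_zero, mul_zero]
    refine le_trans ?_ (sum_le_sum h1)
    rw [← mul_sum]
    have hI0 : I.powerset = Icc ∅ I := by
      ext A
      simp only [mem_powerset, mem_Icc]
      exact ⟨fun h => ⟨empty_subset _, h⟩, fun h => h.2⟩
    have h2 : ∑ A ∈ I.powerset, P A * ff S N (Ψ A) (fun _ => 0) = 1 := by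
      have h3 : ∀ A ∈ I.powerset, P A * ff S N (Ψ A) (fun _ => 0) =
          ∑ J ∈ (range (N + 1 - S)).powerset, (∏ j ∈ J, ((0:ℝ) - 1)) *
            (P A * ∏ i ∈ J.biUnion (fun j => Ico j (j + S)), Ψ A i) := by
        intro A _
        rw [hexj S N (Ψ A) (fun _ => 0) hS, mul_sum]
        refine sum_congr rfl fun J _ => ?_
        ring
      rw [sum_congr rfl h3, sum_comm, sum_eq_single ∅]
      · simp only [prod_empty, biUnion_empty, mul_one, one_mul]
        rw [hI0, hone ∅ (empty_subset _)]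
        simp
      · intro J hJ hJ0
        rw [← mul_sum, hI0]
        obtain ⟨j, hj⟩ := nonempty_iff_ne_empty.2 hJ0
        have hU : J.biUnion (fun j => Ico j (j + S)) ⊆ range N := by
          intro i hi
          rw [mem_biUnion] at hi
          obtain ⟨j', hj', hi⟩ := hi
          have := mem_range.1 (mem_powerset.1 hJ hj')
          rw [mem_Ico] at hi
          rw [mem_range]
          omega
        have hi : j ∈ J.biUnion (fun j => Ico j (j + S)) :=
          mem_biUnion.2 ⟨j, hj, mem_Ico.2 ⟨le_rfl, by omega⟩⟩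
        rw [vanish_prod hψ hU hi (by simp), mul_zero]
      · intro h
        exact absurd (empty_mem_powerset _) h
    rw [h2, mul_one]

end Pool.Agent.H50.OI
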