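import Pool.Agent.H50.OI.Stm
import Pool.Agent.H50.L.LI.F
import Pool.Agent.H50.L.LI.G

set_option autoImplicit false

namespace Pool.Agent.H50.OI

open Finset MeasureTheory Filter Topology Q198.CI

theorem bnd : S_BND := by
  intro Ω _ P _ κ E hM hκ
  have hlog2 : 0 < Real.log 2 := Real.log_pos (by norm_num)
  have key : ∀ j : ℕ, ∀ᵐ ω ∂P, ∀ᶠ i : ℕ in atTop, ∃ n : ℕ, ω ∈ E n ∧ n ≤ 2 ^ i ∧
      (2 : ℝ) ^ i < n + 1 / ((j : ℝ) + 1) * ((i : ℝ) * Real.log 2) ^ 2 := by
    intro j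
    set ε : ℝ := 1 / ((j : ℝ) + 1) with hε
    have hε0 : 0 < ε := by positivity
    set h : ℕ → ℕ := fun i => ⌊ε * ((i : ℝ) * Real.log 2) ^ 2⌋₊ with hh
    set W : ℕ → ℕ → Finset ℕ := fun i _ => Ioc (2 ^ i - h i) (2 ^ i) with hW
    obtain ⟨n₀, hn₀⟩ := eventually_atTop.1 hκ
    have hlim : Tendsto (fun i : ℕ => ((i : ℝ)) ^ 2 / (2:ℝ) ^ i) atTop (𝓝 0) :=
      tendsto_pow_const_div_const_pow_of_one_lt 2 (by norm_num)
    have hsq : Tendsto (fun i : ℕ => (i : ℝ) ^ 2) atTop atTop :=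
      (tendsto_pow_atTop (by norm_num)).comp tendsto_natCast_atTop_atTop
    have hev : ∀ᶠ i : ℕ in atTop, 2 * h i ≤ 2 ^ i ∧ 2 * (n₀ + 3) ≤ 2 ^ i ∧
        2 ≤ (h i : ℝ) ∧ ε * ((i : ℝ) * Real.log 2) ^ 2 / 2 ≤ h i ∧ 3 ≤ i := by
      have h1 := hlim.const_mul (2 * (ε * Real.log 2 ^ 2))
      rw [mul_zero] at h1
      have h2 : ∀ᶠ i : ℕ in atTop, 6 ≤ ε * Real.log 2 ^ 2 * (i : ℝ) ^ 2 :=
        (hsq.const_mul_atTop (by positivity)).eventually_ge_atTop 6
      filter_upwards [h1.eventually_le_const zero_lt_one, h2, eventually_ge_atTop (2 * (n₀ + 3)),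
        eventually_ge_atTop 3] with i h3 h4 h5 h6
      have h2i : (0:ℝ) < 2 ^ i := by positivity
      have h7 : (h i : ℝ) ≤ ε * ((i : ℝ) * Real.log 2) ^ 2 := Nat.floor_le (by positivity)
      have h8 : ε * ((i : ℝ) * Real.log 2) ^ 2 < h i + 1 := Nat.lt_floor_add_one _
      have e1 : ε * ((i : ℝ) * Real.log 2) ^ 2 = ε * Real.log 2 ^ 2 * (i : ℝ) ^ 2 := by ring
      refine ⟨?_, ?_, ?_, ?_, h6⟩
      · have h9 := mul_le_mul_of_nonneg_right h3 h2i.le
        have e2 : 2 * (ε * Real.log 2 ^ 2) * ((i : ℝ) ^ 2 / 2 ^ i) * 2 ^ i =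
            2 * (ε * Real.log 2 ^ 2 * (i : ℝ) ^ 2) := by field_simp
        rw [e2, one_mul] at h9
        have h10 : 2 * (h i : ℝ) ≤ 2 ^ i := by linarith
        exact_mod_cast h10
      · have : i < 2 ^ i := Nat.lt_two_pow_self
        omega
      · linarith
      · linarith
    obtain ⟨i₁, hi₁⟩ := eventually_atTop.1 hev
    have hmem : ∀ i k n, i₁ ≤ i → n ∈ W i k → n₀ ≤ n ∧ 3 ≤ n ∧ n ≤ 2 ^ i := by
      intro i k n hi hn
      obtain ⟨a1, a2, a3, a4, a5⟩ := hi₁ i hi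
      rw [hW] at hn
      simp only [mem_Ioc] at hn
      omega
    have hp : ∀ i k n, i₁ ≤ i → k < 1 → n ∈ W i k → 0 ≤ (1 / Real.log n : ℝ) ∧
        (1 / Real.log n : ℝ) < 1 := by
      intro i k n hi _ hn
      have h3 := (hmem i k n hi hn).2.1
      have h4 := one_lt_log h3
      constructor
      · positivity
      · rw [div_lt_one (by linarith)]
        exact h4
    have hsum : Summable (fun i : ℕ => 16 / (ε ^ 2 * Real.log 2 ^ 2) * (1 / (i : ℝ) ^ 2)) :=
      (Real.summable_one_div_nat_pow.2 (by norm_num)).mul_left _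
    have hfin := Q167.LI.scale_upper P hM.1 (W := W) (cnt := fun _ => 1) (m := fun _ => 2)
      (p := fun n => 1 / Real.log n)
      (Kq := fun i => ((h i).choose 2 : ℝ) * (1 / ((i : ℝ) * Real.log 2)) ^ 2) (i₁ := i₁) hp ?_ ?_ ?_
      hsum ?_
    · filter_upwards [hfin] with ω hω
      filter_upwards [hω, eventually_ge_atTop i₁] with i h1 hi
      obtain ⟨n, hn, hnE⟩ := h1 0 (by norm_num)
      obtain ⟨a1, a2, a3, a4, a5⟩ := hi₁ i hi
      have hn' : 2 ^ i - h i < n ∧ n ≤ 2 ^ i := by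
        rw [hW] at hn
        simpa only [mem_Ioc] using hn
      refine ⟨n, hnE, hn'.2, ?_⟩
      have h7 : (h i : ℝ) ≤ ε * ((i : ℝ) * Real.log 2) ^ 2 := Nat.floor_le (by positivity)
      have h8 : 2 ^ i < n + h i := by omega
      have h9 : (2:ℝ) ^ i < n + h i := by exact_mod_cast h8
      linarith
    · intro i k hi _ T hT hTc
      refine hM.2 T fun n hn => ?_
      obtain ⟨b1, b2, b3⟩ := hmem i k n hi (hT hn)
      exact ⟨b2, hTc.trans (hn₀ n b1)⟩
    · intro i hi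
      obtain ⟨a1, a2, a3, a4, a5⟩ := hi₁ i hi
      have h1 : 2 ≤ h i := by exact_mod_cast a3
      have h2 : (0:ℝ) < ((h i).choose 2 : ℝ) := by exact_mod_cast Nat.choose_pos h1
      have h3 : (0:ℝ) < i := by exact_mod_cast (by omega : 0 < i)
      positivity
    · intro i k hi hk
      obtain ⟨a1, a2, a3, a4, a5⟩ := hi₁ i hi
      have hi0 : (0:ℝ) < i := by exact_mod_cast (by omega : 0 < i)
      have hcard : (W i k).card = h i := by
        rw [hW]
        simp only [Nat.card_Ioc]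
        omega
      have := Q167.LI.sum_ge_choose (I := W i k) (m := 2)
        (r := fun n : ℕ => (1 / Real.log n : ℝ) / (1 - 1 / Real.log n))
        (ρ := 1 / ((i : ℝ) * Real.log 2)) (by positivity) ?_
      · rw [hcard] at this
        exact this
      · intro n hn
        obtain ⟨b1, b2⟩ := hp i k n hi hk hn
        obtain ⟨c1, c2, c3⟩ := hmem i k n hi hn
        have h1 : 1 / ((i : ℝ) * Real.log 2) ≤ 1 / Real.log n := by
          apply one_div_le_one_div_of_le
          · have := one_lt_log c2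
            linarith
          · rw [← Real.log_pow]
            apply Real.log_le_log
            · have : 0 < n := by omega
              exact_mod_cast this
            · exact_mod_cast c3
        refine h1.trans ?_
        rw [le_div_iff₀ (by linarith)]
        nlinarith
    · intro i hi
      obtain ⟨a1, a2, a3, a4, a5⟩ := hi₁ i hi
      have hi0 : (0:ℝ) < i := by exact_mod_cast (by omega : 0 < i)
      have hc : ((h i).choose 2 : ℝ) = (h i : ℝ) * (h i - 1) / 2 := Nat.cast_choose_two ℝ (h i)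
      have h4 : (h i : ℝ) ^ 2 / 4 ≤ ((h i).choose 2 : ℝ) := by
        rw [hc]
        nlinarith
      have h5 : (ε * ((i : ℝ) * Real.log 2) ^ 2 / 2) ^ 2 ≤ (h i : ℝ) ^ 2 :=
        pow_le_pow_left₀ (by positivity) a4 2
      have h6 : ε ^ 2 * ((i : ℝ) * Real.log 2) ^ 2 / 16 ≤
          ((h i).choose 2 : ℝ) * (1 / ((i : ℝ) * Real.log 2)) ^ 2 := by
        have h7 : (ε * ((i : ℝ) * Real.log 2) ^ 2 / 2) ^ 2 / 4 ≤ ((h i).choose 2 : ℝ) := by linarith
        have h8 := mul_le_mul_of_nonneg_right h7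
          (by positivity : (0:ℝ) ≤ (1 / ((i : ℝ) * Real.log 2)) ^ 2)
        refine le_trans (le_of_eq ?_) h8
        field_simp
        ring
      rw [Nat.cast_one]
      have h9 : (0:ℝ) < ε ^ 2 * ((i : ℝ) * Real.log 2) ^ 2 / 16 := by positivity
      refine (one_div_le_one_div_of_le h9 h6).trans (le_of_eq ?_)
      field_simp
  have key' := ae_all_iff.2 key
  filter_upwards [key'] with ω hω
  intro ε hε
  obtain ⟨j, hj⟩ := exists_nat_one_div_lt hε
  filter_upwards [hω j] with i hi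
  obtain ⟨n, h1, h2, h3⟩ := hi
  refine ⟨n, h1, h2, h3.trans_le ?_⟩
  have : 1 / ((j : ℝ) + 1) * ((i : ℝ) * Real.log 2) ^ 2 ≤ ε * ((i : ℝ) * Real.log 2) ^ 2 :=
    mul_le_mul_of_nonneg_right hj.le (sq_nonneg _)
  linarith

end Pool.Agent.H50.OI
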