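import Pool.Agent.H50.OI.Stm

/-! # Project OI: Bonferroni inequalities for events independent of order `4 s` (by helper37) -/

set_option autoImplicit false

namespace Pool.Agent.H50.OI

open Finset MeasureTheory Filter Topology Q198.CI

/-- the truncated alternating sum -/
def alt (m : ℕ) (A : Finset ℕ) : ℝ := ∑ T ∈ A.powerset, if T.card ≤ m then (-1 : ℝ) ^ T.card else 0

lemma alt_empty (m : ℕ) : alt m ∅ = 1 := by
  simp [alt]

lemma alt_insert (m : ℕ) {A : Finset ℕ} {a : ℕ} (ha : a ∉ A) :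
    alt m (insert a A) = (-1 : ℝ) ^ m * ∑ T ∈ A.powerset, if T.card = m then (1 : ℝ) else 0 := by
  unfold alt
  rw [sum_powerset_insert ha, ← sum_add_distrib, mul_sum]
  refine sum_congr rfl fun T hT => ?_
  have haT : a ∉ T := fun h => ha (mem_powerset.1 hT h)
  rw [card_insert_of_notMem haT]
  rcases lt_trichotomy T.card m with h | h | h
  · rw [if_pos h.le, if_pos (by omega), if_neg h.ne]
    ring
  · rw [if_pos h.le, if_neg (by omega), if_pos h, h]
    ring
  · rw [if_neg (by omega), if_neg (by omega), if_neg (by omega)]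
    ring

lemma alt_le {m : ℕ} (hm : Odd m) (A : Finset ℕ) : alt m A ≤ if A = ∅ then 1 else 0 := by
  rcases A.eq_empty_or_nonempty with rfl | ⟨a, ha⟩
  · rw [alt_empty, if_pos rfl]
  · rw [if_neg (ne_empty_of_mem ha), ← insert_erase ha, alt_insert m (notMem_erase a A),
      hm.neg_one_pow]
    have : 0 ≤ ∑ T ∈ (A.erase a).powerset, if T.card = m then (1 : ℝ) else 0 :=
      sum_nonneg fun T _ => by split_ifs <;> norm_num
    linarith

lemma le_alt {m : ℕ} (hm : Even m) (A : Finset ℕ) : (if A = ∅ then 1 else 0) ≤ alt m A := by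
  rcases A.eq_empty_or_nonempty with rfl | ⟨a, ha⟩
  · rw [alt_empty, if_pos rfl]
  · rw [if_neg (ne_empty_of_mem ha), ← insert_erase ha, alt_insert m (notMem_erase a A),
      hm.neg_one_pow, one_mul]
    exact sum_nonneg fun T _ => by split_ifs <;> norm_num

/-- the truncated sums of the inclusion-exclusion formula -/
def BB (m : ℕ) (p : ℕ → ℝ) (I : Finset ℕ) : ℝ :=
  ∑ T ∈ I.powerset, if T.card ≤ m then (-1 : ℝ) ^ T.card * ∏ n ∈ T, p n else 0

/-- the expectation of `alt` -/
lemma law_alt {I : Finset ℕ} {m : ℕ} {p : ℕ → ℝ} {v : Finset ℕ → ℝ}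
    (hv : ∀ T ⊆ I, T.card ≤ m → ∑ S ∈ Icc T I, v S = ∏ n ∈ T, p n) :
    ∑ S ∈ I.powerset, v S * alt m S = BB m p I := by
  unfold alt BB
  have h1 : ∀ S ∈ I.powerset, v S * ∑ T ∈ S.powerset, (if T.card ≤ m then (-1 : ℝ) ^ T.card else 0) =
      ∑ T ∈ I.powerset, if T ⊆ S then v S * (if T.card ≤ m then (-1 : ℝ) ^ T.card else 0)
        else 0 := by
    intro S hS
    rw [mul_sum, ← sum_filter]
    refine sum_congr ?_ fun _ _ => rfl
    ext T
    rw [mem_filter, mem_powerset, mem_powerset]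
    exact ⟨fun h => ⟨h.trans (mem_powerset.1 hS), h⟩, fun h => h.2⟩
  rw [sum_congr rfl h1, sum_comm]
  refine sum_congr rfl fun T hT => ?_
  have hT' := mem_powerset.1 hT
  rw [← sum_filter]
  have h3 : I.powerset.filter (fun S => T ⊆ S) = Icc T I := by
    ext S
    rw [mem_filter, mem_powerset, mem_Icc]
    exact and_comm
  rw [h3, ← sum_mul]
  split_ifs with h
  · rw [hv T hT' h, mul_comm]
  · rw [mul_zero]

/-- the lower Bonferroni inequality for a law -/
lemma bonf_low {I : Finset ℕ} {m : ℕ} {p : ℕ → ℝ} {v : Finset ℕ → ℝ} (hm : Odd m)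
    (hv0 : ∀ S ⊆ I, 0 ≤ v S)
    (hv : ∀ T ⊆ I, T.card ≤ m → ∑ S ∈ Icc T I, v S = ∏ n ∈ T, p n) : BB m p I ≤ v ∅ := by
  rw [← law_alt hv]
  have h1 : ∀ S ∈ I.powerset, v S * alt m S ≤ v S * (if S = ∅ then 1 else 0) := fun S hS =>
    mul_le_mul_of_nonneg_left (alt_le hm S) (hv0 S (mem_powerset.1 hS))
  refine (sum_le_sum h1).trans ?_
  simp [empty_subset]

/-- the upper Bonferroni inequality for a law -/
lemma bonf_upp {I : Finset ℕ} {m : ℕ} {p : ℕ → ℝ} {v : Finset ℕ → ℝ} (hm : Even m)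
    (hv0 : ∀ S ⊆ I, 0 ≤ v S)
    (hv : ∀ T ⊆ I, T.card ≤ m → ∑ S ∈ Icc T I, v S = ∏ n ∈ T, p n) : v ∅ ≤ BB m p I := by
  rw [← law_alt hv]
  have h1 : ∀ S ∈ I.powerset, v S * (if S = ∅ then 1 else 0) ≤ v S * alt m S := fun S hS =>
    mul_le_mul_of_nonneg_left (le_alt hm S) (hv0 S (mem_powerset.1 hS))
  refine le_trans ?_ (sum_le_sum h1)
  simp [empty_subset]

lemma pow_add_ge {S a : ℝ} (hS : 0 ≤ S) (ha : 0 ≤ a) (k : ℕ) :
    S ^ (k + 1) + (k + 1) * a * S ^ k ≤ (S + a) ^ (k + 1) := by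
  induction k with
  | zero => simp
  | succ k ih =>
    have h1 := mul_le_mul_of_nonneg_left ih (add_nonneg hS ha)
    have h2 : 0 ≤ ((k : ℝ) + 1) * a ^ 2 * S ^ k := by positivity
    rw [pow_succ (S + a) (k + 1), mul_comm ((S + a) ^ (k + 1))]
    refine le_trans ?_ h1
    push_cast
    have h3 : (S + a) * (S ^ (k + 1) + (k + 1) * a * S ^ k) =
        S ^ (k + 1 + 1) + ((k : ℝ) + 1 + 1) * a * S ^ (k + 1) + ((k : ℝ) + 1) * a ^ 2 * S ^ k := by
      ring
    rw [h3]
    linarith

lemma esym_le {p : ℕ → ℝ} (I : Finset ℕ) : (∀ n ∈ I, 0 ≤ p n) → ∀ k : ℕ,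
    ∑ T ∈ powersetCard k I, ∏ n ∈ T, p n ≤ (∑ n ∈ I, p n) ^ k / (k.factorial : ℝ) := by
  induction I using Finset.induction_on with
  | empty =>
    intro _ k
    cases k with
    | zero => simp
    | succ k =>
      rw [powersetCard_eq_empty.2 (by simp)]
      simp
  | insert a I ha ih =>
    intro hp k
    have hpa : 0 ≤ p a := hp a (mem_insert_self a I)
    have hpI : ∀ n ∈ I, 0 ≤ p n := fun n hn => hp n (mem_insert_of_mem hn)
    have hS : 0 ≤ ∑ n ∈ I, p n := sum_nonneg hpI
    cases k with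
    | zero => simp
    | succ k =>
      rw [powersetCard_succ_insert ha, sum_union, sum_image, sum_insert ha]
      · have h1 : ∀ T ∈ powersetCard k I, ∏ n ∈ insert a T, p n = p a * ∏ n ∈ T, p n := by
          intro T hT
          exact prod_insert fun h => ha ((mem_powersetCard.1 hT).1 h)
        rw [sum_congr rfl h1, ← mul_sum]
        have h2 := ih hpI (k + 1)
        have h3 := mul_le_mul_of_nonneg_left (ih hpI k) hpa
        have h4 := pow_add_ge hS hpa k
        refine (add_le_add h2 h3).trans ?_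
        have hf : ((k + 1).factorial : ℝ) = ((k : ℝ) + 1) * (k.factorial : ℝ) := by
          rw [Nat.factorial_succ]
          push_cast
          ring
        have hk : (0 : ℝ) < (k.factorial : ℝ) := by positivity
        have hk1 : (0 : ℝ) < (k : ℝ) + 1 := by positivity
        rw [hf, add_comm (p a)]
        rw [le_div_iff₀ (by positivity)]
        refine le_trans (le_of_eq ?_) h4
        field_simp
      · intro T hT T' hT' h
        have hT1 : a ∉ T := fun h => ha ((mem_powersetCard.1 (mem_coe.1 hT)).1 h)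
        have hT2 : a ∉ T' := fun h => ha ((mem_powersetCard.1 (mem_coe.1 hT')).1 h)
        rw [← erase_insert hT1, ← erase_insert hT2, h]
      · rw [Finset.disjoint_left]
        intro T hT hT'
        obtain ⟨T', _, rfl⟩ := mem_image.1 hT'
        exact ha ((mem_powersetCard.1 hT).1 (mem_insert_self a T'))

lemma BB_succ (m : ℕ) (hm : Odd m) (p : ℕ → ℝ) (I : Finset ℕ) :
    BB (m + 1) p I = BB m p I + ∑ T ∈ powersetCard (m + 1) I, ∏ n ∈ T, p n := by
  unfold BB
  rw [powersetCard_eq_filter, sum_filter, ← sum_add_distrib]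
  refine sum_congr rfl fun T _ => ?_
  rcases lt_trichotomy T.card (m + 1) with h | h | h
  · rw [if_pos h.le, if_pos (by omega), if_neg h.ne, add_zero]
  · rw [if_pos h.le, if_neg (by omega), if_pos h, h, (hm.add_one).neg_one_pow]
    ring
  · rw [if_neg (by omega), if_neg (by omega), if_neg (by omega)]
    ring

theorem bon : S_BON := by
  intro Ω _ P _ E I s p hE hs hp hT
  classical
  set D : Finset ℕ → Set Ω := fun S => ⋂ n ∈ I, {ω | ω ∈ E n ↔ n ∈ S} with hD
  have hDm : ∀ S, MeasurableSet (D S) := by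
    intro S
    refine Finset.measurableSet_biInter _ fun n _ => ?_
    by_cases h : n ∈ S
    · have : {ω | ω ∈ E n ↔ n ∈ S} = E n := by
        ext ω
        simp [h]
      rw [this]
      exact hE n
    · have : {ω | ω ∈ E n ↔ n ∈ S} = (E n)ᶜ := by
        ext ω
        simp [h]
      rw [this]
      exact (hE n).compl
  have hmemD : ∀ S ω, ω ∈ D S ↔ ∀ n ∈ I, (ω ∈ E n ↔ n ∈ S) := by
    intro S ω
    simp only [hD, Set.mem_iInter, Set.mem_ofPred_eq]
  have hlaw : ∀ T ⊆ I, T.card ≤ 4 * s →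
      ∑ S ∈ Icc T I, (P (D S)).toReal = ∏ n ∈ T, p n := by
    intro T hTI hTc
    have h1 : (⋂ n ∈ T, E n) = ⋃ S ∈ Icc T I, D S := by
      ext ω
      simp only [Set.mem_iInter, Set.mem_iUnion, hmemD]
      constructor
      · intro h
        refine ⟨I.filter (fun n => ω ∈ E n), ?_, ?_⟩
        · rw [mem_Icc]
          refine ⟨fun n hn => mem_filter.2 ⟨hTI hn, h n hn⟩, filter_subset _ _⟩
        · intro n hn
          rw [mem_filter]
          exact ⟨fun h2 => ⟨hn, h2⟩, fun h2 => h2.2⟩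
      · rintro ⟨S, hS, h⟩ n hn
        rw [mem_Icc] at hS
        exact (h n (hTI hn)).2 (hS.1 hn)
    have h2 : P (⋂ n ∈ T, E n) = ∑ S ∈ Icc T I, P (D S) := by
      rw [h1, measure_biUnion_finset]
      · intro S hS S' hS' hne
        rw [Function.onFun, Set.disjoint_left]
        intro ω h3 h4
        rw [hmemD] at h3 h4
        apply hne
        ext n
        have hSI := (mem_Icc.1 (mem_coe.1 hS)).2
        have hSI' := (mem_Icc.1 (mem_coe.1 hS')).2
        constructor
        · intro h5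
          exact (h4 n (hSI h5)).1 ((h3 n (hSI h5)).2 h5)
        · intro h5
          exact (h3 n (hSI' h5)).1 ((h4 n (hSI' h5)).2 h5)
      · intro S _
        exact hDm S
    rw [← ENNReal.toReal_sum (fun S _ => measure_ne_top P _), ← h2, hT T hTI hTc,
      ENNReal.toReal_ofReal (prod_nonneg fun n hn => (hp n (hTI hn)).1)]
  have h4 : (⋂ n ∈ I, (E n)ᶜ) = D ∅ := by
    ext ω
    simp only [Set.mem_iInter, Set.mem_compl_iff, hmemD, notMem_empty, iff_false]
  rw [h4, ← ENNReal.ofReal_toReal (measure_ne_top P (D ∅))]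
  apply ENNReal.ofReal_le_ofReal
  have hodd : Odd (4 * s - 1) := by
    obtain ⟨t, rfl⟩ := Nat.exists_eq_add_of_le hs
    exact ⟨2 * t + 1, by omega⟩
  have heven : Even (4 * s) := ⟨2 * s, by omega⟩
  have h5 : BB (4 * s - 1) p I ≤ (P (D ∅)).toReal :=
    bonf_low (v := fun S => (P (D S)).toReal) hodd (fun S _ => ENNReal.toReal_nonneg)
      fun T hTI hTc => hlaw T hTI (by omega)
  have h6 : ∏ n ∈ I, (1 - p n) ≤ BB (4 * s) p I := by
    have h7 := bonf_upp (I := I) (m := 4 * s) (p := p)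
      (v := fun S => (∏ n ∈ S, p n) * ∏ n ∈ I \ S, (1 - p n)) heven
      (fun S hS => mul_nonneg (prod_nonneg fun n hn => (hp n (hS hn)).1)
        (prod_nonneg fun n hn => by
          have := (hp n (sdiff_subset hn)).2
          linarith))
      (fun T hTI _ => prod_moment hTI p)
    simpa using h7
  have h8 : BB (4 * s) p I = BB (4 * s - 1) p I + ∑ T ∈ powersetCard (4 * s) I, ∏ n ∈ T, p n := by
    have h9 := BB_succ (4 * s - 1) hodd p I
    rwa [Nat.sub_add_cancel (by omega)] at h9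
  have h10 := esym_le I (fun n hn => (hp n hn).1) (4 * s)
  unfold aI
  linarith

end Pool.Agent.H50.OI
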