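import Pool.Agent.H50.OI.Stm

/-! # Project OI: the second moment method -/

set_option autoImplicit false

namespace Pool.Agent.H50.OI

open Finset MeasureTheory Filter Topology

theorem che : S_CHE := by
  classical
  intro Ω _ P _ s V a b δ hs hδ hV hab hPa hPb
  set v : ℕ → ℝ := fun k => P.real (V k) with hv
  have hav : ∀ k ∈ s, a k ≤ v k := by
    intro k hk
    have h := hPa k hk
    rw [hv]
    show a k ≤ (P (V k)).toReal
    exact (ENNReal.ofReal_le_iff_le_toReal (measure_ne_top P _)).1 h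
  have hvpos : ∀ k ∈ s, 0 < v k := fun k hk => lt_of_lt_of_le (hab k hk).1 (hav k hk)
  set w : ℕ → ℝ := fun k => a k / v k with hw
  have hw0 : ∀ k ∈ s, 0 ≤ w k := fun k hk => div_nonneg (hab k hk).1.le (hvpos k hk).le
  have hw1 : ∀ k ∈ s, w k ≤ 1 := fun k hk => (div_le_one (hvpos k hk)).2 (hav k hk)
  have hwv : ∀ k ∈ s, w k * v k = a k := fun k hk => div_mul_cancel₀ _ (hvpos k hk).ne'
  set A : ℝ := ∑ k ∈ s, a k with hA
  have hApos : 0 < A := Finset.sum_pos (fun k hk => (hab k hk).1) hs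
  set g : ℕ → Ω → ℝ := fun k => (V k).indicator (fun _ => (1 : ℝ)) with hg
  set f : Ω → ℝ := fun ω => ∑ k ∈ s, w k * g k ω with hf
  have hgi : ∀ k ∈ s, Integrable (g k) P := fun k hk =>
    (integrable_const (1 : ℝ)).indicator (hV k hk)
  have hgint : ∀ k ∈ s, ∫ ω, g k ω ∂P = v k := by
    intro k hk
    rw [hg]
    show ∫ ω, (V k).indicator (fun _ => (1 : ℝ)) ω ∂P = P.real (V k)
    rw [integral_indicator (hV k hk)]
    simp
  have hgg : ∀ k k' : ℕ, (fun ω => g k ω * g k' ω) = (V k ∩ V k').indicator (fun _ => (1 : ℝ)) := by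
    intro k k'
    funext ω
    simp only [hg, Set.indicator_apply, Set.mem_inter_iff]
    by_cases h1 : ω ∈ V k <;> by_cases h2 : ω ∈ V k' <;> simp [h1, h2]
  have hggi : ∀ k ∈ s, ∀ k' ∈ s, Integrable (fun ω => g k ω * g k' ω) P := by
    intro k hk k' hk'
    rw [hgg]
    exact (integrable_const (1 : ℝ)).indicator ((hV k hk).inter (hV k' hk'))
  have hggint : ∀ k ∈ s, ∀ k' ∈ s, ∫ ω, g k ω * g k' ω ∂P = P.real (V k ∩ V k') := by
    intro k hk k' hk'
    rw [hgg, integral_indicator ((hV k hk).inter (hV k' hk'))]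
    simp
  have hfi : Integrable f P := integrable_finsetSum _ fun k hk => (hgi k hk).const_mul _
  have hfint : ∫ ω, f ω ∂P = A := by
    rw [hf, integral_finsetSum _ fun k hk => (hgi k hk).const_mul _]
    refine Finset.sum_congr rfl fun k hk => ?_
    rw [integral_const_mul, hgint k hk, hwv k hk]
  have hf2 : (fun ω => f ω ^ 2) =
      fun ω => ∑ k ∈ s, ∑ k' ∈ s, (w k * w k') * (g k ω * g k' ω) := by
    funext ω
    rw [hf, sq, Finset.sum_mul_sum]
    refine Finset.sum_congr rfl fun k _ => Finset.sum_congr rfl fun k' _ => ?_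
    ring
  have hf2i : Integrable (fun ω => f ω ^ 2) P := by
    rw [hf2]
    exact integrable_finsetSum _ fun k hk => integrable_finsetSum _ fun k' hk' =>
      (hggi k hk k' hk').const_mul _
  have hf2int : ∫ ω, f ω ^ 2 ∂P ≤ A + (1 + δ) ^ 2 * A ^ 2 := by
    rw [hf2, integral_finsetSum _ fun k hk => integrable_finsetSum _ fun k' hk' =>
      (hggi k hk k' hk').const_mul _]
    have h1 : ∀ k ∈ s, ∫ ω, ∑ k' ∈ s, (w k * w k') * (g k ω * g k' ω) ∂P ≤
        a k + ∑ k' ∈ s, ((1 + δ) * a k) * ((1 + δ) * a k') := by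
      intro k hk
      rw [integral_finsetSum _ fun k' hk' => (hggi k hk k' hk').const_mul _]
      have h2 : ∀ k' ∈ s, ∫ ω, (w k * w k') * (g k ω * g k' ω) ∂P ≤
          (if k' = k then a k else 0) + ((1 + δ) * a k) * ((1 + δ) * a k') := by
        intro k' hk'
        rw [integral_const_mul, hggint k hk k' hk']
        have hb1 := (hab k hk)
        have hb2 := (hab k' hk')
        have hd1 : (0 : ℝ) ≤ 1 + δ := by linarith
        have hd2 : 0 ≤ ((1 + δ) * a k) * ((1 + δ) * a k') :=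
          mul_nonneg (mul_nonneg hd1 hb1.1.le) (mul_nonneg hd1 hb2.1.le)
        by_cases hkk : k' = k
        · rw [if_pos hkk, hkk, Set.inter_self]
          have h3 : w k * w k * P.real (V k) = w k * a k := by
            rw [mul_assoc]
            congr 1
            exact hwv k hk
          rw [h3]
          have h4 : w k * a k ≤ 1 * a k := mul_le_mul_of_nonneg_right (hw1 k hk) hb1.1.le
          rw [hkk] at hd2
          linarith
        · rw [if_neg hkk, zero_add]
          have h3 : P.real (V k ∩ V k') ≤ b k * b k' := by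
            have h4 := hPb k hk k' hk' (Ne.symm hkk)
            exact ENNReal.toReal_le_of_le_ofReal (mul_nonneg hb1.2.1 hb2.2.1) h4
          have h5 : b k * b k' ≤ ((1 + δ) * a k) * ((1 + δ) * a k') :=
            mul_le_mul hb1.2.2 hb2.2.2 hb2.2.1 (mul_nonneg hd1 hb1.1.le)
          have h6 : w k * w k' ≤ 1 := mul_le_one₀ (hw1 k hk) (hw0 k' hk') (hw1 k' hk')
          calc w k * w k' * P.real (V k ∩ V k') ≤ 1 * P.real (V k ∩ V k') :=
                mul_le_mul_of_nonneg_right h6 measureReal_nonneg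
            _ = P.real (V k ∩ V k') := one_mul _
            _ ≤ _ := h3.trans h5
      refine (Finset.sum_le_sum h2).trans ?_
      rw [Finset.sum_add_distrib, Finset.sum_ite_eq' s k, if_pos hk]
    refine (Finset.sum_le_sum h1).trans (le_of_eq ?_)
    rw [Finset.sum_add_distrib]
    congr 1
    rw [sq A, hA, Finset.sum_mul_sum, Finset.mul_sum]
    refine Finset.sum_congr rfl fun k _ => ?_
    rw [Finset.mul_sum]
    refine Finset.sum_congr rfl fun k' _ => ?_
    ring
  set Z : Set Ω := ⋂ k ∈ s, (V k)ᶜ with hZ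
  have hZm : MeasurableSet Z := Finset.measurableSet_biInter _ fun k hk => (hV k hk).compl
  have hZf : ∀ ω ∈ Z, f ω = 0 := by
    intro ω hω
    rw [hf]
    refine Finset.sum_eq_zero fun k hk => ?_
    have h1 : ω ∉ V k := by
      have := Set.mem_iInter₂.1 hω k hk
      exact this
    simp only [hg, Set.indicator_apply, if_neg h1, mul_zero]
  have hvar : A ^ 2 * P.real Z ≤ ∫ ω, (f ω - A) ^ 2 ∂P := by
    have h1 : ∫ ω, Z.indicator (fun _ => A ^ 2) ω ∂P = A ^ 2 * P.real Z := by
      rw [integral_indicator hZm]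
      simp [mul_comm]
    rw [← h1]
    refine integral_mono ((integrable_const _).indicator hZm) ?_ ?_
    · have h2 : (fun ω => (f ω - A) ^ 2) = fun ω => f ω ^ 2 - (2 * A) * f ω + A ^ 2 := by
        funext ω
        ring
      rw [h2]
      exact (hf2i.sub (hfi.const_mul _)).add (integrable_const _)
    · intro ω
      show Z.indicator (fun _ => A ^ 2) ω ≤ (f ω - A) ^ 2
      by_cases h : ω ∈ Z
      · rw [Set.indicator_of_mem h, hZf ω h]
        apply le_of_eq
        ring
      · rw [Set.indicator_of_notMem h]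
        exact sq_nonneg _
  have hvar2 : ∫ ω, (f ω - A) ^ 2 ∂P = ∫ ω, f ω ^ 2 ∂P - A ^ 2 := by
    have h2 : (fun ω => (f ω - A) ^ 2) = fun ω => (f ω ^ 2 - (2 * A) * f ω) + A ^ 2 := by
      funext ω
      ring
    have h3 : Integrable (fun ω => f ω ^ 2 - (2 * A) * f ω) P := hf2i.sub (hfi.const_mul _)
    have h4 : ∫ ω, (f ω ^ 2 - (2 * A) * f ω) + A ^ 2 ∂P =
        ∫ ω, (f ω ^ 2 - (2 * A) * f ω) ∂P + ∫ _, A ^ 2 ∂P := integral_add h3 (integrable_const _)
    have h5 : ∫ ω, (f ω ^ 2 - (2 * A) * f ω) ∂P = ∫ ω, f ω ^ 2 ∂P - ∫ ω, (2 * A) * f ω ∂P :=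
      integral_sub hf2i (hfi.const_mul _)
    rw [h2, h4, h5, integral_const_mul, hfint]
    simp
    ring
  have hfinal : P.real Z ≤ 1 / A + (2 * δ + δ ^ 2) := by
    have h1 : A ^ 2 * P.real Z ≤ A + (2 * δ + δ ^ 2) * A ^ 2 := by
      have : A + (1 + δ) ^ 2 * A ^ 2 - A ^ 2 = A + (2 * δ + δ ^ 2) * A ^ 2 := by ring
      linarith [hvar, hvar2, hf2int]
    have hA2 : 0 < A ^ 2 := by positivity
    have h2 : P.real Z ≤ (A + (2 * δ + δ ^ 2) * A ^ 2) / A ^ 2 := by
      rw [le_div_iff₀ hA2]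
      linarith
    refine h2.trans (le_of_eq ?_)
    field_simp
  rw [← ENNReal.ofReal_toReal (measure_ne_top P Z)]
  exact ENNReal.ofReal_le_ofReal hfinal

end Pool.Agent.H50.OI
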