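import Pool.Agent.H50.OI.Stm

/-! OI-DET: deterministic statements on the largest gap (helper63) -/

set_option autoImplicit false

namespace Pool.Agent.H50.OI

open Finset MeasureTheory Filter Topology Q198.CI

private lemma gap_le_of_mem (A : Set ℕ) (a g n : ℕ) (hn : n ∈ A) (han : a < n)
    (hg : ∀ m, a < m → m < a + g → m ∉ A) : a + g ≤ n := by
  by_contra h
  push Not at h
  exact hg n han h hn

theorem gnb : S_GNB := by
  intro A x h H
  have hh : 0 ≤ h := by
    obtain ⟨n, h1, h2, _⟩ := H 0 (Nat.zero_le _)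
    have : (0 : ℝ) < n := by exact_mod_cast h1
    simp at h2
    linarith
  have key : maxGap A x ≤ ⌊h⌋₊ := by
    apply csSup_le'
    rintro g ⟨hg0, a, haA, hax, hagA, hno⟩
    obtain ⟨n, h1, h2, h3⟩ := H a hax
    have := gap_le_of_mem A a g n h3 h1 hno
    apply Nat.le_floor
    have h4 : ((a + g : ℕ) : ℝ) ≤ n := by exact_mod_cast this
    push_cast at h4
    linarith
  calc (maxGap A x : ℝ) ≤ (⌊h⌋₊ : ℝ) := by exact_mod_cast key
    _ ≤ h := Nat.floor_le hh

theorem gup : S_GUP := by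
  intro A C hC H ε hε
  obtain ⟨x0, hx0⟩ := eventually_atTop.1 (H ε hε)
  obtain ⟨N, hN1, _, hN3⟩ := hx0 x0 le_rfl
  -- for large x, (C + ε) log² x ≥ N
  have ht : Tendsto (fun x : ℕ => (C + ε) * Real.log x ^ 2) atTop atTop := by
    apply Tendsto.const_mul_atTop (by linarith)
    exact (tendsto_pow_atTop two_ne_zero).comp
      (Real.tendsto_log_atTop.comp tendsto_natCast_atTop_atTop)
  filter_upwards [ht.eventually_ge_atTop (N : ℝ), eventually_ge_atTop 1] with x hx hx1
  have hh : 0 ≤ (C + ε) * Real.log x ^ 2 := by positivity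
  have key : maxGap A x ≤ ⌊(C + ε) * Real.log x ^ 2⌋₊ := by
    apply csSup_le'
    rintro g ⟨hg0, a, haA, hax, hagA, hno⟩
    apply Nat.le_floor
    by_cases hax0 : a < x0
    · have := gap_le_of_mem A a g N hN3 (lt_trans hax0 hN1) hno
      have h4 : (g : ℝ) ≤ N := by
        have : g ≤ N := by omega
        exact_mod_cast this
      linarith
    · push Not at hax0
      obtain ⟨n, h1, h2, h3⟩ := hx0 a hax0
      have := gap_le_of_mem A a g n h3 h1 hno
      have h4 : ((a + g : ℕ) : ℝ) ≤ n := by exact_mod_cast this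
      push_cast at h4
      have h5 : Real.log a ^ 2 ≤ Real.log x ^ 2 := by
        rcases Nat.eq_zero_or_pos a with h0 | h0
        · subst h0
          simp
          positivity
        · apply pow_le_pow_left₀ (Real.log_natCast_nonneg a)
          exact Real.log_le_log (by exact_mod_cast h0) (by exact_mod_cast hax)
      have h6 : (C + ε) * Real.log a ^ 2 ≤ (C + ε) * Real.log x ^ 2 := by
        apply mul_le_mul_of_nonneg_left h5 (by linarith)
      linarith
  calc (maxGap A x : ℝ) ≤ (⌊(C + ε) * Real.log x ^ 2⌋₊ : ℝ) := by exact_mod_cast key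
    _ ≤ _ := Nat.floor_le hh

theorem glo : S_GLO := by
  classical
  intro A c hc hA H c' hc'
  by_cases hc'0 : c' ≤ 0
  · filter_upwards with x
    have : c' * Real.log x ^ 2 ≤ 0 := mul_nonpos_of_nonpos_of_nonneg hc'0 (by positivity)
    have h2 : (0 : ℝ) ≤ (maxGap A x : ℝ) := Nat.cast_nonneg _
    linarith
  push Not at hc'0
  obtain ⟨a0, ha0⟩ := hA.nonempty
  obtain ⟨i0, hi0⟩ := eventually_atTop.1 H
  -- large i: c' (i+2)^2 ≤ c i^2
  have hlim : ∀ᶠ i : ℕ in atTop, c' * ((i : ℝ) + 2) ^ 2 ≤ c * (i : ℝ) ^ 2 := by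
    have h1 : Tendsto (fun i : ℕ => (1 + 2 / (i : ℝ)) ^ 2) atTop (𝓝 ((1 + 0) ^ 2)) := by
      apply Tendsto.pow
      apply Tendsto.add tendsto_const_nhds
      exact tendsto_const_div_atTop_nhds_zero_nat 2
    have h2 : (1 + (0 : ℝ)) ^ 2 < c / c' := by
      rw [lt_div_iff₀ hc'0]; simpa using hc'
    filter_upwards [h1.eventually (gt_mem_nhds h2), eventually_ge_atTop 1] with i hi hi1
    have hi' : (0 : ℝ) < i := by exact_mod_cast hi1
    have h3 : (1 + 2 / (i : ℝ)) ^ 2 * c' ≤ c := by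
      rw [← le_div_iff₀ hc'0]; exact hi.le
    have h4 : ((i : ℝ) + 2) ^ 2 = (1 + 2 / (i : ℝ)) ^ 2 * (i : ℝ) ^ 2 := by
      field_simp
    rw [h4]
    nlinarith [mul_le_mul_of_nonneg_right h3 (sq_nonneg (i : ℝ))]
  obtain ⟨i1, hi1⟩ := eventually_atTop.1 hlim
  -- choose x large
  filter_upwards [eventually_ge_atTop (2 ^ (max (max i0 i1) a0 + 2))] with x hx
  set M := max (max i0 i1) a0 with hM
  have hxpos : x ≠ 0 := by
    have : 0 < 2 ^ (M + 2) := by positivity
    omega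
  set k := Nat.log 2 x with hk
  have hk1 : 2 ^ k ≤ x := Nat.pow_log_le_self 2 hxpos
  have hk2 : x < 2 ^ (k + 1) := Nat.lt_pow_succ_log_self (by norm_num) x
  have hMk : M + 2 ≤ k := by
    by_contra hcon
    push Not at hcon
    have : 2 ^ (k + 1) ≤ 2 ^ (M + 2) := Nat.pow_le_pow_right (by norm_num) (by omega)
    omega
  -- i = k - 1
  obtain ⟨i, hi⟩ : ∃ i, k = i + 1 := ⟨k - 1, by omega⟩
  have hiM : M + 1 ≤ i := by omega
  obtain ⟨t, ht1, ht2, ht3⟩ := hi0 i (by have := le_max_left (max i0 i1) a0; have := le_max_left i0 i1; omega)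
  have hlim' := hi1 i (by have := le_max_left (max i0 i1) a0; have := le_max_right i0 i1; omega)
  have ha0t : a0 ≤ t := by
    have h1 : a0 ≤ M := le_max_right _ _
    have h2 : i < 2 ^ i := Nat.lt_two_pow_self
    omega
  have htx : t ≤ x := by
    have h1 : (t : ℝ) ≤ 2 ^ (i + 1) := by
      have : 0 ≤ c * ((i : ℝ) * Real.log 2) ^ 2 := by positivity
      linarith
    have h2 : t ≤ 2 ^ (i + 1) := by exact_mod_cast h1
    rw [hi] at hk1
    omega
  -- a : largest element of A that is ≤ t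
  have hexa : ∃ n, n ≤ t ∧ n ∈ A := ⟨a0, ha0t, ha0⟩
  set a := Nat.findGreatest (fun n => n ∈ A) t with ha
  have haA : a ∈ A := Nat.findGreatest_spec (P := fun n => n ∈ A) ha0t ha0
  have hat : a ≤ t := Nat.findGreatest_le t
  have hamax : ∀ n, a < n → n ≤ t → n ∉ A := fun n h1 h2 =>
    Nat.findGreatest_is_greatest h1 h2
  -- b : smallest element > t
  have hexb : ∃ n, t < n ∧ n ∈ A := by
    obtain ⟨n, hn, hn2⟩ := hA.exists_gt t
    exact ⟨n, hn2, hn⟩
  set b := Nat.find hexb with hb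
  have hb1 : t < b := (Nat.find_spec hexb).1
  have hb2 : b ∈ A := (Nat.find_spec hexb).2
  have hbmin : ∀ n, t < n → n < b → n ∉ A := fun n h1 h2 h3 =>
    Nat.find_min hexb h2 ⟨h1, h3⟩
  have hbig : (t : ℝ) + c * ((i : ℝ) * Real.log 2) ^ 2 < b := by
    by_contra hcon
    push Not at hcon
    exact ht3 b hb1 hcon hb2
  have hmem : b - a ∈ {g | 0 < g ∧ ∃ a ∈ A, a ≤ x ∧ a + g ∈ A ∧ ∀ n, a < n → n < a + g → n ∉ A} := by
    refine ⟨by omega, a, haA, by omega, ?_, ?_⟩
    · have : a + (b - a) = b := by omega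
      rw [this]; exact hb2
    · intro n h1 h2
      have h3 : n < b := by omega
      by_cases h4 : n ≤ t
      · exact hamax n h1 h4
      · exact hbmin n (by omega) h3
  have hbdd : BddAbove {g | 0 < g ∧ ∃ a ∈ A, a ≤ x ∧ a + g ∈ A ∧ ∀ n, a < n → n < a + g → n ∉ A} := by
    obtain ⟨N, hN, hN2⟩ := hA.exists_gt x
    refine ⟨N, ?_⟩
    rintro g ⟨_, a', _, ha'x, _, hno⟩
    have := gap_le_of_mem A a' g N hN (by omega) hno
    omega
  have hle : b - a ≤ maxGap A x := le_csSup hbdd hmem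
  have hle' : ((b : ℝ) - a) ≤ (maxGap A x : ℝ) := by
    have h1 : ((b - a : ℕ) : ℝ) ≤ (maxGap A x : ℝ) := by exact_mod_cast hle
    rw [Nat.cast_sub (by omega)] at h1
    exact h1
  have hat' : (a : ℝ) ≤ t := by exact_mod_cast hat
  -- log x ≤ (i+2) log 2
  have hlogx : Real.log x ≤ ((i : ℝ) + 2) * Real.log 2 := by
    have h1 : (x : ℝ) ≤ 2 ^ (i + 2) := by
      rw [hi] at hk2
      exact_mod_cast hk2.le
    have h2 : Real.log x ≤ Real.log ((2 : ℝ) ^ (i + 2)) :=
      Real.log_le_log (by exact_mod_cast Nat.pos_of_ne_zero hxpos) h1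
    rw [Real.log_pow] at h2
    push_cast at h2
    exact h2
  have hlog0 : 0 ≤ Real.log x := Real.log_natCast_nonneg x
  have h5 : Real.log x ^ 2 ≤ (((i : ℝ) + 2) * Real.log 2) ^ 2 := pow_le_pow_left₀ hlog0 hlogx 2
  have h6 : c' * Real.log x ^ 2 ≤ c * ((i : ℝ) * Real.log 2) ^ 2 := by
    calc c' * Real.log x ^ 2 ≤ c' * (((i : ℝ) + 2) * Real.log 2) ^ 2 :=
          mul_le_mul_of_nonneg_left h5 hc'0.le
      _ = (c' * ((i : ℝ) + 2) ^ 2) * Real.log 2 ^ 2 := by ring
      _ ≤ (c * (i : ℝ) ^ 2) * Real.log 2 ^ 2 := mul_le_mul_of_nonneg_right hlim' (by positivity)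
      _ = _ := by ring
  linarith

end Pool.Agent.H50.OI
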