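import Pool.Agent.H50.OI.Stm

/-! # Project OI: the expansion of the partition function (by helper37) -/

set_option autoImplicit false

namespace Pool.Agent.H50.OI

open Finset MeasureTheory Filter Topology Q198.CI

/-- the union of the windows -/
def UU (S : ℕ) (J : Finset ℕ) : Finset ℕ := J.biUnion (fun j => Ico j (j + S))

lemma UU_sub {S N : ℕ} {J : Finset ℕ} (hJ : J ⊆ range (N + 1 - S)) : UU S J ⊆ range N := by
  intro x hx
  unfold UU at hx
  rw [mem_biUnion] at hx
  obtain ⟨j, hj, hx⟩ := hx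
  have h1 := mem_range.1 (hJ hj)
  rw [mem_Ico] at hx
  rw [mem_range]
  omega

lemma prod_ite_sub (S : ℕ) (y : ℕ → ℝ) (b J : Finset ℕ) :
    ∏ j ∈ J, (if Ico j (j + S) ⊆ b then y j - 1 else 0) =
      if UU S J ⊆ b then ∏ j ∈ J, (y j - 1) else 0 := by
  unfold UU
  by_cases h : J.biUnion (fun j => Ico j (j + S)) ⊆ b
  · rw [if_pos h]
    rw [biUnion_subset] at h
    exact prod_congr rfl fun j hj => by rw [if_pos (h j hj)]
  · rw [if_neg h]
    rw [biUnion_subset] at h
    push Not at h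
    obtain ⟨j, hj, h⟩ := h
    exact prod_eq_zero hj (by rw [if_neg h])

theorem exj : S_EXJ := by
  intro S N ψ y hS
  unfold ff
  have h1 : ∀ b ∈ (range N).powerset,
      (∏ i ∈ b, ψ i) * (∏ i ∈ range N \ b, (1 - ψ i)) *
        ∏ j ∈ range (N + 1 - S), (if Ico j (j + S) ⊆ b then y j else 1) =
      ∑ J ∈ (range (N + 1 - S)).powerset, (if UU S J ⊆ b then
        ((∏ i ∈ b, ψ i) * ∏ i ∈ range N \ b, (1 - ψ i)) * ∏ j ∈ J, (y j - 1) else 0) := by
    intro b _
    have h2 : ∏ j ∈ range (N + 1 - S), (if Ico j (j + S) ⊆ b then y j else 1) =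
        ∏ j ∈ range (N + 1 - S), ((if Ico j (j + S) ⊆ b then y j - 1 else 0) + 1) := by
      refine prod_congr rfl fun j _ => ?_
      split_ifs <;> ring
    rw [h2, prod_add, mul_sum]
    refine sum_congr rfl fun J _ => ?_
    rw [prod_ite_sub, prod_const_one, mul_one]
    split_ifs with h
    · rfl
    · rw [mul_zero]
  rw [sum_congr rfl h1, sum_comm]
  refine sum_congr rfl fun J hJ => ?_
  have hJ' := UU_sub (mem_powerset.1 hJ)
  change _ = (∏ j ∈ J, (y j - 1)) * ∏ i ∈ UU S J, ψ i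
  rw [← sum_filter, ← prod_moment hJ' ψ, mul_sum]
  have h3 : (range N).powerset.filter (fun b => UU S J ⊆ b) = Icc (UU S J) (range N) := by
    ext b
    rw [mem_filter, mem_powerset, mem_Icc]
    exact and_comm
  rw [h3]
  refine sum_congr rfl fun b _ => ?_
  ring

/-- the coefficient of the set `J` of windows after averaging over the classes -/
noncomputable def AJ (S : ℕ) (τ : ℝ) (J : Finset ℕ) : ℝ :=
  ∑ D ∈ (range S).powerset, τ ^ D.card * (1 - τ) ^ (S - D.card) *
    ∏ j ∈ J, ((if j % S ∈ D then 1 / τ else 0) - 1)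

lemma AJ_empty (S : ℕ) (τ : ℝ) : AJ S τ ∅ = 1 := by
  unfold AJ
  simp only [prod_empty, mul_one]
  have h := Finset.sum_pow_mul_eq_add_pow τ (1 - τ) (range S)
  rw [card_range] at h
  rw [h]
  simp

lemma AJ_zero {S : ℕ} (hS : 1 ≤ S) {τ : ℝ} (h0 : 0 < τ) (h1 : τ < 1) {J : Finset ℕ} {j₀ : ℕ}
    (hj : j₀ ∈ J) (hu : ∀ j ∈ J, j % S = j₀ % S → j = j₀) : AJ S τ J = 0 := by
  unfold AJ
  set c := j₀ % S with hc
  have hcS : c < S := Nat.mod_lt _ hS
  have hcr : c ∈ range S := mem_range.2 hcS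
  have hins : range S = insert c ((range S).erase c) := (insert_erase hcr).symm
  have hnot : c ∉ (range S).erase c := notMem_erase c _
  rw [hins, sum_powerset_insert hnot, ← sum_add_distrib]
  refine sum_eq_zero fun D hD => ?_
  have hD' := mem_powerset.1 hD
  have hcD : c ∉ D := fun h => hnot (hD' h)
  have hcard : D.card + 1 ≤ S := by
    have h2 := card_le_card hD'
    rw [card_erase_of_mem hcr, card_range] at h2
    omega
  rw [card_insert_of_notMem hcD]
  rw [← mul_prod_erase J _ hj, ← mul_prod_erase J _ hj]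
  have hrest : ∏ j ∈ J.erase j₀, ((if j % S ∈ insert c D then 1 / τ else 0) - 1) =
      ∏ j ∈ J.erase j₀, ((if j % S ∈ D then 1 / τ else 0) - 1) := by
    refine prod_congr rfl fun j hj1 => ?_
    have hne : j % S ≠ c := fun h => (ne_of_mem_erase hj1) (hu j (mem_of_mem_erase hj1) h)
    have : (j % S ∈ insert c D) ↔ j % S ∈ D := by
      rw [mem_insert]
      exact ⟨fun h => h.resolve_left hne, Or.inr⟩
    simp only [this]
  rw [hrest, ← hc, if_neg hcD, if_pos (mem_insert_self c D)]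
  obtain ⟨k, hk⟩ := Nat.exists_eq_add_of_le hcard
  have e1 : S - D.card = k + 1 := by omega
  have e2 : S - (D.card + 1) = k := by omega
  rw [e1, e2]
  have h1' : (1 - τ) ≠ 0 := by linarith
  field_simp
  ring

lemma two_windows {S : ℕ} {J : Finset ℕ} {j j' : ℕ} (hj : j ∈ J) (hj' : j' ∈ J) (hne : j ≠ j')
    (hmod : j % S = j' % S) : 2 * S ≤ (UU S J).card := by
  have hdis : Disjoint (Ico j (j + S)) (Ico j' (j' + S)) := by
    rw [Finset.disjoint_left]
    intro x hx hx'
    rw [mem_Ico] at hx hx'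
    have h1 : (j : ℤ) ≡ j' [ZMOD S] := by
      have : j ≡ j' [MOD S] := hmod
      exact (Int.natCast_modEq_iff).2 this
    have h2 : (S : ℤ) ∣ (j' : ℤ) - j := h1.dvd
    obtain ⟨q, hq⟩ := h2
    have hq0 : q ≠ 0 := by
      rintro rfl
      apply hne
      omega
    rcases lt_or_gt_of_ne hq0 with h | h
    · have h3 : (S : ℤ) * q ≤ -S := by nlinarith
      omega
    · have h3 : (S : ℤ) ≤ S * q := by nlinarith
      omega
  have hsub : Ico j (j + S) ∪ Ico j' (j' + S) ⊆ UU S J := by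
    unfold UU
    exact union_subset (subset_biUnion_of_mem (fun j => Ico j (j + S)) hj)
      (subset_biUnion_of_mem (fun j => Ico j (j + S)) hj')
  have h1 := card_le_card hsub
  rw [card_union_of_disjoint hdis, Nat.card_Ico, Nat.card_Ico] at h1
  omega

theorem expn : S_EXP := by
  intro S N τ hS h0 h1
  set R := (range (N + 1 - S)).powerset with hR
  refine ⟨fun U => ∑ J ∈ (R.erase ∅) with UU S J = U, AJ S τ J, ?_, ?_⟩
  · intro U hU
    obtain ⟨J, hJ, hA⟩ := exists_ne_zero_of_sum_ne_zero hU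
    rw [mem_filter, mem_erase] at hJ
    obtain ⟨⟨hne, -⟩, rfl⟩ := hJ
    obtain ⟨j₀, hj₀⟩ := nonempty_iff_ne_empty.2 hne
    by_contra hcon
    apply hA
    refine AJ_zero hS h0 h1 hj₀ fun j hj hm => ?_
    by_contra hne'
    exact hcon (two_windows hj hj₀ hne' hm)
  · intro ψ
    have e1 : ∀ D ∈ (range S).powerset, τ ^ D.card * (1 - τ) ^ (S - D.card) *
        ff S N ψ (fun j => if j % S ∈ D then 1 / τ else 0) =
        ∑ J ∈ R, (τ ^ D.card * (1 - τ) ^ (S - D.card) *
          ∏ j ∈ J, ((if j % S ∈ D then 1 / τ else 0) - 1)) * ∏ i ∈ UU S J, ψ i := by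
      intro D _
      rw [exj S N ψ _ hS, mul_sum]
      refine sum_congr rfl fun J _ => ?_
      unfold UU
      ring
    rw [sum_congr rfl e1, sum_comm]
    have e2 : ∀ J ∈ R, ∑ D ∈ (range S).powerset, (τ ^ D.card * (1 - τ) ^ (S - D.card) *
          ∏ j ∈ J, ((if j % S ∈ D then 1 / τ else 0) - 1)) * ∏ i ∈ UU S J, ψ i =
        AJ S τ J * ∏ i ∈ UU S J, ψ i := by
      intro J _
      rw [← sum_mul]
      rfl
    rw [sum_congr rfl e2]
    have hmem : (∅ : Finset ℕ) ∈ R := by
      rw [hR, mem_powerset]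
      exact empty_subset _
    rw [← add_sum_erase R _ hmem, AJ_empty]
    have e3 : UU S ∅ = ∅ := by simp [UU]
    rw [e3, prod_empty, mul_one]
    congr 1
    have hmaps : ∀ J ∈ R.erase ∅, UU S J ∈ (range N).powerset := by
      intro J hJ
      rw [mem_powerset]
      exact UU_sub (mem_powerset.1 (mem_of_mem_erase hJ))
    rw [← sum_fiberwise_of_maps_to hmaps]
    refine sum_congr rfl fun U _ => ?_
    rw [sum_mul]
    refine sum_congr rfl fun J hJ => ?_
    rw [(mem_filter.1 hJ).2]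

end Pool.Agent.H50.OI
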