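import Pool.Agent.H50.OI.Stm

/-! # Assembly -/

set_option autoImplicit false

namespace Pool.Agent.H50.OI

open Finset MeasureTheory Filter Topology

namespace FIN

lemma tendsto_log_nat : Tendsto (fun n : ℕ => Real.log (n : ℝ)) atTop atTop :=
  Real.tendsto_log_atTop.comp tendsto_natCast_atTop_atTop

lemma four_le {κ : ℕ → ℕ} {ρ : ℝ} (hρ : 0 < ρ) (h : AtLeast κ ρ) : ∀ᶠ n : ℕ in atTop, 4 ≤ κ n := by
  have h1 := h (ρ / 2) (by linarith)
  have h2 : ∀ᶠ n : ℕ in atTop, 4 ≤ ρ / 2 * Real.log n :=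
    (tendsto_log_nat.const_mul_atTop (by linarith : 0 < ρ / 2)).eventually_ge_atTop 4
  filter_upwards [h1, h2] with n h3 h4
  have : (4 : ℝ) ≤ κ n := by linarith
  exact_mod_cast this

lemma infinite_of {A : Set ℕ} (h : ∀ᶠ i : ℕ in atTop, ∃ n : ℕ, n ∈ A ∧ n ≤ 2 ^ i ∧
    (2 : ℝ) ^ i < n + 1 * ((i : ℝ) * Real.log 2) ^ 2) : A.Infinite := by
  have h5 : Tendsto (fun i : ℕ => ((i : ℝ)) ^ 2 / (2:ℝ) ^ i) atTop (𝓝 0) :=
    tendsto_pow_const_div_const_pow_of_one_lt 2 (by norm_num)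
  have h6 : ∀ᶠ i : ℕ in atTop, 1 * ((i : ℝ) * Real.log 2) ^ 2 ≤ (2:ℝ) ^ i / 2 := by
    have h7 := h5.const_mul (2 * Real.log 2 ^ 2)
    rw [mul_zero] at h7
    filter_upwards [h7.eventually_le_const zero_lt_one] with i h8
    have h9 : (0:ℝ) < 2 ^ i := by positivity
    have h10 := mul_le_mul_of_nonneg_right h8 h9.le
    rw [one_mul] at h10
    have e : 2 * Real.log 2 ^ 2 * ((i : ℝ) ^ 2 / 2 ^ i) * 2 ^ i = 2 * ((i : ℝ) * Real.log 2) ^ 2 := by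
      field_simp
    rw [e] at h10
    linarith
  intro hfin
  obtain ⟨M, hM⟩ := hfin.bddAbove
  have h7 : ∀ᶠ i : ℕ in atTop, M + 1 ≤ i := eventually_ge_atTop _
  obtain ⟨i, ⟨n, hn1, hn2, hn3⟩, h8, h9⟩ := (h.and (h6.and h7)).exists
  have h10 : n ≤ M := hM hn1
  have h11 : i < 2 ^ i := Nat.lt_two_pow_self
  have h12 : (2:ℝ) ^ i / 2 < n := by linarith
  have h13 : (i : ℝ) < 2 ^ i := by exact_mod_cast h11
  have h14 : (n : ℝ) ≤ M := by exact_mod_cast h10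
  have h15 : (M : ℝ) + 1 ≤ i := by exact_mod_cast h9
  -- need a larger index
  obtain ⟨j, ⟨n', hn1', hn2', hn3'⟩, h8', h9'⟩ :=
    (h.and (h6.and (eventually_ge_atTop (2 * M + 2)))).exists
  have h10' : n' ≤ M := hM hn1'
  have h11' : j < 2 ^ j := Nat.lt_two_pow_self
  have h13' : (j : ℝ) < 2 ^ j := by exact_mod_cast h11'
  have h14' : (n' : ℝ) ≤ M := by exact_mod_cast h10'
  have h15' : 2 * (M : ℝ) + 2 ≤ j := by exact_mod_cast h9'
  linarith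

theorem every (hlow : S_LOW) (hbnd : S_BND) (hglo : S_GLO) {Ω : Type} [MeasurableSpace Ω]
    (P : Measure Ω) [IsProbabilityMeasure P] {κ : ℕ → ℕ} {E : ℕ → Set Ω} {ρ : ℝ} (hρ : 0 < ρ)
    (hM : CM P κ E) (hκ : AtLeast κ ρ) : ∀ᵐ ω ∂P, {n | ω ∈ E n}.Infinite ∧
      ∀ c : ℝ, c < min 1 (ρ / 4) → ∀ᶠ x : ℕ in atTop,
        c * Real.log x ^ 2 ≤ maxGap {n | ω ∈ E n} x := by
  set M := min 1 (ρ / 4) with hMdef
  have hM0 : 0 < M := lt_min one_pos (by linarith)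
  have h1 := hbnd Ω P κ E hM (four_le hρ hκ)
  have h2 : ∀ᵐ ω ∂P, ∀ j : ℕ, ∀ᶠ i : ℕ in atTop, ∃ t : ℕ, 2 ^ i ≤ t ∧
      (t : ℝ) + (M * (1 - 1 / ((j : ℝ) + 2))) * ((i : ℝ) * Real.log 2) ^ 2 ≤ 2 ^ (i + 1) ∧
      ∀ n : ℕ, t < n → (n : ℝ) ≤ t + (M * (1 - 1 / ((j : ℝ) + 2))) * ((i : ℝ) * Real.log 2) ^ 2 →
        ω ∉ E n := by
    rw [ae_all_iff]
    intro j
    have hj : 0 < 1 - 1 / ((j : ℝ) + 2) := by
      rw [sub_pos, div_lt_one (by positivity)]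
      have : (0:ℝ) ≤ j := Nat.cast_nonneg _
      linarith
    have hj1 : 1 - 1 / ((j : ℝ) + 2) < 1 := by
      have : (0:ℝ) < 1 / ((j : ℝ) + 2) := by positivity
      linarith
    have hlt : M * (1 - 1 / ((j : ℝ) + 2)) < M := by nlinarith
    exact hlow Ω P κ E ρ (M * (1 - 1 / ((j : ℝ) + 2))) hρ hM hκ (by positivity)
      (hlt.trans_le (min_le_left _ _)) (hlt.trans_le (min_le_right _ _))
  filter_upwards [h1, h2] with ω h3 h4
  have hinf : {n | ω ∈ E n}.Infinite := infinite_of (h3 1 one_pos)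
  refine ⟨hinf, fun c hc => ?_⟩
  obtain ⟨j, hj⟩ := exists_nat_one_div_lt (show (0:ℝ) < (M - c) / M by
    have : 0 < M - c := by linarith
    positivity)
  have hj2 : 1 / ((j : ℝ) + 2) < (M - c) / M := by
    refine lt_of_le_of_lt ?_ hj
    apply one_div_le_one_div_of_le (by positivity)
    linarith
  have hj0 : 0 < 1 - 1 / ((j : ℝ) + 2) := by
    rw [sub_pos, div_lt_one (by positivity)]
    have : (0:ℝ) ≤ j := Nat.cast_nonneg _
    linarith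
  refine hglo {n | ω ∈ E n} (M * (1 - 1 / ((j : ℝ) + 2))) (by positivity) hinf ?_ c ?_
  · exact h4 j
  · rw [lt_div_iff₀ hM0] at hj2
    linarith

lemma tendsto_of {A : Set ℕ} {C : ℝ}
    (h1 : ∀ c : ℝ, c < C → ∀ᶠ x : ℕ in atTop, c * Real.log x ^ 2 ≤ maxGap A x)
    (h2 : ∀ ε : ℝ, 0 < ε → ∀ᶠ x : ℕ in atTop, (maxGap A x : ℝ) ≤ (C + ε) * Real.log x ^ 2) :
    Tendsto (fun x : ℕ => (maxGap A x : ℝ) / Real.log x ^ 2) atTop (𝓝 C) := by
  have hlog : ∀ᶠ x : ℕ in atTop, 0 < Real.log (x : ℝ) ^ 2 := by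
    filter_upwards [tendsto_log_nat.eventually_gt_atTop 0] with x hx
    positivity
  rw [tendsto_order]
  constructor
  · intro a ha
    filter_upwards [h1 ((a + C) / 2) (by linarith), hlog] with x hx hl
    rw [lt_div_iff₀ hl]
    refine lt_of_lt_of_le ?_ hx
    apply mul_lt_mul_of_pos_right _ hl
    linarith
  · intro a ha
    filter_upwards [h2 ((a - C) / 2) (by linarith), hlog] with x hx hl
    rw [div_lt_iff₀ hl]
    refine lt_of_le_of_lt hx ?_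
    apply mul_lt_mul_of_pos_right _ hl
    linarith

theorem full (hlow : S_LOW) (hbnd : S_BND) (hglo : S_GLO) (hgup : S_GUP) (hupp : S_UPP)
    {Ω : Type} [MeasurableSpace Ω] (P : Measure Ω) [IsProbabilityMeasure P] {κ : ℕ → ℕ}
    {E : ℕ → Set Ω} (hM : CM P κ E) (hκ : AtLeast κ 4) : ∀ᵐ ω ∂P,
      Tendsto (fun x : ℕ => (maxGap {n | ω ∈ E n} x : ℝ) / Real.log x ^ 2) atTop (𝓝 1) := by
  have h1 := every hlow hbnd hglo P (by norm_num) hM hκ
  have h2 := hupp Ω P κ E hM (fun c hc => hκ c (by linarith))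
  filter_upwards [h1, h2] with ω h3 h4
  refine tendsto_of ?_ ?_
  · intro c hc
    exact h3.2 c (by rw [show (4:ℝ) / 4 = 1 by norm_num, min_self]; exact hc)
  · intro ε hε
    exact hgup {n | ω ∈ E n} 1 zero_le_one h4 ε hε

theorem small (hlow : S_LOW) (hbnd : S_BND) (hglo : S_GLO) (hgup : S_GUP) (hnga : S_NGA)
    {κ : ℕ → ℕ} {ρ : ℝ} (hρ : 0 ≤ ρ) (hρ4 : ρ ≤ 4) (hκ : AtMost κ ρ) :
    ∃ (Ω : Type) (_ : MeasurableSpace Ω) (P : Measure Ω) (_ : IsProbabilityMeasure P)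
      (E : ℕ → Set Ω), CM P κ E ∧ ∀ᵐ ω ∂P, {n | ω ∈ E n}.Infinite ∧
        Tendsto (fun x : ℕ => (maxGap {n | ω ∈ E n} x : ℝ) / Real.log x ^ 2) atTop
          (𝓝 (ρ / 4)) := by
  obtain ⟨κ', hle, hat, h4, Ω, mΩ, P, hP, E, hM, hae⟩ := hnga ρ κ hρ hκ
  have hb := hbnd Ω P κ' E hM (Eventually.of_forall h4)
  have hev : ∀ᵐ ω ∂P, ∀ c : ℝ, c < ρ / 4 → ∀ᶠ x : ℕ in atTop,
      c * Real.log x ^ 2 ≤ maxGap {n | ω ∈ E n} x := by
    rcases hρ.eq_or_lt with h0 | h0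
    · refine Eventually.of_forall fun ω c hc => ?_
      refine Eventually.of_forall fun x => ?_
      have h5 : (0:ℝ) ≤ maxGap {n | ω ∈ E n} x := Nat.cast_nonneg _
      have h6 : c * Real.log x ^ 2 ≤ 0 :=
        mul_nonpos_of_nonpos_of_nonneg (by rw [← h0] at hc; linarith) (sq_nonneg _)
      linarith
    · filter_upwards [every hlow hbnd hglo P h0 hM hat] with ω h5 c hc
      exact h5.2 c (lt_min (by linarith) hc)
  refine ⟨Ω, mΩ, P, hP, E, ⟨hM.1, fun T hT => hM.2 T fun n hn =>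
    ⟨(hT n hn).1, (hT n hn).2.trans (hle n)⟩⟩, ?_⟩
  filter_upwards [hae, hb, hev] with ω h5 h6 h7
  refine ⟨infinite_of (h6 1 one_pos), tendsto_of h7 ?_⟩
  intro ε hε
  exact hgup {n | ω ∈ E n} (ρ / 4) (by linarith) h5 ε hε

theorem converse (hnb : S_NGB) (hgnb : S_GNB) {κ : ℕ → ℕ} (hmono : Monotone κ)
    (h : ∀ (Ω : Type) [MeasurableSpace Ω] (P : Measure Ω) [IsProbabilityMeasure P]
      (E : ℕ → Set Ω), CM P κ E → ∀ᵐ ω ∂P,
        Tendsto (fun x : ℕ => (maxGap {n | ω ∈ E n} x : ℝ) / Real.log x ^ 2) atTop (𝓝 1)) :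
    AtLeast κ 4 := by
  intro c hc
  by_contra hcon
  rw [not_eventually] at hcon
  have hfr : ∃ᶠ n : ℕ in atTop, (κ n : ℝ) < max c 1 * Real.log n := by
    refine (hcon.and_eventually (eventually_ge_atTop 1)).mono ?_
    rintro n ⟨h1, h2⟩
    push Not at h1
    refine h1.trans_le ?_
    apply mul_le_mul_of_nonneg_right (le_max_left _ _)
    exact Real.log_nonneg (by exact_mod_cast h2)
  obtain ⟨Ω, mΩ, P, hP, E, hM, hae⟩ := hnb κ (max c 1) hmono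
    (lt_of_lt_of_le one_pos (le_max_right _ _)) (max_lt hc (by norm_num)) hfr
  obtain ⟨ω, ⟨σ, hσ, h1⟩, h2⟩ := (hae.and (h Ω P E hM)).exists
  have h3 := h2.eventually_const_lt hσ
  obtain ⟨x, h4, h5, h6⟩ := (h1.and_eventually (h3.and (eventually_ge_atTop 2))).exists
  have h7 := hgnb {n | ω ∈ E n} x (σ * Real.log x ^ 2) h4
  have h8 : 0 < Real.log (x : ℝ) ^ 2 := by
    have : 0 < Real.log (x : ℝ) := Real.log_pos (by exact_mod_cast h6)
    positivity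
  rw [lt_div_iff₀ h8] at h5
  linarith

end FIN

end Pool.Agent.H50.OI
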