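import Pool.Agent.H50.OI.Stm

/-! # OI-LES: the estimates for an interval of length about `c log² X` -/

set_option autoImplicit false

namespace Pool.Agent.H50.OI

open Finset MeasureTheory Filter Topology Q198.CI

namespace LES

theorem one_sub_ge {p : ℝ} (h0 : 0 ≤ p) (h1 : p ≤ 1 / 2) :
    Real.exp (-p - p ^ 2) ≤ 1 - p := by
  have h2 := Real.quadratic_le_exp_of_nonneg (show 0 ≤ p + p ^ 2 by positivity)
  have h3 : -p - p ^ 2 = -(p + p ^ 2) := by ring
  rw [h3, Real.exp_neg, inv_le_comm₀ (Real.exp_pos _) (by linarith)]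
  refine le_trans ?_ h2
  rw [inv_le_iff_one_le_mul₀ (by linarith)]
  nlinarith [mul_nonneg h0 h0, mul_nonneg (mul_nonneg h0 h0) h0, mul_nonneg h0 (sub_nonneg.2 h1),
    mul_nonneg (mul_nonneg h0 h0) (sub_nonneg.2 h1),
    mul_nonneg (mul_nonneg (mul_nonneg h0 h0) h0) (sub_nonneg.2 h1)]

/-- lower bound for the product -/
theorem prod_lower (W : Finset ℕ) (p : ℕ → ℝ) (u : ℝ) (h0 : ∀ n ∈ W, 0 ≤ p n)
    (hu : ∀ n ∈ W, p n ≤ u) (hu2 : u ≤ 1 / 2) :
    Real.exp (-(∑ n ∈ W, p n) - W.card * u ^ 2) ≤ ∏ n ∈ W, (1 - p n) := by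
  have e : -(∑ n ∈ W, p n) - W.card * u ^ 2 = ∑ n ∈ W, (-p n - u ^ 2) := by
    rw [Finset.sum_sub_distrib, Finset.sum_neg_distrib, Finset.sum_const, nsmul_eq_mul]
  rw [e, Real.exp_sum]
  refine Finset.prod_le_prod (fun n _ => (Real.exp_pos _).le) fun n hn => ?_
  refine le_trans (Real.exp_le_exp.2 ?_) (one_sub_ge (h0 n hn) ((hu n hn).trans hu2))
  have := pow_le_pow_left₀ (h0 n hn) (hu n hn) 2
  linarith

theorem pow_fact_le {x θ : ℝ} (hx : 0 ≤ x) (hθ : 0 < θ) (N : ℕ) :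
    x ^ N / (N.factorial : ℝ) ≤ Real.exp (θ * x) / θ ^ N := by
  have h := Real.pow_div_factorial_le_exp (θ * x) (by positivity) N
  rw [le_div_iff₀ (by positivity)]
  refine le_trans (le_of_eq ?_) h
  rw [mul_pow]
  ring

/-- Chernoff bound for the tail -/
theorem tail_le (W : Finset ℕ) (p : ℕ → ℝ) (s : ℕ) (θ : ℝ) (h0 : ∀ n ∈ W, 0 ≤ p n)
    (h1 : ∀ n ∈ W, p n < 1) (hθ : 1 ≤ θ) :
    1 - (∏ n ∈ W, (1 - p n)) * KI p s W ≤ Real.exp ((θ - 1) * ∑ n ∈ W, p n) / θ ^ s := by
  have e1 : (∏ n ∈ W, (1 - p n)) * KI p s W =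
      ∑ T ∈ W.powerset with T.card ≤ s, (∏ n ∈ T, p n) * ∏ n ∈ W \ T, (1 - p n) := by
    unfold KI
    rw [Finset.mul_sum]
    refine Finset.sum_congr rfl fun T hT => ?_
    have hTW : T ⊆ W := Finset.mem_powerset.1 (Finset.mem_filter.1 hT).1
    rw [← Finset.prod_sdiff hTW, Finset.prod_div_distrib]
    have : ∏ n ∈ T, (1 - p n) ≠ 0 :=
      Finset.prod_ne_zero_iff.2 fun n hn => by have := h1 n (hTW hn); linarith
    field_simp
  have e2 : (1 : ℝ) = ∑ T ∈ W.powerset, (∏ n ∈ T, p n) * ∏ n ∈ W \ T, (1 - p n) := by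
    rw [← Finset.prod_add]
    simp
  have e3 := Finset.sum_filter_add_sum_filter_not W.powerset (fun T => T.card ≤ s)
    (fun T => (∏ n ∈ T, p n) * ∏ n ∈ W \ T, (1 - p n))
  have e4 : 1 - (∏ n ∈ W, (1 - p n)) * KI p s W =
      ∑ T ∈ W.powerset with ¬ T.card ≤ s, (∏ n ∈ T, p n) * ∏ n ∈ W \ T, (1 - p n) := by
    rw [e1]
    linarith
  rw [e4, le_div_iff₀ (by positivity), Finset.sum_mul]
  have hnn : ∀ T ∈ W.powerset, 0 ≤ (∏ n ∈ T, p n) * ∏ n ∈ W \ T, (1 - p n) := fun T hT => by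
    have hTW := Finset.mem_powerset.1 hT
    refine mul_nonneg (Finset.prod_nonneg fun n hn => h0 n (hTW hn))
      (Finset.prod_nonneg fun n hn => ?_)
    have := h1 n (Finset.mem_sdiff.1 hn).1
    linarith
  have s1 : ∑ T ∈ W.powerset with ¬ T.card ≤ s,
      (∏ n ∈ T, p n) * (∏ n ∈ W \ T, (1 - p n)) * θ ^ s ≤
      ∑ T ∈ W.powerset, (∏ n ∈ T, (θ * p n)) * ∏ n ∈ W \ T, (1 - p n) := by
    have s2 : ∑ T ∈ W.powerset with ¬ T.card ≤ s,
        (∏ n ∈ T, p n) * (∏ n ∈ W \ T, (1 - p n)) * θ ^ s ≤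
        ∑ T ∈ W.powerset with ¬ T.card ≤ s,
          (∏ n ∈ T, (θ * p n)) * ∏ n ∈ W \ T, (1 - p n) := by
      refine Finset.sum_le_sum fun T hT => ?_
      obtain ⟨hT1, hT2⟩ := Finset.mem_filter.1 hT
      rw [Finset.prod_mul_distrib, Finset.prod_const]
      have a1 := hnn T hT1
      have a2 : θ ^ s ≤ θ ^ T.card := pow_le_pow_right₀ hθ (by omega)
      calc _ ≤ (∏ n ∈ T, p n) * (∏ n ∈ W \ T, (1 - p n)) * θ ^ T.card :=
            mul_le_mul_of_nonneg_left a2 a1
        _ = _ := by ring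
    refine s2.trans (Finset.sum_le_sum_of_subset_of_nonneg (Finset.filter_subset _ _) ?_)
    intro T hT _
    have hTW := Finset.mem_powerset.1 hT
    refine mul_nonneg (Finset.prod_nonneg fun n hn => ?_)
      (Finset.prod_nonneg fun n hn => ?_)
    · have := h0 n (hTW hn)
      positivity
    · have := h1 n (Finset.mem_sdiff.1 hn).1
      linarith
  refine s1.trans ?_
  rw [← Finset.prod_add, Finset.mul_sum, Real.exp_sum]
  refine Finset.prod_le_prod (fun n hn => ?_) fun n hn => ?_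
  · have a1 := h0 n hn
    have a2 := h1 n hn
    have : 0 ≤ θ * p n := by positivity
    linarith
  · have := Real.add_one_le_exp ((θ - 1) * p n)
    linarith

theorem exp_div_pow {θ A : ℝ} (hθ : 0 < θ) (N : ℕ) :
    Real.exp A / θ ^ N = Real.exp (A - N * Real.log θ) := by
  rw [Real.exp_sub, ← Real.log_pow, Real.exp_log (by positivity)]

end LES

open LES

theorem les : S_LES := by
  intro c c' hc hcc hc1
  have hc' : 0 < c' := hc.trans hcc
  -- the constants
  set k1 : ℝ := 4 * c' * (Real.log (4 * c' / c) - 1) - c with hk1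
  set k2 : ℝ := c' * Real.log (c' / c) - (c' - c) with hk2
  have hl4 : (1.386 : ℝ) ≤ Real.log 4 := by
    have : Real.log 4 = 2 * Real.log 2 := by
      rw [show (4 : ℝ) = 2 ^ 2 by norm_num, Real.log_pow]; norm_num
    rw [this]
    have := Real.log_two_gt_d9
    linarith
  have hlc : 0 < Real.log (c' / c) := Real.log_pos (by rw [lt_div_iff₀ hc]; linarith)
  have hl4c : Real.log (4 * c' / c) = Real.log 4 + Real.log (c' / c) := by
    rw [mul_div_assoc, Real.log_mul (by norm_num) (by positivity)]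
  have hk1p : 0 < k1 := by
    rw [hk1, hl4c]
    nlinarith
  have hk2p : 0 < k2 := by
    have h1 : Real.log (c / c') < c / c' - 1 :=
      Real.log_lt_sub_one_of_pos (by positivity) (by rw [Ne, div_eq_one_iff_eq hc'.ne']; linarith)
    have h2 : Real.log (c / c') = -Real.log (c' / c) := by
      rw [← Real.log_inv, inv_div]
    rw [h2] at h1
    have h3 : c' * (c / c') = c := by field_simp
    rw [hk2]
    nlinarith
  set C1 : ℝ := 4 * Real.log (4 * c' / c) + c with hC1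
  set C2 : ℝ := Real.log (c' / c) with hC2
  set η : ℝ := min ((1 - c) / 2) (min (k1 / 2) (k2 / 2)) with hη
  have hη0 : 0 < η := by
    refine lt_min (by linarith) (lt_min (by linarith) (by linarith))
  have hη1 : η ≤ (1 - c) / 2 := min_le_left _ _
  have hη2 : η ≤ k1 / 2 := (min_le_right _ _).trans (min_le_left _ _)
  have hη3 : η ≤ k2 / 2 := (min_le_right _ _).trans (min_le_right _ _)
  refine ⟨η, hη0, ?_⟩
  have hL : Tendsto (fun i : ℕ => (i : ℝ) * Real.log 2) atTop atTop :=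
    tendsto_natCast_atTop_atTop.atTop_mul_const (Real.log_pos (by norm_num))
  filter_upwards [eventually_ge_atTop 2, hL.eventually_ge_atTop 2,
    hL.eventually_ge_atTop ((c + 1) / ((1 - c) / 2)),
    hL.eventually_ge_atTop ((C1 + 2) / (k1 / 2)),
    hL.eventually_ge_atTop ((C2 + 2) / (k2 / 2))] with i hi h2 h3 h4 h5 W hW hW2
  set L : ℝ := (i : ℝ) * Real.log 2 with hLdef
  rw [div_le_iff₀ (by linarith)] at h3 h4 h5
  have hLpos : 0 < L := by linarith
  -- p n ≤ 1 / L
  have hp0 : ∀ n ∈ W, 0 ≤ cp n := fun n _ => cp_nonneg n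
  have hpL : ∀ n ∈ W, cp n ≤ 1 / L := by
    intro n hn
    have h6 := (hW2 n hn).1
    have h7 : (4 : ℕ) ≤ 2 ^ i := by
      calc 4 = 2 ^ 2 := by norm_num
        _ ≤ 2 ^ i := Nat.pow_le_pow_right (by norm_num) hi
    unfold cp
    rw [if_pos (by omega)]
    refine one_div_le_one_div_of_le hLpos ?_
    rw [hLdef, ← Real.log_pow]
    refine Real.log_le_log (by positivity) ?_
    exact_mod_cast h6.le
  have hLh : 1 / L ≤ 1 / 2 := one_div_le_one_div_of_le (by norm_num) h2
  have hp1 : ∀ n ∈ W, cp n < 1 := fun n hn => by have := hpL n hn; linarith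
  set μ : ℝ := ∑ n ∈ W, cp n with hμ
  have hμ0 : 0 ≤ μ := Finset.sum_nonneg hp0
  have hμ1 : μ ≤ c * L := by
    calc μ ≤ ∑ n ∈ W, 1 / L := Finset.sum_le_sum hpL
      _ = W.card * (1 / L) := by rw [Finset.sum_const, nsmul_eq_mul]
      _ ≤ (c * L ^ 2) * (1 / L) := mul_le_mul_of_nonneg_right hW (by positivity)
      _ = c * L := by field_simp
  set Pi : ℝ := ∏ n ∈ W, (1 - cp n) with hPi
  have hPi1 : Real.exp (-(c * L) - c) ≤ Pi := by
    refine le_trans (Real.exp_le_exp.2 ?_) (prod_lower W cp (1 / L) hp0 hpL hLh)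
    have : (W.card : ℝ) * (1 / L) ^ 2 ≤ c := by
      calc (W.card : ℝ) * (1 / L) ^ 2 ≤ (c * L ^ 2) * (1 / L) ^ 2 :=
            mul_le_mul_of_nonneg_right hW (by positivity)
        _ = c := by field_simp
    rw [← hμ]
    linarith
  have hPi0 : 0 < Pi := lt_of_lt_of_le (Real.exp_pos _) hPi1
  set s : ℕ := ⌊c' * L⌋₊ with hs
  have hs1 : c' * L - 1 ≤ s := by
    have := Nat.lt_floor_add_one (c' * L)
    rw [← hs] at this
    linarith
  -- (a)
  have ha : μ ^ (4 * s) / ((4 * s).factorial : ℝ) ≤ Pi * Real.exp (-(k1 * L) + C1) := by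
    have hθ : 0 < 4 * c' / c := by positivity
    refine (pow_fact_le hμ0 hθ (4 * s)).trans ?_
    rw [exp_div_pow hθ]
    have h9 : 4 * c' / c * μ - ((4 * s : ℕ) : ℝ) * Real.log (4 * c' / c) ≤
        (-(c * L) - c) + (-(k1 * L) + C1) := by
      have h6 : 4 * c' / c * μ ≤ 4 * c' * L := by
        calc 4 * c' / c * μ ≤ 4 * c' / c * (c * L) := mul_le_mul_of_nonneg_left hμ1 hθ.le
          _ = 4 * c' * L := by field_simp
      have h7 : 0 ≤ Real.log (4 * c' / c) := by rw [hl4c]; linarith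
      have h8 : (c' * L - 1) * Real.log (4 * c' / c) ≤ s * Real.log (4 * c' / c) :=
        mul_le_mul_of_nonneg_right hs1 h7
      push_cast
      rw [hC1, hk1]
      nlinarith
    refine (Real.exp_le_exp.2 h9).trans ?_
    rw [Real.exp_add]
    exact mul_le_mul_of_nonneg_right hPi1 (Real.exp_pos _).le
  -- (b)
  have hb : 1 - Pi * KI cp s W ≤ Real.exp (-(k2 * L) + C2) := by
    have hθ : 1 ≤ c' / c := by rw [le_div_iff₀ hc]; linarith
    refine (tail_le W cp s (c' / c) hp0 hp1 hθ).trans ?_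
    rw [exp_div_pow (by positivity)]
    refine Real.exp_le_exp.2 ?_
    have h6 : (c' / c - 1) * μ ≤ (c' - c) * L := by
      calc (c' / c - 1) * μ ≤ (c' / c - 1) * (c * L) :=
            mul_le_mul_of_nonneg_left hμ1 (by linarith)
        _ = (c' - c) * L := by field_simp
    have h8 : (c' * L - 1) * Real.log (c' / c) ≤ s * Real.log (c' / c) :=
      mul_le_mul_of_nonneg_right hs1 hlc.le
    rw [hC2, hk2]
    rw [← hμ]
    nlinarith
  -- both errors are at most exp (-η L) / 4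
  have e4 : Real.exp (-2 : ℝ) ≤ 1 / 4 := by
    rw [Real.exp_neg, inv_eq_one_div]
    refine one_div_le_one_div_of_le (by norm_num) ?_
    have : Real.exp 2 = Real.exp 1 * Real.exp 1 := by rw [← Real.exp_add]; norm_num
    rw [this]
    have := Real.add_one_le_exp (1 : ℝ)
    nlinarith
  set δ : ℝ := Real.exp (-(η * L)) with hδ
  have hδ0 : 0 < δ := Real.exp_pos _
  have hδ1 : δ ≤ 1 := Real.exp_le_one_iff.2 (by have : 0 < η * L := by positivity
                                                linarith)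
  have ha' : Real.exp (-(k1 * L) + C1) ≤ δ / 4 := by
    calc Real.exp (-(k1 * L) + C1) ≤ Real.exp (-(η * L) + -2) := Real.exp_le_exp.2 (by nlinarith)
      _ = δ * Real.exp (-2) := by rw [Real.exp_add]
      _ ≤ δ * (1 / 4) := mul_le_mul_of_nonneg_left e4 hδ0.le
      _ = _ := by ring
  have hb' : Real.exp (-(k2 * L) + C2) ≤ δ / 4 := by
    calc Real.exp (-(k2 * L) + C2) ≤ Real.exp (-(η * L) + -2) := Real.exp_le_exp.2 (by nlinarith)
      _ = δ * Real.exp (-2) := by rw [Real.exp_add]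
      _ ≤ δ * (1 / 4) := mul_le_mul_of_nonneg_left e4 hδ0.le
      _ = _ := by ring
  have ha2 : Pi * (1 - δ / 4) ≤ aI cp s W := by
    unfold aI
    rw [← hPi, ← hμ]
    have : Pi * Real.exp (-(k1 * L) + C1) ≤ Pi * (δ / 4) := mul_le_mul_of_nonneg_left ha' hPi0.le
    linarith
  have hb2 : 1 - δ / 4 ≤ Pi * KI cp s W := by linarith
  constructor
  · refine le_trans ?_ ha2
    have e1 : Real.exp (-((1 - η) * L)) ≤ Real.exp (-(c * L) - c) * Real.exp (-1) := by
      rw [← Real.exp_add]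
      refine Real.exp_le_exp.2 ?_
      nlinarith
    have e2 : Real.exp (-1 : ℝ) ≤ 1 / 2 := by
      rw [Real.exp_neg, inv_eq_one_div]
      refine one_div_le_one_div_of_le (by norm_num) ?_
      have := Real.add_one_le_exp (1 : ℝ)
      linarith
    calc _ ≤ _ := e1
      _ ≤ Pi * (1 / 2) := mul_le_mul hPi1 e2 (Real.exp_pos _).le hPi0.le
      _ ≤ Pi * (1 - δ / 4) := mul_le_mul_of_nonneg_left (by linarith) hPi0.le
  · have hK : 0 < KI cp s W := by
      have : 0 < Pi * KI cp s W := by linarith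
      exact (pos_iff_pos_of_mul_pos this).1 hPi0
    rw [div_le_iff₀ hK]
    have f1 : (1 - δ / 4) * (1 - δ / 4) ≤ KI cp s W * aI cp s W := by
      calc (1 - δ / 4) * (1 - δ / 4) ≤ (Pi * KI cp s W) * (1 - δ / 4) :=
            mul_le_mul_of_nonneg_right hb2 (by linarith)
        _ = KI cp s W * (Pi * (1 - δ / 4)) := by ring
        _ ≤ _ := mul_le_mul_of_nonneg_left ha2 hK.le
    have f2 : 1 ≤ (1 + δ) * ((1 - δ / 4) * (1 - δ / 4)) := by nlinarith [mul_nonneg hδ0.le hδ0.le]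
    calc 1 ≤ (1 + δ) * ((1 - δ / 4) * (1 - δ / 4)) := f2
      _ ≤ (1 + δ) * (KI cp s W * aI cp s W) := mul_le_mul_of_nonneg_left f1 (by linarith)
      _ = _ := by ring

end Pool.Agent.H50.OI
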