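import Pool.Agent.H50.OI.Stm

/-! # `S_CHE → S_PAI → S_BON → S_LES → S_LOW` -/

set_option autoImplicit false

namespace Pool.Agent.H50.OI

open Finset MeasureTheory Filter Topology Q198.CI

namespace LowAux

lemma KI_nonneg (s : ℕ) (I : Finset ℕ) : 0 ≤ KI cp s I := by
  unfold KI
  refine Finset.sum_nonneg fun T _ => Finset.prod_nonneg fun n _ => ?_
  exact div_nonneg (cp_nonneg n) (by linarith [cp_le_one n])

/-- the windows -/
def Wd (i h k : ℕ) : Finset ℕ := Ioc (2 ^ i + k * (h + 1)) (2 ^ i + k * (h + 1) + h)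

lemma mem_Wd {i h k n : ℕ} :
    n ∈ Wd i h k ↔ 2 ^ i + k * (h + 1) < n ∧ n ≤ 2 ^ i + k * (h + 1) + h := by
  unfold Wd
  exact mem_Ioc

lemma card_Wd (i h k : ℕ) : (Wd i h k).card = h := by
  unfold Wd
  rw [Nat.card_Ioc]
  omega

lemma top_Wd {i h k : ℕ} (hk : k < 2 ^ i / (h + 1)) : 2 ^ i + (k + 1) * (h + 1) ≤ 2 ^ (i + 1) := by
  have h1 : (k + 1) * (h + 1) ≤ 2 ^ i / (h + 1) * (h + 1) := Nat.mul_le_mul_right _ hk
  have h2 : 2 ^ i / (h + 1) * (h + 1) ≤ 2 ^ i := Nat.div_mul_le_self _ _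
  have h3 : 2 ^ (i + 1) = 2 ^ i + 2 ^ i := by ring
  omega

lemma bounds_Wd {i h k n : ℕ} (hk : k < 2 ^ i / (h + 1)) (hn : n ∈ Wd i h k) :
    2 ^ i < n ∧ n ≤ 2 ^ (i + 1) := by
  rw [mem_Wd] at hn
  have h1 := top_Wd hk
  have h2 : (k + 1) * (h + 1) = k * (h + 1) + h + 1 := by ring
  constructor
  · have : 2 ^ i ≤ 2 ^ i + k * (h + 1) := Nat.le_add_right _ _
    omega
  · omega

lemma disj_Wd {i h k k' : ℕ} (hkk : k ≠ k') : Disjoint (Wd i h k) (Wd i h k') := by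
  rw [Finset.disjoint_left]
  intro n hn hn'
  rw [mem_Wd] at hn hn'
  rcases Nat.lt_or_gt_of_ne hkk with h1 | h1
  · have h2 : (k + 1) * (h + 1) ≤ k' * (h + 1) := Nat.mul_le_mul_right _ h1
    have h3 : (k + 1) * (h + 1) = k * (h + 1) + h + 1 := by ring
    omega
  · have h2 : (k' + 1) * (h + 1) ≤ k * (h + 1) := Nat.mul_le_mul_right _ h1
    have h3 : (k' + 1) * (h + 1) = k' * (h + 1) + h + 1 := by ring
    omega

lemma cp_lt_one {n : ℕ} (h : 3 ≤ n) : cp n < 1 := by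
  unfold cp
  rw [if_pos h]
  have := one_lt_log h
  rw [div_lt_one (by linarith)]
  exact this

lemma step (hCHE : S_CHE) (hPAI : S_PAI) (hBON : S_BON) {Ω : Type} [MeasurableSpace Ω]
    (P : Measure Ω) [IsProbabilityMeasure P] {κ : ℕ → ℕ} {E : ℕ → Set Ω} (hCM : CM P κ E)
    {A δ : ℝ} {i h s : ℕ} (hi : 2 ≤ i) (hs : 1 ≤ s) (hcnt : 0 < 2 ^ i / (h + 1))
    (hκ : ∀ n, 2 ^ i < n → 4 * s ≤ κ n) (hA : 0 < A) (hδ : 0 ≤ δ)
    (h1 : ∀ k < 2 ^ i / (h + 1), A ≤ aI cp s (Wd i h k))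
    (h2 : ∀ k < 2 ^ i / (h + 1), 1 / KI cp s (Wd i h k) ≤ (1 + δ) * aI cp s (Wd i h k)) :
    P (⋂ k ∈ range (2 ^ i / (h + 1)), (⋂ n ∈ Wd i h k, (E n)ᶜ)ᶜ) ≤
      ENNReal.ofReal (1 / ((2 ^ i / (h + 1) : ℕ) * A) + (2 * δ + δ ^ 2)) := by
  have h4 : 4 ≤ 2 ^ i := by
    calc 4 = 2 ^ 2 := by norm_num
      _ ≤ 2 ^ i := Nat.pow_le_pow_right (by norm_num) hi
  have hlaw : ∀ I : Finset ℕ, (∀ n ∈ I, 2 ^ i < n) → ∀ T ⊆ I, T.card ≤ 4 * s →
      P (⋂ n ∈ T, E n) = ENNReal.ofReal (∏ n ∈ T, cp n) := by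
    intro I hI T hT hc
    rw [hCM.2 T (fun n hn => ⟨by have := hI n (hT hn); omega,
      hc.trans (hκ n (hI n (hT hn)))⟩)]
    congr 1
    refine Finset.prod_congr rfl fun n hn => ?_
    have : 3 ≤ n := by have := hI n (hT hn); omega
    unfold cp
    rw [if_pos this]
  refine (hCHE Ω P (range (2 ^ i / (h + 1))) (fun k => ⋂ n ∈ Wd i h k, (E n)ᶜ)
    (fun k => aI cp s (Wd i h k)) (fun k => 1 / KI cp s (Wd i h k)) δ ?_ hδ ?_ ?_ ?_ ?_).trans ?_
  · exact ⟨0, mem_range.2 hcnt⟩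
  · intro k _
    exact Finset.measurableSet_biInter _ fun n _ => (hCM.1 n).compl
  · intro k hk
    rw [mem_range] at hk
    exact ⟨hA.trans_le (h1 k hk), one_div_nonneg.2 (KI_nonneg s _), h2 k hk⟩
  · intro k hk
    rw [mem_range] at hk
    refine hBON Ω P E (Wd i h k) s cp hCM.1 hs (fun n _ => ⟨cp_nonneg n, cp_le_one n⟩) ?_
    exact hlaw _ fun n hn => (bounds_Wd hk hn).1
  · intro k hk k' hk' hkk
    rw [mem_range] at hk hk'
    have hb : ∀ n ∈ Wd i h k ∪ Wd i h k', 2 ^ i < n := by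
      intro n hn
      rcases mem_union.1 hn with hn | hn
      · exact (bounds_Wd hk hn).1
      · exact (bounds_Wd hk' hn).1
    refine hPAI Ω P E (Wd i h k) (Wd i h k') s cp hCM.1 (disj_Wd hkk) (fun n hn => ?_) ?_
    · exact ⟨cp_nonneg n, cp_lt_one (by have := hb n hn; omega)⟩
    · exact hlaw _ hb
  · refine ENNReal.ofReal_le_ofReal ?_
    have hsum : ((2 ^ i / (h + 1) : ℕ) : ℝ) * A ≤ ∑ k ∈ range (2 ^ i / (h + 1)),
        aI cp s (Wd i h k) := by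
      calc ((2 ^ i / (h + 1) : ℕ) : ℝ) * A = ∑ _k ∈ range (2 ^ i / (h + 1)), A := by
            rw [Finset.sum_const, card_range, nsmul_eq_mul]
        _ ≤ _ := Finset.sum_le_sum fun k hk => h1 k (mem_range.1 hk)
    have hpos : 0 < ((2 ^ i / (h + 1) : ℕ) : ℝ) * A :=
      mul_pos (by exact_mod_cast hcnt) hA
    have := one_div_le_one_div_of_le hpos hsum
    linarith

lemma two_pow_eq (i : ℕ) : (2 : ℝ) ^ i = Real.exp ((i : ℝ) * Real.log 2) := by
  rw [mul_comm, Real.exp_mul, Real.exp_log (by norm_num), Real.rpow_natCast]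

/-- the numerical estimate -/
lemma num {c η : ℝ} (hc : 0 < c) (hη : 0 < η) {i : ℕ}
    (hcnt : 0 < 2 ^ i / (⌊c * ((i : ℝ) * Real.log 2) ^ 2⌋₊ + 1)) :
    1 / ((2 ^ i / (⌊c * ((i : ℝ) * Real.log 2) ^ 2⌋₊ + 1) : ℕ) *
        Real.exp (-((1 - η) * ((i : ℝ) * Real.log 2)))) +
      (2 * Real.exp (-(η * ((i : ℝ) * Real.log 2))) +
        Real.exp (-(η * ((i : ℝ) * Real.log 2))) ^ 2) ≤
      2 * c * Real.log 2 ^ 2 * ((i : ℝ) ^ 2 * Real.exp (-(η * Real.log 2)) ^ i) +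
        5 * Real.exp (-(η * Real.log 2)) ^ i := by
  set L : ℝ := (i : ℝ) * Real.log 2 with hL
  set h : ℕ := ⌊c * L ^ 2⌋₊ with hh
  have hl2 : 0 < Real.log 2 := Real.log_pos (by norm_num)
  have hL0 : 0 ≤ L := by positivity
  have hr : Real.exp (-(η * Real.log 2)) ^ i = Real.exp (-(η * L)) := by
    rw [← Real.exp_nat_mul]
    congr 1
    rw [hL]
    ring
  rw [hr]
  have hδ0 : 0 < Real.exp (-(η * L)) := Real.exp_pos _
  have hδ1 : Real.exp (-(η * L)) ≤ 1 := by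
    rw [← Real.exp_zero]
    exact Real.exp_le_exp.2 (by have := mul_nonneg hη.le hL0; linarith)
  have hδ2 : Real.exp (-(η * L)) ^ 2 ≤ Real.exp (-(η * L)) := by nlinarith
  have hhle : (h : ℝ) ≤ c * L ^ 2 := Nat.floor_le (by positivity)
  have hq : (2 : ℝ) ^ i ≤ 2 * ((2 ^ i / (h + 1) : ℕ) : ℝ) * ((h : ℝ) + 1) := by
    have h1 : 2 ^ i < (2 ^ i / (h + 1) + 1) * (h + 1) := by
      have := Nat.lt_div_mul_add (a := 2 ^ i) (b := h + 1) (Nat.succ_pos h)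
      calc 2 ^ i < 2 ^ i / (h + 1) * (h + 1) + (h + 1) := this
        _ = _ := by ring
    have h2 : (2 ^ i / (h + 1) + 1) * (h + 1) ≤ 2 * (2 ^ i / (h + 1)) * (h + 1) :=
      Nat.mul_le_mul_right _ (by omega)
    have h3 : 2 ^ i ≤ 2 * (2 ^ i / (h + 1)) * (h + 1) := (h1.trans_le h2).le
    have h4 : ((2 ^ i : ℕ) : ℝ) ≤ ((2 * (2 ^ i / (h + 1)) * (h + 1) : ℕ) : ℝ) := by
      exact_mod_cast h3
    push_cast at h4 ⊢
    exact h4
  have hqpos : 0 < ((2 ^ i / (h + 1) : ℕ) : ℝ) := by exact_mod_cast hcnt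
  have hexp : Real.exp (-((1 - η) * L)) * (2 : ℝ) ^ i = Real.exp (η * L) := by
    rw [two_pow_eq i, ← hL, ← Real.exp_add]
    congr 1
    ring
  have hmain : 1 / (((2 ^ i / (h + 1) : ℕ) : ℝ) * Real.exp (-((1 - η) * L))) ≤
      2 * ((h : ℝ) + 1) * Real.exp (-(η * L)) := by
    rw [div_le_iff₀ (mul_pos hqpos (Real.exp_pos _))]
    have e1 : Real.exp (-(η * L)) * Real.exp (η * L) = 1 := by
      rw [← Real.exp_add]
      simp
    calc (1 : ℝ) = Real.exp (-(η * L)) * Real.exp (η * L) := e1.symm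
      _ = Real.exp (-(η * L)) * (Real.exp (-((1 - η) * L)) * (2 : ℝ) ^ i) := by rw [hexp]
      _ ≤ Real.exp (-(η * L)) * (Real.exp (-((1 - η) * L)) *
          (2 * ((2 ^ i / (h + 1) : ℕ) : ℝ) * ((h : ℝ) + 1))) := by gcongr
      _ = _ := by ring
  have h5 : 2 * ((h : ℝ) + 1) * Real.exp (-(η * L)) ≤
      2 * (c * L ^ 2 + 1) * Real.exp (-(η * L)) := by gcongr
  calc _ ≤ 2 * (c * L ^ 2 + 1) * Real.exp (-(η * L)) +
        (2 * Real.exp (-(η * L)) + Real.exp (-(η * L))) := by linarith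
    _ = _ := by
      rw [hL]
      ring

end LowAux

open LowAux

theorem low : S_CHE → S_PAI → S_BON → S_LES → S_LOW := by
  intro hCHE hPAI hBON hLES Ω _ P _ κ E ρ c hρ hCM hκ hc hc1 hcρ
  obtain ⟨c', hcc, hc'ρ⟩ := exists_between hcρ
  obtain ⟨η, hη, hev⟩ := hLES c c' hc hcc hc1
  have hc'0 : 0 < c' := hc.trans hcc
  have hl2 : 0 < Real.log 2 := Real.log_pos (by norm_num)
  set h : ℕ → ℕ := fun i => ⌊c * ((i : ℝ) * Real.log 2) ^ 2⌋₊ with hh
  set s : ℕ → ℕ := fun i => ⌊c' * ((i : ℝ) * Real.log 2)⌋₊ with hs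
  -- eventual facts
  have ev1 : ∀ᶠ i : ℕ in atTop, 2 ≤ i := eventually_ge_atTop 2
  have ev2 : ∀ᶠ i : ℕ in atTop, 1 ≤ s i := by
    have : Tendsto (fun i : ℕ => c' * ((i : ℝ) * Real.log 2)) atTop atTop :=
      (tendsto_natCast_atTop_atTop.atTop_mul_const hl2).const_mul_atTop hc'0
    filter_upwards [this.eventually_ge_atTop 1] with i hi
    exact Nat.le_floor (by simpa using hi)
  have ev3 : ∀ᶠ i : ℕ in atTop, ∀ n : ℕ, 2 ^ i < n → 4 * s i ≤ κ n := by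
    obtain ⟨N, hN⟩ := eventually_atTop.1 (hκ (4 * c') (by linarith))
    filter_upwards [eventually_ge_atTop N] with i hi n hn
    have h1 : N ≤ n := by
      have : i < 2 ^ i := Nat.lt_two_pow_self
      omega
    have h2 := hN n h1
    have h3 : (i : ℝ) * Real.log 2 ≤ Real.log n := by
      rw [← Real.log_pow]
      refine Real.log_le_log (by positivity) ?_
      exact_mod_cast hn.le
    have h4 : ((s i : ℕ) : ℝ) ≤ c' * ((i : ℝ) * Real.log 2) := Nat.floor_le (by positivity)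
    have h5 : (4 : ℝ) * (s i : ℝ) ≤ κ n := by
      calc (4 : ℝ) * (s i : ℝ) ≤ 4 * (c' * ((i : ℝ) * Real.log 2)) := by linarith
        _ ≤ 4 * (c' * Real.log n) := by gcongr
        _ = 4 * c' * Real.log n := by ring
        _ ≤ _ := h2
    exact_mod_cast h5
  have ev4 : ∀ᶠ i : ℕ in atTop, 0 < 2 ^ i / (h i + 1) := by
    have ht := tendsto_pow_const_div_const_pow_of_one_lt 2 (r := (2 : ℝ)) (by norm_num)
    have hpos : (0 : ℝ) < 1 / (2 * (c * Real.log 2 ^ 2)) := by positivity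
    filter_upwards [ht.eventually_lt_const hpos, eventually_ge_atTop 1] with i hi hi1
    have h1 : (h i : ℝ) ≤ c * ((i : ℝ) * Real.log 2) ^ 2 := Nat.floor_le (by positivity)
    have h2 : (i : ℝ) ^ 2 < 1 / (2 * (c * Real.log 2 ^ 2)) * 2 ^ i := by
      rwa [div_lt_iff₀ (by positivity)] at hi
    have h3 : c * ((i : ℝ) * Real.log 2) ^ 2 ≤ 2 ^ i / 2 := by
      have h4 : c * ((i : ℝ) * Real.log 2) ^ 2 = (c * Real.log 2 ^ 2) * (i : ℝ) ^ 2 := by ring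
      rw [h4]
      calc (c * Real.log 2 ^ 2) * (i : ℝ) ^ 2 ≤
          (c * Real.log 2 ^ 2) * (1 / (2 * (c * Real.log 2 ^ 2)) * 2 ^ i) := by gcongr
        _ = 2 ^ i / 2 := by field_simp
    have h5 : (1 : ℝ) ≤ 2 ^ i / 2 := by
      have : (2 : ℝ) ^ 1 ≤ 2 ^ i := pow_le_pow_right₀ (by norm_num) hi1
      linarith
    have h6 : (h i : ℝ) + 1 ≤ 2 ^ i := by linarith
    have h7 : h i + 1 ≤ 2 ^ i := by exact_mod_cast h6
    exact Nat.div_pos h7 (Nat.succ_pos _)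
  obtain ⟨i₀, hi₀⟩ := eventually_atTop.1 (hev.and (ev1.and (ev2.and (ev3.and ev4))))
  -- the bad events
  set B : ℕ → Set Ω := fun i => ⋂ k ∈ range (2 ^ i / (h i + 1)), (⋂ n ∈ Wd i (h i) k, (E n)ᶜ)ᶜ
    with hB
  set u : ℕ → ℝ := fun i =>
      2 * c * Real.log 2 ^ 2 * ((i : ℝ) ^ 2 * Real.exp (-(η * Real.log 2)) ^ i) +
        5 * Real.exp (-(η * Real.log 2)) ^ i with hu
  have hbound : ∀ i, i₀ ≤ i → P (B i) ≤ ENNReal.ofReal (u i) := by
    intro i hi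
    obtain ⟨g1, g2, g3, g4, g5⟩ := hi₀ i hi
    have hW : ∀ k < 2 ^ i / (h i + 1),
        Real.exp (-((1 - η) * ((i : ℝ) * Real.log 2))) ≤ aI cp (s i) (Wd i (h i) k) ∧
        1 / KI cp (s i) (Wd i (h i) k) ≤ (1 + Real.exp (-(η * ((i : ℝ) * Real.log 2)))) *
          aI cp (s i) (Wd i (h i) k) := by
      intro k hk
      refine g1 _ ?_ (fun n hn => bounds_Wd hk hn)
      rw [card_Wd]
      exact Nat.floor_le (by positivity)
    refine (step hCHE hPAI hBON P hCM g2 g3 g5 g4 (Real.exp_pos _) (Real.exp_pos _).le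
      (fun k hk => (hW k hk).1) (fun k hk => (hW k hk).2)).trans ?_
    exact ENNReal.ofReal_le_ofReal (num hc hη g5)
  have hsum : Summable u := by
    have hr1 : ‖Real.exp (-(η * Real.log 2))‖ < 1 := by
      rw [Real.norm_eq_abs, abs_of_pos (Real.exp_pos _), ← Real.exp_zero]
      exact Real.exp_lt_exp.2 (by have := mul_pos hη hl2; linarith)
    refine Summable.add ?_ ?_
    · exact (summable_pow_mul_geometric_of_norm_lt_one 2 hr1).mul_left _
    · exact (summable_geometric_of_norm_lt_one hr1).mul_left _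
  have hfin : (∑' i, P (B (i + i₀))) ≠ ⊤ := by
    have h1 : Summable (fun i => u (i + i₀)) := (summable_nat_add_iff i₀).2 hsum
    have h2 : (∑' i, P (B (i + i₀))) ≤ ∑' i, ENNReal.ofReal (u (i + i₀)) :=
      ENNReal.tsum_le_tsum fun i => hbound _ (Nat.le_add_left _ _)
    refine ne_top_of_le_ne_top ?_ h2
    exact h1.tsum_ofReal_ne_top
  filter_upwards [ae_eventually_notMem hfin] with ω hω
  obtain ⟨j₀, hj₀⟩ := eventually_atTop.1 hω
  filter_upwards [eventually_ge_atTop (i₀ + j₀)] with i hi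
  have h1 : ω ∉ B i := by
    have := hj₀ (i - i₀) (by omega)
    rwa [Nat.sub_add_cancel (by omega)] at this
  have h2 : ∃ k < 2 ^ i / (h i + 1), ω ∈ ⋂ n ∈ Wd i (h i) k, (E n)ᶜ := by
    by_contra hcon
    push Not at hcon
    refine h1 ?_
    simp only [hB, Set.mem_iInter, mem_range]
    intro k hk
    exact hcon k hk
  obtain ⟨k, hk, hωk⟩ := h2
  have hfl : c * ((i : ℝ) * Real.log 2) ^ 2 < (h i : ℝ) + 1 := Nat.lt_floor_add_one _
  refine ⟨2 ^ i + k * (h i + 1), Nat.le_add_right _ _, ?_, ?_⟩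
  · have h3 := top_Wd hk
    have h4 : ((2 ^ i + (k + 1) * (h i + 1) : ℕ) : ℝ) ≤ ((2 ^ (i + 1) : ℕ) : ℝ) := by
      exact_mod_cast h3
    push_cast at h4 ⊢
    nlinarith
  · intro n hn hn2
    have h3 : n ∈ Wd i (h i) k := by
      rw [mem_Wd]
      refine ⟨hn, ?_⟩
      have h5 : (n : ℝ) < ((2 ^ i + k * (h i + 1) + h i + 1 : ℕ) : ℝ) := by
        push_cast at hn2 ⊢
        linarith
      have h6 : n < 2 ^ i + k * (h i + 1) + h i + 1 := by exact_mod_cast h5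
      omega
    have h4 := Set.mem_iInter₂.1 hωk n h3
    exact h4

end Pool.Agent.H50.OI
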