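import Pool.Agent.H50.OI.Stm

/-! # A model with small gaps at all scales -/

set_option autoImplicit false

namespace Pool.Agent.H50.OI

open Finset MeasureTheory Filter Topology Q198.CI

namespace NGA

lemma diag {Q : ℕ → ℕ → Prop} (h : ∀ k, ∀ᶠ i : ℕ in atTop, Q k i) :
    ∃ k : ℕ → ℕ, Tendsto k atTop atTop ∧ ∀ᶠ i : ℕ in atTop, Q (k i) i := by
  classical
  have h1 : ∀ k, ∃ N, ∀ i ≥ N, Q k i := fun k => eventually_atTop.1 (h k)
  choose N hN using h1
  refine ⟨fun i => Nat.findGreatest (fun k => ∀ k' ≤ k, N k' ≤ i) i, ?_, ?_⟩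
  · rw [tendsto_atTop]
    intro K
    filter_upwards [eventually_ge_atTop (K + ∑ k ∈ range (K + 1), N k)] with i hi
    apply Nat.le_findGreatest (by omega)
    intro k' hk'
    have : N k' ≤ ∑ k ∈ range (K + 1), N k :=
      single_le_sum (f := N) (fun _ _ => Nat.zero_le _) (mem_range.2 (by omega))
    omega
  · filter_upwards [eventually_ge_atTop (N 0)] with i hi
    have := Nat.findGreatest_spec (P := fun k => ∀ k' ≤ k, N k' ≤ i) (m := 0) (n := i)
      (Nat.zero_le _) (fun k' hk' => by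
        have : k' = 0 := by omega
        rw [this]; exact hi)
    exact hN _ i (this _ le_rfl)

/-- the blocks -/
def R (i : ℕ) : Finset ℕ := if i = 0 then {0, 1} else Ioc (2 ^ (i - 1)) (2 ^ i)

lemma mem_R (n i : ℕ) : n ∈ R i ↔ Nat.clog 2 n = i := by
  unfold R
  split_ifs with h
  · subst h
    simp only [mem_insert, mem_singleton]
    constructor
    · intro h
      exact Nat.clog_of_right_le_one (by omega) 2
    · intro h
      by_contra h2
      have := Nat.clog_pos (b := 2) (n := n) (by norm_num) (by omega)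
      omega
  · rw [mem_Ioc]
    constructor
    · rintro ⟨h1, h2⟩
      apply le_antisymm
      · exact Nat.clog_le_of_le_pow h2
      · by_contra h3
        have h4 : Nat.clog 2 n ≤ i - 1 := by omega
        have h5 := (Nat.clog_le_iff_le_pow (by norm_num)).1 h4
        omega
    · intro h1
      constructor
      · by_contra h2
        have h3 : Nat.clog 2 n ≤ i - 1 := Nat.clog_le_of_le_pow (by omega)
        omega
      · exact (Nat.clog_le_iff_le_pow (by norm_num)).1 h1.le

lemma mass_le_one {I : Finset ℕ} {K : ℕ} {p : ℕ → ℝ} {w : Finset ℕ → ℝ} (h : IsLaw I K p w)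
    (G : Finset ℕ → Prop) : mass I w G ≤ 1 := by
  classical
  have h1 := h.2 ∅ (empty_subset _) (by simp)
  rw [prod_empty] at h1
  have e : Icc ∅ I = I.powerset := by
    ext S
    simp [mem_Icc]
  rw [e] at h1
  rw [← h1]
  unfold mass
  refine sum_le_sum fun A hA => ?_
  have := h.1 A (mem_powerset.1 hA)
  split_ifs <;> linarith

end NGA

open NGA in
theorem nga (hone : S_ONE) (hglu : S_GLU) (hbnd : S_BND) : S_NGA := by
  classical
  intro ρ κ hρ hκ
  have hlog2 : 0 < Real.log 2 := Real.log_pos (by norm_num)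
  set L : ℕ → ℝ := fun i => (i : ℝ) * Real.log 2 with hL
  have hLpow : ∀ i : ℕ, Real.log ((2 ^ i : ℕ) : ℝ) = L i := by
    intro i
    push_cast
    rw [Real.log_pow]
  have hLt : Tendsto L atTop atTop :=
    tendsto_natCast_atTop_atTop.atTop_mul_const hlog2
  set K : ℕ → ℕ := fun i => max 4 (max ⌊ρ * L i⌋₊ ((R i).sup κ)) with hK
  have hmem : ∀ n, n ∈ R (Nat.clog 2 n) := fun n => (mem_R n _).2 rfl
  have hκK : ∀ n, κ n ≤ K (Nat.clog 2 n) := by
    intro n
    exact (le_sup (f := κ) (hmem n)).trans ((le_max_right _ _).trans (le_max_right _ _))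
  -- `K i` is at most `(ρ + 1/(k+1)) L i`
  have hKup : ∀ k : ℕ, ∀ᶠ i : ℕ in atTop, (K i : ℝ) ≤ (ρ + 1 / ((k : ℝ) + 1)) * L i := by
    intro k
    have hk : (0:ℝ) < 1 / ((k : ℝ) + 1) := by positivity
    obtain ⟨n₀, hn₀⟩ := eventually_atTop.1 (hκ (ρ + 1 / ((k : ℝ) + 1)) (by linarith))
    have hc : 0 < ρ + 1 / ((k : ℝ) + 1) := by linarith
    have h4 : ∀ᶠ i : ℕ in atTop, 4 ≤ (ρ + 1 / ((k : ℝ) + 1)) * L i :=
      (hLt.const_mul_atTop hc).eventually_ge_atTop 4
    filter_upwards [h4, eventually_ge_atTop (n₀ + 1), eventually_ge_atTop 1] with i h4 hi hi1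
    have hL0 : 0 ≤ L i := by positivity
    have e1 : (⌊ρ * L i⌋₊ : ℝ) ≤ (ρ + 1 / ((k : ℝ) + 1)) * L i := by
      refine (Nat.floor_le (by positivity)).trans ?_
      exact mul_le_mul_of_nonneg_right (by linarith) hL0
    have e2 : (((R i).sup κ : ℕ) : ℝ) ≤ (ρ + 1 / ((k : ℝ) + 1)) * L i := by
      rw [← Nat.le_floor_iff (by positivity)]
      apply Finset.sup_le
      intro n hn
      rw [Nat.le_floor_iff (by positivity)]
      have hi0 : i ≠ 0 := by omega
      have hn' : 2 ^ (i - 1) < n ∧ n ≤ 2 ^ i := by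
        unfold R at hn
        rw [if_neg hi0, mem_Ioc] at hn
        exact hn
      have hn₁ : n₀ ≤ n := by
        have h7 : i - 1 < 2 ^ (i - 1) := Nat.lt_two_pow_self
        have h8 := hn'.1
        omega
      refine (hn₀ n hn₁).trans ?_
      apply mul_le_mul_of_nonneg_left _ hc.le
      rw [← hLpow]
      apply Real.log_le_log
      · have : 0 < n := lt_of_le_of_lt (Nat.zero_le _) hn'.1
        exact_mod_cast this
      · exact_mod_cast hn'.2
    simp only [hK]
    push_cast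
    rw [max_le_iff, max_le_iff]
    exact ⟨h4, e1, e2⟩
  -- the law on a block
  set σ : ℕ → ℝ := fun k => ρ / 4 + 1 / ((k : ℝ) + 1) with hσ
  have hQ : ∀ k : ℕ, ∀ᶠ i : ℕ in atTop, ∃ w : Finset ℕ → ℝ, IsLaw (R i) (K i) cp w ∧
      1 - 1 / L i ^ 2 ≤ mass (R i) w (Dense (2 ^ (i - 1)) (2 ^ i) (σ k * L i ^ 2)) := by
    intro k
    have hk : (0:ℝ) < 1 / ((k : ℝ) + 1) := by positivity
    have h1 := hone (ρ + 1 / ((k : ℝ) + 1)) (σ k) (by linarith) (by
      simp only [hσ]
      linarith)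
    have hpow : Tendsto (fun i : ℕ => 2 ^ i) atTop atTop :=
      tendsto_pow_atTop_atTop_of_one_lt (by norm_num)
    filter_upwards [hpow.eventually h1, hKup k, eventually_ge_atTop 2] with i h2 h3 h4
    obtain ⟨w, hw1, hw2⟩ := h2 (2 ^ (i - 1)) (K i) (by
      calc 2 = 2 ^ 1 := by norm_num
        _ ≤ 2 ^ (i - 1) := Nat.pow_le_pow_right (by norm_num) (by omega))
      (Nat.pow_le_pow_right (by norm_num) (by omega)) (by
        rw [hLpow]; exact h3)
    have e : R i = Ioc (2 ^ (i - 1)) (2 ^ i) := by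
      unfold R
      rw [if_neg (by omega)]
    refine ⟨w, by rw [e]; exact hw1, ?_⟩
    rw [e, ← hLpow]
    exact hw2
  obtain ⟨k, hk1, hk2⟩ := diag hQ
  set G : ℕ → Finset ℕ → Prop := fun i => Dense (2 ^ (i - 1)) (2 ^ i) (σ (k i) * L i ^ 2) with hG
  have hw : ∀ i, ∃ w : Finset ℕ → ℝ, IsLaw (R i) (K i) cp w ∧
      ((∃ w : Finset ℕ → ℝ, IsLaw (R i) (K i) cp w ∧ 1 - 1 / L i ^ 2 ≤ mass (R i) w (G i)) →
        1 - 1 / L i ^ 2 ≤ mass (R i) w (G i)) := by
    intro i
    by_cases h : ∃ w : Finset ℕ → ℝ, IsLaw (R i) (K i) cp w ∧ 1 - 1 / L i ^ 2 ≤ mass (R i) w (G i)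
    · obtain ⟨w, h1, h2⟩ := h
      exact ⟨w, h1, fun _ => h2⟩
    · exact ⟨_, law_prod (R i) cp_nonneg cp_le_one (K i), fun h' => absurd h' h⟩
  choose w hw1 hw2 using hw
  have hsum : Summable (fun i => 1 - mass (R i) (w i) (G i)) := by
    have h1 : Summable (fun i : ℕ => 1 / L i ^ 2) := by
      have h2 : Summable (fun i : ℕ => 1 / ((i : ℝ)) ^ 2) :=
        Real.summable_one_div_nat_pow.2 (by norm_num)
      have h3 := h2.mul_left (1 / Real.log 2 ^ 2)
      refine h3.congr fun i => ?_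
      simp only [hL]
      rw [mul_pow, one_div_mul_one_div, mul_comm]
    apply Summable.of_norm_bounded_eventually_nat h1
    filter_upwards [hk2] with i hi
    have h5 := mass_le_one (hw1 i) (G i)
    have h6 := hw2 i hi
    rw [Real.norm_eq_abs, abs_of_nonneg (by linarith)]
    linarith
  obtain ⟨Ω, mΩ, P, hP, E, hE, hT, hae⟩ := hglu (Nat.clog 2) R K cp w G mem_R cp_nonneg hw1 hsum
  have hCM : CM P (fun n => K (Nat.clog 2 n)) E := by
    refine ⟨hE, fun T h => ?_⟩
    rw [hT T (fun n hn => (h n hn).2)]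
    congr 1
    refine prod_congr rfl fun n hn => ?_
    unfold cp
    rw [if_pos (h n hn).1]
  refine ⟨fun n => K (Nat.clog 2 n), hκK, ?_, fun n => le_max_left _ _, Ω, mΩ, P, hP, E, hCM, ?_⟩
  · intro c hc
    have h1 : ∀ᶠ n : ℕ in atTop, 1 ≤ (ρ - c) * Real.log n := by
      have : Tendsto (fun n : ℕ => Real.log (n : ℝ)) atTop atTop :=
        Real.tendsto_log_atTop.comp tendsto_natCast_atTop_atTop
      exact (this.const_mul_atTop (by linarith : 0 < ρ - c)).eventually_ge_atTop 1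
    filter_upwards [h1, eventually_ge_atTop 1] with n h1 hn
    have h2 : ρ * L (Nat.clog 2 n) < ⌊ρ * L (Nat.clog 2 n)⌋₊ + 1 := Nat.lt_floor_add_one _
    have h3 : ((⌊ρ * L (Nat.clog 2 n)⌋₊ : ℕ) : ℝ) ≤ K (Nat.clog 2 n) := by
      exact_mod_cast (le_max_left _ _).trans (le_max_right _ _)
    have h4 : Real.log n ≤ L (Nat.clog 2 n) := by
      rw [← hLpow]
      apply Real.log_le_log (by exact_mod_cast hn)
      exact_mod_cast (Nat.clog_le_iff_le_pow (by norm_num)).1 le_rfl
    have h5 : ρ * Real.log n ≤ ρ * L (Nat.clog 2 n) := mul_le_mul_of_nonneg_left h4 hρ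
    linarith
  · have hb := hbnd Ω P (fun n => K (Nat.clog 2 n)) E hCM
      (Eventually.of_forall fun n => le_max_left _ _)
    filter_upwards [hae, hb] with ω h1 h2
    intro ε hε
    have h3 := h2 (ε / 2) (by linarith)
    -- estimates
    have hs1 : Tendsto (fun i : ℕ => σ (k (i + 2))) atTop (𝓝 (ρ / 4)) := by
      have h5 : Tendsto (fun i : ℕ => 1 / ((k (i + 2) : ℝ) + 1)) atTop (𝓝 0) :=
        tendsto_one_div_add_atTop_nhds_zero_nat.comp (hk1.comp (tendsto_add_atTop_nat 2))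
      have := (tendsto_const_nhds (x := ρ / 4)).add h5
      rwa [add_zero] at this
    have hs1' : Tendsto (fun i : ℕ => σ (k (i + 1))) atTop (𝓝 (ρ / 4)) := by
      have h5 : Tendsto (fun i : ℕ => 1 / ((k (i + 1) : ℝ) + 1)) atTop (𝓝 0) :=
        tendsto_one_div_add_atTop_nhds_zero_nat.comp (hk1.comp (tendsto_add_atTop_nat 1))
      have := (tendsto_const_nhds (x := ρ / 4)).add h5
      rwa [add_zero] at this
    have hq : ∀ j : ℝ, Tendsto (fun i : ℕ => (((i : ℝ) + j) / i) ^ 2) atTop (𝓝 1) := by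
      intro j
      have h5 : Tendsto (fun i : ℕ => 1 + j / (i : ℝ)) atTop (𝓝 (1 + 0)) :=
        tendsto_const_nhds.add (tendsto_const_div_atTop_nhds_zero_nat j)
      rw [add_zero] at h5
      have h6 := h5.pow 2
      rw [one_pow] at h6
      refine h6.congr' ?_
      filter_upwards [eventually_gt_atTop 0] with i hi
      have : (i : ℝ) ≠ 0 := by positivity
      congr 1
      field_simp
    have hest2 : ∀ᶠ i : ℕ in atTop, σ (k (i + 2)) * L (i + 2) ^ 2 + ε / 2 * L (i + 1) ^ 2 ≤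
        (ρ / 4 + ε) * L i ^ 2 := by
      have h5 := (hs1.mul (hq 2)).add ((hq 1).const_mul (ε / 2))
      have h6 : ρ / 4 * 1 + ε / 2 * 1 < ρ / 4 + ε := by linarith
      filter_upwards [h5.eventually_le_const h6, eventually_gt_atTop 0] with i h7 hi
      have hi0 : (0:ℝ) < i := by exact_mod_cast hi
      have h8 := mul_le_mul_of_nonneg_right h7 (sq_nonneg (L i))
      refine le_trans (le_of_eq ?_) h8
      simp only [hL]
      push_cast
      field_simp
    have hest1 : ∀ᶠ i : ℕ in atTop, σ (k (i + 1)) * L (i + 1) ^ 2 ≤ (ρ / 4 + ε) * L i ^ 2 := by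
      have h5 := hs1'.mul (hq 1)
      have h6 : ρ / 4 * 1 < ρ / 4 + ε := by linarith
      filter_upwards [h5.eventually_le_const h6, eventually_gt_atTop 0] with i h7 hi
      have hi0 : (0:ℝ) < i := by exact_mod_cast hi
      have h8 := mul_le_mul_of_nonneg_right h7 (sq_nonneg (L i))
      refine le_trans (le_of_eq ?_) h8
      simp only [hL]
      push_cast
      field_simp
    have hest3 : ∀ᶠ i : ℕ in atTop, σ (k (i + 2)) * L (i + 2) ^ 2 ≤ (2:ℝ) ^ (i + 1) := by
      have h5 : Tendsto (fun i : ℕ => ((i : ℝ)) ^ 2 / (2:ℝ) ^ i) atTop (𝓝 0) :=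
        tendsto_pow_const_div_const_pow_of_one_lt 2 (by norm_num)
      have h6 : Tendsto (fun i : ℕ => (((i + 2 : ℕ) : ℝ)) ^ 2 / (2:ℝ) ^ (i + 2)) atTop (𝓝 0) :=
        h5.comp (tendsto_add_atTop_nat 2)
      have h7 := hs1.mul (h6.const_mul (2 * Real.log 2 ^ 2))
      rw [mul_zero, mul_zero] at h7
      filter_upwards [h7.eventually_le_const zero_lt_one] with i h8
      have h9 : (0:ℝ) < 2 ^ (i + 1) := by positivity
      have h10 := mul_le_mul_of_nonneg_right h8 h9.le
      rw [one_mul] at h10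
      refine le_trans (le_of_eq ?_) h10
      simp only [hL]
      have h11 : (2:ℝ) ^ (i + 2) = 2 * 2 ^ (i + 1) := by ring
      rw [h11]
      field_simp
    have hlogt : Tendsto (fun x : ℕ => Nat.log 2 x) atTop atTop := by
      rw [tendsto_atTop]
      intro b
      filter_upwards [eventually_ge_atTop (2 ^ b)] with x hx
      exact Nat.le_log_of_pow_le (by norm_num) hx
    have hG1 := hlogt.eventually ((tendsto_add_atTop_nat 1).eventually h1)
    have hG2 := hlogt.eventually ((tendsto_add_atTop_nat 2).eventually h1)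
    have hB1 := hlogt.eventually ((tendsto_add_atTop_nat 1).eventually h3)
    filter_upwards [hG1, hG2, hB1, hlogt.eventually hest1, hlogt.eventually hest2,
      hlogt.eventually hest3, eventually_ge_atTop 2] with x hG1 hG2 hB1 he1 he2 he3 hx2
    set i := Nat.log 2 x with hi
    have hxlo : 2 ^ i ≤ x := Nat.pow_log_le_self 2 (by omega)
    have hxhi : x < 2 ^ (i + 1) := Nat.lt_pow_succ_log_self (by norm_num) x
    have hLx : L i ≤ Real.log x := by
      rw [← hLpow]
      apply Real.log_le_log (by positivity)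
      exact_mod_cast hxlo
    have hLi0 : 0 ≤ L i := by positivity
    have hfin : (ρ / 4 + ε) * L i ^ 2 ≤ (ρ / 4 + ε) * Real.log x ^ 2 := by
      apply mul_le_mul_of_nonneg_left _ (by positivity)
      exact pow_le_pow_left₀ hLi0 hLx 2
    obtain ⟨A1, hA1, hD1⟩ := hG1
    obtain ⟨A2, hA2, hD2⟩ := hG2
    obtain ⟨n₁, hn1, hn2, hn3⟩ := hB1
    by_cases hcase : (x : ℝ) + (ρ / 4 + ε) * L i ^ 2 ≤ (2 ^ (i + 1) : ℕ)
    · have h5 : Dense (2 ^ (i + 1 - 1)) (2 ^ (i + 1)) (σ (k (i + 1)) * L (i + 1) ^ 2) A1 := hD1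
      obtain ⟨n, hn, h6, h7⟩ := h5 x (by rw [Nat.add_sub_cancel]; exact hxlo) (by linarith)
      exact ⟨n, h6, by linarith, ((hA1 n).1 hn).2⟩
    · push Not at hcase
      by_cases hc2 : (x : ℝ) + ε / 2 * L (i + 1) ^ 2 ≤ (2 ^ (i + 1) : ℕ)
      · refine ⟨n₁, ?_, ?_, hn1⟩
        · have e : (((2 ^ (i + 1) : ℕ)) : ℝ) = (2:ℝ) ^ (i + 1) := by push_cast; ring
          have : (x : ℝ) < n₁ := by
            have h8 : (2:ℝ) ^ (i + 1) < n₁ + ε / 2 * L (i + 1) ^ 2 := by
              simp only [hL]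
              exact_mod_cast hn3
            linarith
          exact_mod_cast this
        · have : (n₁ : ℝ) ≤ (2 ^ (i + 1) : ℕ) := by exact_mod_cast hn2
          linarith
      · push Not at hc2
        have h5 : Dense (2 ^ (i + 2 - 1)) (2 ^ (i + 2)) (σ (k (i + 2)) * L (i + 2) ^ 2) A2 := hD2
        have e2 : i + 2 - 1 = i + 1 := by omega
        rw [e2] at h5
        obtain ⟨n, hn, h6, h7⟩ := h5 (2 ^ (i + 1)) le_rfl (by
          push_cast
          have : (2:ℝ) ^ (i + 2) = 2 ^ (i + 1) + 2 ^ (i + 1) := by ring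
          rw [this]
          linarith)
        exact ⟨n, by omega, by linarith, ((hA2 n).1 hn).2⟩

end Pool.Agent.H50.OI
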