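import Pool.Agent.H50.OI.Stm

/-! # Stub OI-NGB of project OI (helper50) -/

set_option autoImplicit false

namespace Pool.Agent.H50.OI

open Finset MeasureTheory Filter Topology Q198.CI

namespace NGB

lemma mass_le_one {I : Finset ℕ} {K : ℕ} {p : ℕ → ℝ} {w : Finset ℕ → ℝ} (h : IsLaw I K p w)
    (G : Finset ℕ → Prop) : mass I w G ≤ 1 := by
  classical
  have h1 := h.2 ∅ (empty_subset _) (by simp)
  simp only [prod_empty] at h1
  rw [← h1]
  unfold mass
  have : Icc ∅ I = I.powerset := by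
    ext S
    simp
  rw [this]
  refine sum_le_sum fun A hA => ?_
  split_ifs
  · exact le_rfl
  · exact h.1 A (mem_powerset.1 hA)

lemma mass_nonneg {I : Finset ℕ} {K : ℕ} {p : ℕ → ℝ} {w : Finset ℕ → ℝ} (h : IsLaw I K p w)
    (G : Finset ℕ → Prop) : 0 ≤ mass I w G := by
  classical
  unfold mass
  refine sum_nonneg fun A hA => ?_
  split_ifs
  · exact h.1 A (mem_powerset.1 hA)
  · exact le_rfl

end NGB

open NGB in
theorem ngb (hone : S_ONE) (hglu : S_GLU) : S_NGB := by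
  intro κ c hκ hc hc4 hfreq
  obtain ⟨σ', hσ'⟩ : ∃ σ' : ℝ, σ' = (c / 4 + 1) / 2 := ⟨_, rfl⟩
  have h1 : 0 < σ' := by rw [hσ']; positivity
  have h2 : σ' < 1 := by rw [hσ']; linarith
  have h3 : c < 4 * σ' := by rw [hσ']; linarith
  obtain ⟨X₀, hX₀⟩ := eventually_atTop.1 (hone c σ' hc h3)
  have hlog : Tendsto (fun n : ℕ => Real.log n) atTop atTop :=
    Real.tendsto_log_atTop.comp tendsto_natCast_atTop_atTop
  -- the next element of the sequence
  have hnext : ∀ y : ℕ, ∀ i : ℕ, ∃ n : ℕ, X₀ ≤ n ∧ (κ n : ℝ) < c * Real.log n ∧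
      (y : ℝ) ≤ Real.log n ∧ (i : ℝ) + 2 ≤ Real.log n := by
    intro y i
    obtain ⟨N1, hN1⟩ := eventually_atTop.1 (hlog.eventually_ge_atTop (y : ℝ))
    obtain ⟨N2, hN2⟩ := eventually_atTop.1 (hlog.eventually_ge_atTop ((i : ℝ) + 2))
    obtain ⟨n, hn, hn2⟩ := (frequently_atTop.1 hfreq) (max X₀ (max N1 N2))
    have g1 : X₀ ≤ n := le_trans (le_max_left _ _) hn
    have g2 : N1 ≤ n := le_trans (le_trans (le_max_left _ _) (le_max_right _ _)) hn
    have g3 : N2 ≤ n := le_trans (le_trans (le_max_right _ _) (le_max_right _ _)) hn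
    exact ⟨n, g1, hn2, hN1 n g2, hN2 n g3⟩
  choose nx hnx1 hnx2 hnx3 hnx4 using hnext
  obtain ⟨x, hx0, hxs⟩ : ∃ x : ℕ → ℕ, x 0 = 2 ∧ ∀ i, x (i + 1) = nx (x i) i :=
    ⟨fun i => Nat.rec 2 (fun i y => nx y i) i, rfl, fun i => rfl⟩
  have A1 : ∀ i, X₀ ≤ x (i + 1) := fun i => by rw [hxs]; exact hnx1 _ _
  have A2 : ∀ i, (κ (x (i + 1)) : ℝ) < c * Real.log (x (i + 1)) := fun i => by rw [hxs]; exact hnx2 _ _
  have A3 : ∀ i, (x i : ℝ) ≤ Real.log (x (i + 1)) := fun i => by rw [hxs]; exact hnx3 _ _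
  have A4 : ∀ i : ℕ, (i : ℝ) + 2 ≤ Real.log (x (i + 1)) := fun i => by rw [hxs]; exact hnx4 _ _
  have hpos : ∀ i, 0 < x i := by
    intro i
    rcases i with _ | i
    · rw [hx0]; norm_num
    · rw [Nat.pos_iff_ne_zero]
      intro h0
      have := A4 i
      rw [h0] at this
      simp only [Nat.cast_zero, Real.log_zero] at this
      have hi : (0 : ℝ) ≤ i := Nat.cast_nonneg i
      linarith
  have hlt : ∀ i, x i < x (i + 1) := by
    intro i
    have g1 : Real.log (x (i + 1)) ≤ (x (i + 1) : ℝ) - 1 :=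
      Real.log_le_sub_one_of_pos (by exact_mod_cast hpos (i + 1))
    have g2 := A3 i
    have : (x i : ℝ) < x (i + 1) := by linarith
    exact_mod_cast this
  have hmono : StrictMono x := strictMono_nat_of_lt_succ hlt
  have htop : Tendsto x atTop atTop := hmono.tendsto_atTop
  have hge2 : ∀ i, 2 ≤ x i := by
    intro i
    have := hmono.monotone (Nat.zero_le i)
    rwa [hx0] at this
  have hex : ∀ n : ℕ, ∃ i, n ≤ x i := fun n => ⟨n, hmono.le_apply⟩
  classical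
  -- blocks
  obtain ⟨R, hR0, hRs⟩ : ∃ R : ℕ → Finset ℕ, R 0 = range 3 ∧ ∀ i, R (i + 1) = Ioc (x i) (x (i + 1)) :=
    ⟨fun i => Nat.rec (range 3) (fun i _ => Ioc (x i) (x (i + 1))) i, rfl, fun i => rfl⟩
  obtain ⟨G, hG0, hGs⟩ : ∃ G : ℕ → Finset ℕ → Prop, (G 0 = fun _ => True) ∧
      ∀ i, G (i + 1) = Dense (x i) (x (i + 1)) (σ' * Real.log (x (i + 1)) ^ 2) :=
    ⟨fun i => Nat.rec (fun _ => True) (fun i _ => Dense (x i) (x (i + 1)) (σ' * Real.log (x (i + 1)) ^ 2)) i,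
      rfl, fun i => rfl⟩
  have hb : ∀ n i, n ∈ R i ↔ Nat.find (hex n) = i := by
    intro n i
    rw [Nat.find_eq_iff]
    rcases i with _ | i
    · rw [hR0, mem_range, hx0]
      constructor
      · intro h
        exact ⟨by omega, fun k hk => absurd hk (Nat.not_lt_zero _)⟩
      · intro h
        have := h.1
        omega
    · rw [hRs, mem_Ioc]
      constructor
      · rintro ⟨g1, g2⟩
        refine ⟨g2, fun k hk => ?_⟩
        have : x k ≤ x i := hmono.monotone (by omega)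
        omega
      · rintro ⟨g1, g2⟩
        have := g2 i (by omega)
        exact ⟨by omega, g1⟩
  have hw : ∀ i : ℕ, ∃ w : Finset ℕ → ℝ, IsLaw (R i) (κ (x i)) cp w ∧
      1 - 1 / ((i : ℝ) + 1) ^ 2 ≤ mass (R i) w (G i) := by
    intro i
    rcases i with _ | i
    · refine ⟨_, law_prod _ cp_nonneg cp_le_one _, ?_⟩
      have h0 := mass_nonneg (law_prod (R 0) cp_nonneg cp_le_one (κ (x 0))) (G 0)
      simp only [Nat.cast_zero, zero_add, one_pow, div_one, sub_self]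
      exact h0
    · obtain ⟨w, w1, w2⟩ := hX₀ (x (i + 1)) (A1 i) (x i) (κ (x (i + 1))) (hge2 i) (hlt i).le (A2 i).le
      rw [← hRs] at w1 w2
      refine ⟨w, w1, ?_⟩
      rw [hGs]
      refine le_trans ?_ w2
      have g1 := A4 i
      have hi : (0 : ℝ) ≤ i := Nat.cast_nonneg i
      have g2 : 1 / Real.log (x (i + 1)) ^ 2 ≤ 1 / (((i + 1 : ℕ) : ℝ) + 1) ^ 2 := by
        apply one_div_le_one_div_of_le (by positivity)
        apply pow_le_pow_left₀ (by positivity)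
        push_cast
        linarith
      linarith
  choose w hw1 hw2 using hw
  have hsum : Summable (fun i => 1 - mass (R i) (w i) (G i)) := by
    refine Summable.of_nonneg_of_le (f := fun i : ℕ => 1 / ((i : ℝ) + 1) ^ 2)
      (fun i => by linarith [mass_le_one (hw1 i) (G i)]) (fun i => by linarith [hw2 i]) ?_
    have h0 := (summable_nat_add_iff 1).2 (Real.summable_one_div_nat_pow.2 (by norm_num : 1 < 2))
    refine h0.congr fun i => ?_
    push_cast
    rfl
  obtain ⟨Ω, mΩ, P, hP, E, hE1, hE2, hE3⟩ := hglu (fun n => Nat.find (hex n)) R (fun i => κ (x i)) cp w G hb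
    cp_nonneg hw1 hsum
  refine ⟨Ω, mΩ, P, hP, E, ⟨hE1, fun T hT => ?_⟩, ?_⟩
  · rw [hE2 T (fun n hn => ?_)]
    · congr 1
      refine prod_congr rfl fun n hn => ?_
      unfold cp
      rw [if_pos (hT n hn).1]
    · exact (hT n hn).2.trans (hκ (Nat.find_spec (hex n)))
  · -- eventual facts
    obtain ⟨σ, hσ⟩ : ∃ σ : ℝ, σ = (1 + σ') / 2 := ⟨_, rfl⟩
    have s1 : σ < 1 := by rw [hσ]; linarith
    have s2 : σ' < σ := by rw [hσ]; linarith
    have s3 : 0 < σ := by linarith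
    have F1 : ∀ᶠ X : ℕ in atTop, 4 * Real.log X ^ 2 + 2 ≤ X := by
      have o1 := (Real.isLittleO_pow_log_id_atTop (n := 2)).bound (show (0:ℝ) < 1 / 8 by norm_num)
      have o2 := tendsto_natCast_atTop_atTop (R := ℝ) |>.eventually o1
      filter_upwards [o2, eventually_ge_atTop 4] with X h4 h5
      have h6 : (4 : ℝ) ≤ X := by exact_mod_cast h5
      simp only [id, Real.norm_eq_abs, abs_pow] at h4
      rw [abs_of_nonneg (by linarith : (0:ℝ) ≤ X), sq_abs] at h4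
      linarith
    have F2 : ∀ᶠ X : ℕ in atTop, σ' * Real.log X ^ 2 + Real.log X ≤ σ * (Real.log X - 1) ^ 2 := by
      have g0 : ∀ᶠ L : ℝ in atTop, σ' * L ^ 2 + L ≤ σ * (L - 1) ^ 2 := by
        filter_upwards [eventually_ge_atTop ((2 * σ + 1) / (σ - σ')), eventually_ge_atTop 0] with L hL hL0
        have hd : 0 < σ - σ' := by linarith
        rw [div_le_iff₀ hd] at hL
        nlinarith
      exact hlog.eventually g0
    have F3 : ∀ᶠ X : ℕ in atTop, 1 ≤ Real.log X := hlog.eventually_ge_atTop 1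
    filter_upwards [hE3] with ω hω
    refine ⟨σ, s1, ?_⟩
    rw [frequently_atTop]
    intro N
    have hev : ∀ᶠ i : ℕ in atTop, (∃ A : Finset ℕ, (∀ n, n ∈ A ↔ n ∈ R (i + 1) ∧ ω ∈ E n) ∧ G (i + 1) A) ∧
        4 * Real.log (x (i + 1)) ^ 2 + 2 ≤ (x (i + 1) : ℝ) ∧
        σ' * Real.log (x (i + 1)) ^ 2 + Real.log (x (i + 1)) ≤ σ * (Real.log (x (i + 1)) - 1) ^ 2 ∧
        1 ≤ Real.log (x (i + 1)) ∧ 2 * N ≤ x (i + 1) := by
      have t1 : Tendsto (fun i : ℕ => i + 1) atTop atTop := tendsto_add_atTop_nat 1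
      have t2 : Tendsto (fun i : ℕ => x (i + 1)) atTop atTop := htop.comp t1
      filter_upwards [t1.eventually hω, t2.eventually F1, t2.eventually F2, t2.eventually F3,
        t2.eventually (eventually_ge_atTop (2 * N))] with i a1 a2 a3 a4 a5
      exact ⟨a1, a2, a3, a4, a5⟩
    obtain ⟨i, ⟨A, hA, hGA⟩, f1, f2, f3, f4⟩ := hev.exists
    rw [hGs] at hGA
    rw [hRs] at hA
    obtain ⟨X, hX⟩ : ∃ X : ℕ, X = x (i + 1) := ⟨_, rfl⟩
    obtain ⟨L, hL⟩ : ∃ L : ℝ, L = Real.log (x (i + 1)) := ⟨_, rfl⟩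
    have hxi : (x i : ℝ) ≤ L := by rw [hL]; exact A3 i
    rw [← hL, ← hX] at f1
    rw [← hL] at f2 f3 hGA
    rw [← hX] at f4 hGA hA
    -- the point `y`
    obtain ⟨h, hh⟩ : ∃ h : ℕ, h = ⌈2 * L ^ 2⌉₊ := ⟨_, rfl⟩
    have hh1 : 2 * L ^ 2 ≤ h := by rw [hh]; exact Nat.le_ceil _
    have hh2 : (h : ℝ) < 2 * L ^ 2 + 1 := by rw [hh]; exact Nat.ceil_lt_add_one (by positivity)
    have hhX : (2 : ℝ) * h ≤ X := by linarith
    have hhX' : 2 * h ≤ X := by exact_mod_cast hhX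
    refine ⟨X - h, by omega, fun t ht => ?_⟩
    have hle : h ≤ X := by omega
    have hy : ((X - h : ℕ) : ℝ) = X - h := by rw [Nat.cast_sub hle]
    have hylog : L - 1 ≤ Real.log ((X - h : ℕ) : ℝ) := by
      have hX0 : (0:ℝ) < X := by nlinarith [sq_nonneg L]
      have g1 : (X : ℝ) / 2 ≤ ((X - h : ℕ) : ℝ) := by rw [hy]; linarith
      have g2 : Real.log ((X : ℝ) / 2) ≤ Real.log ((X - h : ℕ) : ℝ) := Real.log_le_log (by positivity) g1
      rw [Real.log_div hX0.ne' (by norm_num)] at g2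
      have g3 := Real.log_two_lt_d9
      have g4 : Real.log (X : ℝ) = L := by rw [hL, hX]
      rw [g4] at g2
      linarith
    obtain ⟨t', ht'⟩ : ∃ t' : ℕ, t' = max t (x i) := ⟨_, rfl⟩
    have e1 : (t' : ℝ) ≤ t + L := by
      have : t' ≤ t + x i := by omega
      have h5 : (t' : ℝ) ≤ t + x i := by exact_mod_cast this
      linarith
    have htX : (t : ℝ) ≤ X - h := by rw [← hy]; exact_mod_cast ht
    have e2 : (t' : ℝ) + σ' * L ^ 2 ≤ X := by
      have hL1 : L ≤ L ^ 2 := by nlinarith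
      have hs : σ' * L ^ 2 ≤ L ^ 2 := by nlinarith [sq_nonneg L]
      rcases max_cases t (x i) with ⟨hm, _⟩ | ⟨hm, _⟩
      · rw [ht', hm]; linarith [sq_nonneg L]
      · rw [ht', hm]; linarith [sq_nonneg L]
    obtain ⟨n, hnA, hn1, hn2⟩ := hGA t' (by omega) e2
    refine ⟨n, by omega, ?_, ((hA n).1 hnA).2⟩
    have e3 : σ * (L - 1) ^ 2 ≤ σ * Real.log ((X - h : ℕ) : ℝ) ^ 2 := by
      apply mul_le_mul_of_nonneg_left _ s3.le
      exact pow_le_pow_left₀ (by linarith) hylog 2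
    linarith

end Pool.Agent.H50.OI
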