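import Pool.Agent.H50.OI.Stm

/-! # Project OI: the law on one block `(a, X]` -/

set_option autoImplicit false

namespace Pool.Agent.H50.OI

open Finset MeasureTheory Filter Topology Q198.CI

theorem mass_mono_prop {I : Finset ℕ} {w : Finset ℕ → ℝ} {G G' : Finset ℕ → Prop}
    (hw : ∀ A ⊆ I, 0 ≤ w A) (h : ∀ A ⊆ I, G A → G' A) : mass I w G ≤ mass I w G' := by
  classical
  unfold mass
  refine sum_le_sum fun A hA => ?_
  have hA' := mem_powerset.1 hA
  by_cases h1 : G A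
  · rw [if_pos h1, if_pos (h A hA' h1)]
  · rw [if_neg h1]
    split_ifs
    · exact hw A hA'
    · exact le_rfl

/-- the windows of the sub-blocks are nonempty, so all intervals of length `h` are -/
theorem dense_of_windows {a X ℓ S : ℕ} {h : ℝ} {A : Finset ℕ} (hℓ : 0 < ℓ)
    (hh : ((S : ℝ) + 1) * ℓ ≤ h)
    (hA : ∀ j, j + S ≤ (X - a) / ℓ → ∃ n ∈ A, a + 1 + j * ℓ ≤ n ∧ n < a + 1 + (j + S) * ℓ) :
    Dense a X h A := by
  intro t hat htX
  have h1 : (((S + 1) * ℓ : ℕ) : ℝ) ≤ h := by push_cast; exact hh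
  have h2 : t + (S + 1) * ℓ ≤ X := by
    have : ((t + (S + 1) * ℓ : ℕ) : ℝ) ≤ X := by
      push_cast at h1 ⊢
      linarith
    exact_mod_cast this
  obtain ⟨d, hd⟩ : ∃ d, d = (t - a) / ℓ := ⟨_, rfl⟩
  have h3 : d * ℓ ≤ t - a := by rw [hd]; exact Nat.div_mul_le_self _ _
  have h4 : t - a < (d + 1) * ℓ := by
    rw [hd]
    exact Nat.lt_mul_of_div_lt (Nat.lt_succ_self _) hℓ
  have e1 : (d + 1 + S) * ℓ = d * ℓ + (S + 1) * ℓ := by ring
  obtain ⟨n, hn, hn1, hn2⟩ := hA (d + 1) (by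
    rw [Nat.le_div_iff_mul_le hℓ, e1]
    omega)
  refine ⟨n, hn, by omega, ?_⟩
  have h5 : n ≤ t + (S + 1) * ℓ := by
    rw [e1] at hn2
    omega
  have h6 : (n : ℝ) ≤ ((t + (S + 1) * ℓ : ℕ) : ℝ) := by exact_mod_cast h5
  push_cast at h6
  linarith

theorem one : S_PSI → S_BLK → S_THK → S_ONE := by
  intro hPSI hBLK hTHK ρ σ hρ hσ
  have hσ0 : 0 < σ := by linarith
  -- the number of sub-blocks in a window
  obtain ⟨S, hS⟩ := exists_nat_gt (3 * ρ / (4 * σ - ρ))
  have hd : 0 < 4 * σ - ρ := by linarith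
  have hS0 : (0 : ℝ) < S := lt_of_le_of_lt (by positivity) hS
  have hS1 : 1 ≤ S := by
    have : 0 < S := by exact_mod_cast hS0
    omega
  rw [div_lt_iff₀ hd] at hS
  have hS2 : ρ * (S + 3) < 4 * σ * S := by nlinarith
  obtain ⟨c, hc, hev⟩ := hPSI (ρ / (2 * S)) (σ / (S + 3)) (by positivity) (by
    rw [mul_div_assoc', div_lt_div_iff₀ (by positivity) (by positivity)]
    nlinarith)
  -- conditions on `L`
  have c1 : ∀ᶠ L : ℝ in atTop, 1 < L := eventually_gt_atTop 1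
  have c2 : ∀ᶠ L : ℝ in atTop, 12 ≤ Real.exp (c * L / 2) := by
    have : Tendsto (fun L : ℝ => Real.exp (c * L / 2)) atTop atTop := by
      refine Real.tendsto_exp_atTop.comp ?_
      have : Tendsto (fun L : ℝ => L * (c / 2)) atTop atTop :=
        tendsto_id.atTop_mul_const (by positivity)
      refine this.congr fun L => by ring
    exact this.eventually_ge_atTop 12
  have c3 : ∀ᶠ L : ℝ in atTop, S * Real.exp (-(c / (2 * S) * L)) ≤ 1 / L ^ 2 := by
    have h1 : Tendsto (fun L : ℝ => L ^ 2 * Real.exp (-(c / (2 * S) * L))) atTop (𝓝 0) := by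
      have hb : 0 < c / (2 * S) := by positivity
      have h2 := Real.tendsto_pow_mul_exp_neg_atTop_nhds_zero 2
      have h3 : Tendsto (fun L : ℝ => c / (2 * S) * L) atTop atTop :=
        tendsto_id.const_mul_atTop hb
      have h4 := (h2.comp h3).const_mul ((c / (2 * S)) ^ 2)⁻¹
      rw [mul_zero] at h4
      refine h4.congr fun L => ?_
      simp only [Function.comp]
      field_simp
    have h5 := h1.eventually (gt_mem_nhds (show (0 : ℝ) < 1 / S by positivity))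
    filter_upwards [h5, eventually_gt_atTop 0] with L hL hL0
    have h6 : 0 < L ^ 2 := by positivity
    rw [lt_div_iff₀ hS0] at hL
    rw [le_div_iff₀ h6]
    nlinarith
  have c4 : ∀ᶠ L : ℝ in atTop, ((S : ℝ) + 1) * (S + 3) ≤ 2 * (σ * L ^ 2) := by
    have : Tendsto (fun L : ℝ => 2 * (σ * L ^ 2)) atTop atTop := by
      have h1 : Tendsto (fun L : ℝ => L ^ 2) atTop atTop := tendsto_pow_atTop (by norm_num)
      exact (h1.const_mul_atTop hσ0).const_mul_atTop (by norm_num)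
    exact this.eventually_ge_atTop _
  have hlog : Tendsto (fun X : ℕ => Real.log X) atTop atTop :=
    Real.tendsto_log_atTop.comp tendsto_natCast_atTop_atTop
  filter_upwards [hlog.eventually (hev.and (c1.and (c2.and (c3.and c4)))),
    eventually_ge_atTop 3] with X hX hX3
  obtain ⟨hψ, hL1, hL2, hL3, hL4⟩ := hX
  intro a K ha haX hK
  set L : ℝ := Real.log X with hL
  have hL0 : 0 < L := by linarith
  obtain ⟨m, hm⟩ : ∃ m, m = K / (2 * S) := ⟨_, rfl⟩
  obtain ⟨ℓ, hℓ⟩ : ∃ ℓ, ℓ = ⌈σ / (S + 3) * L ^ 2⌉₊ := ⟨_, rfl⟩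
  have hpos : 0 < σ / (S + 3) * L ^ 2 := by positivity
  have hℓ0 : 0 < ℓ := by rw [hℓ]; exact Nat.ceil_pos.2 hpos
  have hℓ1 : σ / (S + 3) * L ^ 2 ≤ ℓ := by rw [hℓ]; exact Nat.le_ceil _
  have hℓ2 : (ℓ : ℝ) < σ / (S + 3) * L ^ 2 + 1 := by
    rw [hℓ]; exact Nat.ceil_lt_add_one hpos.le
  have hm1 : (m : ℝ) ≤ ρ / (2 * S) * L := by
    have h1 : ((K / (2 * S) : ℕ) : ℝ) ≤ (K : ℝ) / ((2 * S : ℕ) : ℝ) := Nat.cast_div_le
    rw [hm]
    refine h1.trans ?_
    push_cast
    rw [div_mul_eq_mul_div]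
    exact div_le_div_of_nonneg_right hK (by positivity)
  have hm2 : K < 2 * S * (m + 1) := by
    rw [hm]
    have := Nat.lt_mul_div_succ K (show 0 < 2 * S by omega)
    simpa using this
  obtain ⟨ψ, hψ'⟩ := hψ ℓ m hm1 hℓ1
  set τ : ℝ := Real.exp (-(c / (2 * S) * L)) with hτ
  have hτ0 : 0 < τ := Real.exp_pos _
  have hτ1 : τ < 1 := by
    rw [hτ, Real.exp_lt_one_iff]
    have : 0 < c / (2 * S) * L := by positivity
    linarith
  have hτS : τ ^ S = Real.exp (-(c * L / 2)) := by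
    rw [hτ, ← Real.exp_nat_mul]
    congr 1
    field_simp
  have hβ : 12 * Real.exp (-(c * L)) ≤ τ ^ S := by
    rw [hτS]
    have e : Real.exp (-(c * L)) = Real.exp (-(c * L / 2)) * Real.exp (-(c * L / 2)) := by
      rw [← Real.exp_add]; congr 1; ring
    have e2 : Real.exp (-(c * L / 2)) * Real.exp (c * L / 2) = 1 := by
      rw [← Real.exp_add]; simp
    have h1 := Real.exp_pos (-(c * L / 2))
    have h2 : Real.exp (-(c * L / 2)) * 12 ≤ 1 := by
      calc _ ≤ Real.exp (-(c * L / 2)) * Real.exp (c * L / 2) :=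
            mul_le_mul_of_nonneg_left hL2 h1.le
        _ = 1 := e2
    rw [e]
    nlinarith
  have hp0 : 0 < 1 / L := by positivity
  have hp1 : 1 / L < 1 := by rw [div_lt_one hL0]; exact hL1
  obtain ⟨w, hw, hmass⟩ := hBLK ℓ m S ((X - a) / ℓ) (a + 1) K (1 / L) (Real.exp (-(c * L))) τ ψ
    hS1 hp0 hp1 hτ0 hτ1 (Real.exp_pos _).le hβ hm2 hψ'
  have hN : (X - a) / ℓ * ℓ ≤ X - a := Nat.div_mul_le_self _ _
  have hsub : Ico (a + 1) (a + 1 + (X - a) / ℓ * ℓ) ⊆ Ioc a X := by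
    intro n hn
    rw [mem_Ico] at hn
    rw [mem_Ioc]
    omega
  have hlog1 : ∀ n : ℕ, 3 ≤ n → 1 < Real.log n := by
    intro n hn
    have h1 : Real.exp 1 < 3 := by
      have := Real.exp_one_lt_d9
      linarith
    have h2 : (3 : ℝ) ≤ n := by exact_mod_cast hn
    rw [Real.lt_log_iff_exp_lt (by linarith)]
    linarith
  have hcp : ∀ n : ℕ, 3 ≤ n → cp n = 1 / Real.log n := fun n hn => by
    unfold cp
    rw [if_pos hn]
  obtain ⟨w', hw', hmono⟩ := hTHK _ (Ioc a X) K (fun _ => 1 / L) cp w hsub hw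
    (fun n hn => by
      refine ⟨hp1, ?_⟩
      have hn' := hsub hn
      rw [mem_Ioc] at hn'
      have h3 : 3 ≤ n := by omega
      rw [hcp n h3]
      have h1 := hlog1 n h3
      refine one_div_le_one_div_of_le (by linarith) ?_
      exact Real.log_le_log (by positivity) (by exact_mod_cast hn'.2))
    (fun n hn => by
      rw [mem_Ioc] at hn
      have h3 : 3 ≤ n := by omega
      have h1 := hlog1 n h3
      refine ⟨cp_nonneg n, ?_⟩
      rw [hcp n h3, div_le_one (by linarith)]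
      exact h1.le)
  refine ⟨w', hw', ?_⟩
  have b1 : 1 - 1 / L ^ 2 ≤ (1 - τ) ^ S := by
    have h1 := one_add_mul_le_pow (show (-2 : ℝ) ≤ -τ by linarith) S
    have e : (1 : ℝ) + -τ = 1 - τ := by ring
    rw [e] at h1
    linarith
  have b2 := mass_mono_prop (G' := Dense a X (σ * L ^ 2)) hw.1 (fun A _ hA =>
    dense_of_windows hℓ0 (h := σ * L ^ 2) (S := S) (by
      have h1 : ((S : ℝ) + 1) * ℓ ≤ (S + 1) * (σ / (S + 3) * L ^ 2 + 1) :=
        mul_le_mul_of_nonneg_left hℓ2.le (by positivity)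
      refine h1.trans ?_
      have h3 : (0 : ℝ) < S + 3 := by positivity
      have e : ((S : ℝ) + 1) * (σ / (S + 3) * L ^ 2 + 1) =
          ((S + 1) * (σ * L ^ 2) + (S + 1) * (S + 3)) / (S + 3) := by
        field_simp
      rw [e, div_le_iff₀ h3]
      nlinarith) hA)
  have b3 := hmono (Dense a X (σ * L ^ 2)) (fun A B hAB h t h1 h2 => by
    obtain ⟨n, hn, h3⟩ := h t h1 h2
    exact ⟨n, hAB hn, h3⟩)
  exact b1.trans (hmass.trans (b2.trans b3))

end Pool.Agent.H50.OI
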