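import Pool.Agent.H50.OI.Stm

/-! # Project OI: two disjoint empty intervals -/

set_option autoImplicit false
set_option linter.unusedSectionVars false

namespace Pool.Agent.H50.OI

open Finset MeasureTheory Filter Topology

namespace PAIaux

variable {Ω : Type} [MeasurableSpace Ω] {P : Measure Ω} [IsProbabilityMeasure P]
  {E : ℕ → Set Ω} {p : ℕ → ℝ}

open Classical in
/-- the indicator function -/
noncomputable def ind (E : ℕ → Set Ω) (n : ℕ) (ω : Ω) : ℝ := if ω ∈ E n then 1 else 0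

lemma prod_ind (T : Finset ℕ) (ω : Ω) :
    ∏ n ∈ T, ind E n ω = (⋂ n ∈ T, E n).indicator (fun _ => (1 : ℝ)) ω := by
  classical
  by_cases h : ω ∈ ⋂ n ∈ T, E n
  · rw [Set.indicator_of_mem h]
    refine Finset.prod_eq_one fun n hn => ?_
    unfold ind
    rw [if_pos (Set.mem_iInter₂.1 h n hn)]
  · rw [Set.indicator_of_notMem h]
    rw [Set.mem_iInter₂] at h
    push Not at h
    obtain ⟨n, hn, h2⟩ := h
    refine Finset.prod_eq_zero hn ?_
    unfold ind
    rw [if_neg h2]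

lemma meas_inter (hE : ∀ n, MeasurableSet (E n)) (T : Finset ℕ) :
    MeasurableSet (⋂ n ∈ T, E n) := Finset.measurableSet_biInter _ fun n _ => hE n

lemma int_ind (hE : ∀ n, MeasurableSet (E n)) (T : Finset ℕ) :
    Integrable (fun ω => ∏ n ∈ T, ind E n ω) P := by
  have : (fun ω => ∏ n ∈ T, ind E n ω) = (⋂ n ∈ T, E n).indicator (fun _ => (1 : ℝ)) := by
    funext ω
    exact prod_ind T ω
  rw [this]
  exact (integrable_const (1 : ℝ)).indicator (meas_inter hE T)

lemma integral_ind (hE : ∀ n, MeasurableSet (E n)) (T : Finset ℕ) (hp : ∀ n ∈ T, 0 ≤ p n)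
    (hT : P (⋂ n ∈ T, E n) = ENNReal.ofReal (∏ n ∈ T, p n)) :
    ∫ ω, ∏ n ∈ T, ind E n ω ∂P = ∏ n ∈ T, p n := by
  have : (fun ω => ∏ n ∈ T, ind E n ω) = (⋂ n ∈ T, E n).indicator (fun _ => (1 : ℝ)) := by
    funext ω
    exact prod_ind T ω
  rw [this, integral_indicator (meas_inter hE T)]
  simp only [integral_const, smul_eq_mul, mul_one, measureReal_restrict_apply_univ]
  rw [Measure.real, hT, ENNReal.toReal_ofReal (Finset.prod_nonneg hp)]

lemma prod_expand (U : Finset ℕ) (α β : ℕ → ℝ) (x : ℕ → ℝ) :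
    ∏ n ∈ U, (β n * x n + α n) =
      ∑ T ∈ U.powerset, ((∏ n ∈ T, β n) * ∏ n ∈ U \ T, α n) * ∏ n ∈ T, x n := by
  classical
  rw [Finset.prod_add]
  refine Finset.sum_congr rfl fun T _ => ?_
  rw [Finset.prod_mul_distrib]
  ring

lemma integral_prod (hE : ∀ n, MeasurableSet (E n)) (U : Finset ℕ) (α β : ℕ → ℝ)
    (hp : ∀ n ∈ U, 0 ≤ p n)
    (hU : ∀ T ⊆ U, P (⋂ n ∈ T, E n) = ENNReal.ofReal (∏ n ∈ T, p n)) :
    ∫ ω, ∏ n ∈ U, (β n * ind E n ω + α n) ∂P = ∏ n ∈ U, (β n * p n + α n) := by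
  classical
  simp_rw [prod_expand U α β]
  rw [integral_finsetSum _ fun T _ => (int_ind hE T).const_mul _]
  refine Finset.sum_congr rfl fun T hT => ?_
  have hT' := Finset.mem_powerset.1 hT
  rw [integral_const_mul, integral_ind hE T (fun n hn => hp n (hT' hn)) (hU T hT')]

/-- the orthogonal variables -/
noncomputable def u (E : ℕ → Set Ω) (p : ℕ → ℝ) (n : ℕ) (ω : Ω) : ℝ :=
  (p n - ind E n ω) / (1 - p n)

lemma ind_sq (n : ℕ) (ω : Ω) : ind E n ω ^ 2 = ind E n ω := by
  classical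
  unfold ind
  split_ifs <;> norm_num

open Classical in
lemma u_mul (S₁ S₂ : Finset ℕ) (ω : Ω) (hp : ∀ n ∈ S₁ ∪ S₂, p n < 1) :
    (∏ n ∈ S₁, u E p n ω) * ∏ n ∈ S₂, u E p n ω =
      ∏ n ∈ S₁ ∪ S₂, ((if n ∈ S₁ ∩ S₂ then (1 - 2 * p n) / (1 - p n) ^ 2 else -1 / (1 - p n)) *
        ind E n ω + (if n ∈ S₁ ∩ S₂ then p n ^ 2 / (1 - p n) ^ 2 else p n / (1 - p n))) := by
  have h1 : ∏ n ∈ S₁, u E p n ω = ∏ n ∈ S₁ ∪ S₂, (if n ∈ S₁ then u E p n ω else 1) := by
    rw [Finset.prod_ite, Finset.prod_const_one, mul_one]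
    refine Finset.prod_congr ?_ fun _ _ => rfl
    ext n
    simp only [mem_filter, mem_union]
    tauto
  have h2 : ∏ n ∈ S₂, u E p n ω = ∏ n ∈ S₁ ∪ S₂, (if n ∈ S₂ then u E p n ω else 1) := by
    rw [Finset.prod_ite, Finset.prod_const_one, mul_one]
    refine Finset.prod_congr ?_ fun _ _ => rfl
    ext n
    simp only [mem_filter, mem_union]
    tauto
  rw [h1, h2, ← Finset.prod_mul_distrib]
  refine Finset.prod_congr rfl fun n hn => ?_
  have hpn : 1 - p n ≠ 0 := by
    have := hp n hn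
    linarith
  have hi := ind_sq (E := E) n ω
  rcases Finset.mem_union.1 hn with h | h
  · by_cases h' : n ∈ S₂
    · simp only [h, h', mem_inter, and_self, if_true]
      unfold u
      field_simp
      linear_combination hi
    · simp only [h, h', mem_inter, and_false, if_true, if_false]
      unfold u
      field_simp
      ring
  · by_cases h' : n ∈ S₁
    · simp only [h, h', mem_inter, and_self, if_true]
      unfold u
      field_simp
      linear_combination hi
    · simp only [h, h', mem_inter, false_and, if_true, if_false]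
      unfold u
      field_simp
      ring

open Classical in
lemma orth (hE : ∀ n, MeasurableSet (E n)) (S₁ S₂ : Finset ℕ)
    (hp : ∀ n ∈ S₁ ∪ S₂, 0 ≤ p n ∧ p n < 1)
    (hU : ∀ T ⊆ S₁ ∪ S₂, P (⋂ n ∈ T, E n) = ENNReal.ofReal (∏ n ∈ T, p n)) :
    ∫ ω, (∏ n ∈ S₁, u E p n ω) * ∏ n ∈ S₂, u E p n ω ∂P =
      if S₁ = S₂ then ∏ n ∈ S₁, (p n / (1 - p n)) else 0 := by
  have h1 : ∀ ω, (∏ n ∈ S₁, u E p n ω) * ∏ n ∈ S₂, u E p n ω = _ :=
    fun ω => u_mul S₁ S₂ ω fun n hn => (hp n hn).2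
  simp_rw [h1]
  rw [integral_prod (p := p) hE (S₁ ∪ S₂) _ _ (fun n hn => (hp n hn).1) hU]
  split_ifs with h
  · subst h
    rw [Finset.union_self]
    refine Finset.prod_congr rfl fun n hn => ?_
    have hpn : 1 - p n ≠ 0 := by
      have := (hp n (by rw [Finset.union_self]; exact hn)).2
      linarith
    simp only [hn, Finset.inter_self, if_true]
    field_simp
    ring
  · obtain ⟨n, hn, hn2⟩ : ∃ n ∈ S₁ ∪ S₂, n ∉ S₁ ∩ S₂ := by
      by_contra hcon
      push Not at hcon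
      apply h
      ext n
      constructor
      · intro hn
        exact (Finset.mem_inter.1 (hcon n (Finset.mem_union_left _ hn))).2
      · intro hn
        exact (Finset.mem_inter.1 (hcon n (Finset.mem_union_right _ hn))).1
    refine Finset.prod_eq_zero hn ?_
    have hpn : 1 - p n ≠ 0 := by
      have := (hp n hn).2
      linarith
    rw [if_neg hn2, if_neg hn2]
    field_simp
    ring

end PAIaux

open PAIaux

theorem pai : S_PAI := by
  classical
  intro Ω _ P _ E I J s p hE hIJ hp hind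
  set r : ℕ → ℝ := fun n => p n / (1 - p n) with hr
  have hr0 : ∀ n ∈ I ∪ J, 0 ≤ r n := fun n hn =>
    div_nonneg (hp n hn).1 (by linarith [(hp n hn).2])
  -- the index set
  set 𝒮 : Finset (Finset ℕ × Finset ℕ) :=
    (I.powerset.filter (fun T => T.card ≤ s)) ×ˢ (J.powerset.filter (fun T => T.card ≤ s)) with h𝒮
  have hmem : ∀ t ∈ 𝒮, t.1 ⊆ I ∧ t.1.card ≤ s ∧ t.2 ⊆ J ∧ t.2.card ≤ s := by
    intro t ht
    rw [h𝒮, Finset.mem_product, Finset.mem_filter, Finset.mem_filter, Finset.mem_powerset,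
      Finset.mem_powerset] at ht
    exact ⟨ht.1.1, ht.1.2, ht.2.1, ht.2.2⟩
  set F : Ω → ℝ := fun ω => ∑ t ∈ 𝒮, ∏ n ∈ t.1 ∪ t.2, u E p n ω with hF
  have hsub : ∀ t ∈ 𝒮, t.1 ∪ t.2 ⊆ I ∪ J := fun t ht =>
    Finset.union_subset_union (hmem t ht).1 (hmem t ht).2.2.1
  have hcard : ∀ t ∈ 𝒮, (t.1 ∪ t.2).card ≤ 2 * s := by
    intro t ht
    have h1 := Finset.card_union_le t.1 t.2
    have h2 := (hmem t ht).2.1
    have h3 := (hmem t ht).2.2.2
    omega
  have hinj : ∀ t ∈ 𝒮, ∀ t' ∈ 𝒮, t.1 ∪ t.2 = t'.1 ∪ t'.2 → t = t' := by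
    intro t ht t' ht' h
    have h1 : ∀ q ∈ 𝒮, q.1 = (q.1 ∪ q.2) ∩ I := by
      intro q hq
      ext n
      constructor
      · intro hn
        exact Finset.mem_inter.2 ⟨Finset.mem_union_left _ hn, (hmem q hq).1 hn⟩
      · intro hn
        obtain ⟨h4, h5⟩ := Finset.mem_inter.1 hn
        rcases Finset.mem_union.1 h4 with h6 | h6
        · exact h6
        · exact absurd ((hmem q hq).2.2.1 h6) (Finset.disjoint_left.1 hIJ h5)
    have h2 : ∀ q ∈ 𝒮, q.2 = (q.1 ∪ q.2) ∩ J := by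
      intro q hq
      ext n
      constructor
      · intro hn
        exact Finset.mem_inter.2 ⟨Finset.mem_union_right _ hn, (hmem q hq).2.2.1 hn⟩
      · intro hn
        obtain ⟨h4, h5⟩ := Finset.mem_inter.1 hn
        rcases Finset.mem_union.1 h4 with h6 | h6
        · exact absurd h5 (Finset.disjoint_left.1 hIJ ((hmem q hq).1 h6))
        · exact h6
    refine Prod.ext ?_ ?_
    · rw [h1 t ht, h1 t' ht', h]
    · rw [h2 t ht, h2 t' ht', h]
  -- the norm
  have hKK : ∑ t ∈ 𝒮, ∏ n ∈ t.1 ∪ t.2, r n = KI p s I * KI p s J := by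
    unfold KI
    rw [Finset.sum_mul_sum, h𝒮, Finset.sum_product]
    refine Finset.sum_congr rfl fun T hT => Finset.sum_congr rfl fun T' hT' => ?_
    rw [Finset.mem_filter, Finset.mem_powerset] at hT hT'
    rw [Finset.prod_union (Finset.disjoint_of_subset_left hT.1
      (Finset.disjoint_of_subset_right hT'.1 hIJ))]
  have huint : ∀ t ∈ 𝒮, ∀ t' ∈ 𝒮, Integrable (fun ω => (∏ n ∈ t.1 ∪ t.2, u E p n ω) *
      ∏ n ∈ t'.1 ∪ t'.2, u E p n ω) P := by
    intro t ht t' ht'
    have h1 : (fun ω => (∏ n ∈ t.1 ∪ t.2, u E p n ω) * ∏ n ∈ t'.1 ∪ t'.2, u E p n ω) = _ :=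
      funext fun ω => u_mul (t.1 ∪ t.2) (t'.1 ∪ t'.2) ω fun n hn => by
        rcases Finset.mem_union.1 hn with h | h
        · exact (hp n (hsub t ht h)).2
        · exact (hp n (hsub t' ht' h)).2
    rw [h1]
    simp_rw [prod_expand]
    exact integrable_finsetSum _ fun T _ => (int_ind hE T).const_mul _
  have hF2 : (fun ω => F ω ^ 2) = fun ω => ∑ t ∈ 𝒮, ∑ t' ∈ 𝒮,
      (∏ n ∈ t.1 ∪ t.2, u E p n ω) * ∏ n ∈ t'.1 ∪ t'.2, u E p n ω := by
    funext ω
    rw [hF, sq, Finset.sum_mul_sum]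
  have hF2i : Integrable (fun ω => F ω ^ 2) P := by
    rw [hF2]
    exact integrable_finsetSum _ fun t ht => integrable_finsetSum _ fun t' ht' => huint t ht t' ht'
  have hF2int : ∫ ω, F ω ^ 2 ∂P = KI p s I * KI p s J := by
    rw [hF2, integral_finsetSum _ fun t ht => integrable_finsetSum _ fun t' ht' => huint t ht t' ht',
      ← hKK]
    refine Finset.sum_congr rfl fun t ht => ?_
    rw [integral_finsetSum _ fun t' ht' => huint t ht t' ht']
    have h1 : ∀ t' ∈ 𝒮, ∫ ω, (∏ n ∈ t.1 ∪ t.2, u E p n ω) * ∏ n ∈ t'.1 ∪ t'.2, u E p n ω ∂P =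
        if t = t' then ∏ n ∈ t.1 ∪ t.2, r n else 0 := by
      intro t' ht'
      rw [orth hE (t.1 ∪ t.2) (t'.1 ∪ t'.2)]
      · by_cases h : t = t'
        · rw [if_pos h, if_pos (by rw [h])]
        · rw [if_neg h, if_neg (fun h2 => h (hinj t ht t' ht' h2))]
      · intro n hn
        rcases Finset.mem_union.1 hn with h | h
        · exact hp n (hsub t ht h)
        · exact hp n (hsub t' ht' h)
      · intro T hT
        apply hind T (hT.trans (Finset.union_subset (hsub t ht) (hsub t' ht')))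
        have h2 := Finset.card_le_card hT
        have h3 := Finset.card_union_le (t.1 ∪ t.2) (t'.1 ∪ t'.2)
        have h4 := hcard t ht
        have h5 := hcard t' ht'
        omega
    rw [Finset.sum_congr rfl h1, Finset.sum_ite_eq 𝒮 t, if_pos ht]
  -- the value on the event
  set Z : Set Ω := (⋂ n ∈ I, (E n)ᶜ) ∩ ⋂ n ∈ J, (E n)ᶜ with hZ
  have hZm : MeasurableSet Z :=
    (Finset.measurableSet_biInter _ fun n _ => (hE n).compl).inter
      (Finset.measurableSet_biInter _ fun n _ => (hE n).compl)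
  have hZF : ∀ ω ∈ Z, F ω = KI p s I * KI p s J := by
    intro ω hω
    rw [← hKK]
    refine Finset.sum_congr rfl fun t ht => Finset.prod_congr rfl fun n hn => ?_
    have h1 : ω ∉ E n := by
      rcases Finset.mem_union.1 (hsub t ht hn) with h | h
      · exact Set.mem_iInter₂.1 hω.1 n h
      · exact Set.mem_iInter₂.1 hω.2 n h
    unfold u ind
    rw [if_neg h1, sub_zero]
  have hK1 : ∀ W : Finset ℕ, W ⊆ I ∪ J → 1 ≤ KI p s W := by
    intro W hW
    unfold KI
    have h1 : (∅ : Finset ℕ) ∈ W.powerset.filter (fun T => T.card ≤ s) := by simp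
    have h2 : ∀ T ∈ W.powerset.filter (fun T => T.card ≤ s), 0 ≤ ∏ n ∈ T, (p n / (1 - p n)) := by
      intro T hT
      rw [Finset.mem_filter, Finset.mem_powerset] at hT
      exact Finset.prod_nonneg fun n hn => hr0 n (hW (hT.1 hn))
    calc (1 : ℝ) = ∏ n ∈ (∅ : Finset ℕ), (p n / (1 - p n)) := by simp
      _ ≤ _ := Finset.single_le_sum h2 h1
  have hKI := hK1 I Finset.subset_union_left
  have hKJ := hK1 J Finset.subset_union_right
  set K : ℝ := KI p s I * KI p s J with hK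
  have hKpos : 0 < K := by positivity
  have hmain : K ^ 2 * P.real Z ≤ K := by
    have h1 : ∫ ω, Z.indicator (fun _ => K ^ 2) ω ∂P = K ^ 2 * P.real Z := by
      rw [integral_indicator hZm]
      simp [mul_comm]
    calc K ^ 2 * P.real Z = ∫ ω, Z.indicator (fun _ => K ^ 2) ω ∂P := h1.symm
      _ ≤ ∫ ω, F ω ^ 2 ∂P := by
        refine integral_mono ((integrable_const _).indicator hZm) hF2i ?_
        intro ω
        show Z.indicator (fun _ => K ^ 2) ω ≤ F ω ^ 2
        by_cases h : ω ∈ Z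
        · rw [Set.indicator_of_mem h, hZF ω h]
        · rw [Set.indicator_of_notMem h]
          exact sq_nonneg _
      _ = K := hF2int
  have hfin : P.real Z ≤ 1 / KI p s I * (1 / KI p s J) := by
    have h1 : 1 / KI p s I * (1 / KI p s J) = 1 / K := by
      rw [hK]
      field_simp
    rw [h1, le_div_iff₀ hKpos]
    have h2 : K * (P.real Z * K) ≤ K * 1 := by nlinarith
    exact le_of_mul_le_mul_left h2 hKpos
  rw [← ENNReal.ofReal_toReal (measure_ne_top P Z)]
  exact ENNReal.ofReal_le_ofReal hfin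

end Pool.Agent.H50.OI
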