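import Pool.Agent.H50.OI.Stm

/-! # Positivity of the partition function -/

set_option autoImplicit false

namespace Pool.Agent.H50.OI

open Finset

namespace POS

/-- length of the trailing run -/
def run : ℕ → Finset ℕ → ℕ
  | 0, _ => 0
  | n + 1, b => if n ∈ b then run n b + 1 else 0

/-- product of the factors of the windows -/
noncomputable def WW (S : ℕ) (y : ℕ → ℝ) : ℕ → Finset ℕ → ℝ
  | 0, _ => 1
  | n + 1, b => WW S y n b * (if S ≤ run (n + 1) b then y (n + 1 - S) else 1)

/-- weight -/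
noncomputable def wt (ψ : ℕ → ℝ) (n : ℕ) (b : Finset ℕ) : ℝ :=
  ∏ i ∈ range n, (if i ∈ b then ψ i else 1 - ψ i)

lemma run_congr : ∀ (n : ℕ) {b b' : Finset ℕ}, (∀ i < n, i ∈ b ↔ i ∈ b') → run n b = run n b'
  | 0, _, _, _ => rfl
  | n + 1, b, b', h => by
    have h1 := run_congr n (b := b) (b' := b') fun i hi => h i (by omega)
    have h2 := h n (by omega)
    unfold run
    by_cases h3 : n ∈ b
    · rw [if_pos h3, if_pos (h2.1 h3), h1]
    · rw [if_neg h3, if_neg (fun h4 => h3 (h2.2 h4))]

lemma WW_congr (S : ℕ) (y : ℕ → ℝ) : ∀ (n : ℕ) {b b' : Finset ℕ}, (∀ i < n, i ∈ b ↔ i ∈ b') →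
    WW S y n b = WW S y n b'
  | 0, _, _, _ => rfl
  | n + 1, b, b', h => by
    have h1 := WW_congr S y n (b := b) (b' := b') fun i hi => h i (by omega)
    have h2 := run_congr (n + 1) h
    unfold WW
    rw [h1, h2]

lemma wt_congr (ψ : ℕ → ℝ) (n : ℕ) {b b' : Finset ℕ} (h : ∀ i < n, i ∈ b ↔ i ∈ b') :
    wt ψ n b = wt ψ n b' := by
  unfold wt
  refine prod_congr rfl fun i hi => ?_
  have := h i (mem_range.1 hi)
  by_cases h3 : i ∈ b
  · rw [if_pos h3, if_pos (this.1 h3)]
  · rw [if_neg h3, if_neg (fun h4 => h3 (this.2 h4))]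

lemma run_le : ∀ (n : ℕ) (b : Finset ℕ), run n b ≤ n
  | 0, _ => le_rfl
  | n + 1, b => by
    unfold run
    split_ifs
    · have := run_le n b
      omega
    · omega

lemma run_iff : ∀ (n S : ℕ) (b : Finset ℕ), S ≤ run n b ↔ S ≤ n ∧ Ico (n - S) n ⊆ b
  | 0, S, b => by
    unfold run
    constructor
    · intro h
      refine ⟨h, ?_⟩
      intro x hx
      rw [mem_Ico] at hx
      omega
    · exact fun h => h.1
  | n + 1, S, b => by
    rcases Nat.eq_zero_or_pos S with rfl | hS
    · simp
    unfold run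
    split_ifs with h
    · have ih := run_iff n (S - 1) b
      have e1 : S ≤ run n b + 1 ↔ S - 1 ≤ run n b := by omega
      rw [e1, ih]
      constructor
      · rintro ⟨h1, h2⟩
        refine ⟨by omega, fun x hx => ?_⟩
        rw [mem_Ico] at hx
        by_cases hxn : x = n
        · rw [hxn]; exact h
        · exact h2 (mem_Ico.2 ⟨by omega, by omega⟩)
      · rintro ⟨h1, h2⟩
        refine ⟨by omega, fun x hx => ?_⟩
        rw [mem_Ico] at hx
        exact h2 (mem_Ico.2 ⟨by omega, by omega⟩)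
    · constructor
      · intro h1; omega
      · rintro ⟨h1, h2⟩
        exact absurd (h2 (mem_Ico.2 ⟨by omega, by omega⟩)) h

lemma WW_eq {S : ℕ} (hS : 1 ≤ S) (y : ℕ → ℝ) : ∀ (n : ℕ) (b : Finset ℕ),
    WW S y n b = ∏ j ∈ range (n + 1 - S), (if Ico j (j + S) ⊆ b then y j else 1)
  | 0, b => by
    have : 0 + 1 - S = 0 := by omega
    rw [this]
    simp [WW]
  | n + 1, b => by
    have ih := WW_eq hS y n b
    by_cases h : S ≤ n + 1
    · have e : n + 1 + 1 - S = (n + 1 - S) + 1 := by omega
      rw [e, prod_range_succ, ← ih]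
      conv_lhs => rw [WW]
      congr 1
      have h1 := run_iff (n + 1) S b
      have e2 : n + 1 - S + S = n + 1 := by omega
      rw [e2]
      by_cases h2 : Ico (n + 1 - S) (n + 1) ⊆ b
      · rw [if_pos h2, if_pos (h1.2 ⟨h, h2⟩)]
      · rw [if_neg h2, if_neg (fun h3 => h2 (h1.1 h3).2)]
    · have e : n + 1 + 1 - S = 0 := by omega
      have e' : n + 1 - S = 0 := by omega
      rw [e' ] at ih
      rw [e]
      simp only [range_zero, prod_empty] at ih ⊢
      rw [WW, ih, one_mul, if_neg]
      intro h3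
      have := run_le (n + 1) b
      omega

/-- the weight of the states -/
noncomputable def F (S : ℕ) (ψ y : ℕ → ℝ) (n k : ℕ) : ℝ :=
  ∑ b ∈ (range n).powerset, if run n b = k then wt ψ n b * WW S y n b else 0

variable {S : ℕ} {ψ y : ℕ → ℝ}

lemma sum_F (n : ℕ) : ∑ k ∈ range (n + 1), F S ψ y n k =
    ∑ b ∈ (range n).powerset, wt ψ n b * WW S y n b := by
  unfold F
  rw [sum_comm]
  refine sum_congr rfl fun b _ => ?_
  rw [sum_ite_eq, if_pos]
  rw [mem_range]
  have := run_le n b
  omega

lemma F_succ_zero (hS : 1 ≤ S) (n : ℕ) :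
    F S ψ y (n + 1) 0 = (1 - ψ n) * ∑ k ∈ range (n + 1), F S ψ y n k := by
  have hn : n ∉ range n := by simp
  rw [sum_F, F, range_add_one, sum_powerset_insert hn, mul_sum]
  have h2 : ∑ t ∈ (range n).powerset, (if run (n + 1) (insert n t) = 0 then
      wt ψ (n + 1) (insert n t) * WW S y (n + 1) (insert n t) else 0) = 0 := by
    refine sum_eq_zero fun b _ => ?_
    rw [if_neg]
    rw [run, if_pos (mem_insert_self _ _)]
    omega
  rw [h2, add_zero]
  refine sum_congr rfl fun b hb => ?_
  have hnb : n ∉ b := fun h => hn (mem_powerset.1 hb h)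
  have hr : run (n + 1) b = 0 := by rw [run, if_neg hnb]
  rw [if_pos hr, WW, hr, if_neg (by omega), mul_one, wt, prod_range_succ, if_neg hnb]
  unfold wt
  ring

lemma F_succ_succ (n k : ℕ) : F S ψ y (n + 1) (k + 1) =
    ψ n * (F S ψ y n k * (if S ≤ k + 1 then y (n + 1 - S) else 1)) := by
  have hn : n ∉ range n := by simp
  rw [F, range_add_one, sum_powerset_insert hn]
  have h2 : ∑ t ∈ (range n).powerset, (if run (n + 1) t = k + 1 then
      wt ψ (n + 1) t * WW S y (n + 1) t else 0) = 0 := by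
    refine sum_eq_zero fun b hb => ?_
    have hnb : n ∉ b := fun h => hn (mem_powerset.1 hb h)
    rw [if_neg]
    rw [run, if_neg hnb]
    omega
  rw [h2, zero_add, F, sum_mul, mul_sum]
  refine sum_congr rfl fun b hb => ?_
  have hnb : n ∉ b := fun h => hn (mem_powerset.1 hb h)
  have hc : ∀ i < n, i ∈ insert n b ↔ i ∈ b := by
    intro i hi
    rw [mem_insert]
    constructor
    · rintro (h | h)
      · omega
      · exact h
    · exact fun h => Or.inr h
  have hr : run (n + 1) (insert n b) = run n b + 1 := by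
    rw [run, if_pos (mem_insert_self _ _), run_congr n hc]
  by_cases hk : run n b = k
  · rw [if_pos (by rw [hr, hk]), if_pos hk, WW, hr, hk, WW_congr S y n hc, wt, prod_range_succ,
      if_pos (mem_insert_self _ _)]
    have : ∏ x ∈ range n, (if x ∈ insert n b then ψ x else 1 - ψ x) = wt ψ n b := wt_congr ψ n hc
    rw [this]
    ring
  · rw [if_neg (by rw [hr]; omega), if_neg hk]
    ring

lemma F_zero (k : ℕ) : F S ψ y 0 k = if k = 0 then 1 else 0 := by
  unfold F
  simp only [range_zero, powerset_empty, sum_singleton, run, wt, prod_empty, WW, one_mul]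
  by_cases h : k = 0
  · rw [if_pos h, if_pos h.symm]
  · rw [if_neg h, if_neg (fun h' => h h'.symm)]

/-- the invariant -/
lemma inv {β τ : ℝ} (hS : 1 ≤ S) (hτ : 0 < τ) (hτ1 : τ < 1) (hβ : 0 ≤ β)
    (hβτ : 12 * β ≤ τ ^ S) (hψ : ∀ i, ψ i = 1 ∨ |ψ i| ≤ β) (hy : ∀ j, 0 ≤ y j ∧ y j ≤ 1 / τ) :
    ∀ n : ℕ, ∃ t : ℕ, t ≤ n ∧ (∀ k < t, F S ψ y n k = 0) ∧ 0 ≤ F S ψ y n t ∧
      (∑ k ∈ Ioc t n, |F S ψ y n k|) * τ ^ (min t (S - 1) + 1) ≤ 3 * β * F S ψ y n t
  | 0 => by
    refine ⟨0, le_rfl, fun k hk => absurd hk (by omega), ?_, ?_⟩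
    · rw [F_zero]; simp
    · rw [F_zero]
      simp
      exact hβ
  | n + 1 => by
    obtain ⟨t, htn, h0, hA, hR⟩ := inv hS hτ hτ1 hβ hβτ hψ hy n
    set A := F S ψ y n t with hAdef
    set R := ∑ k ∈ Ioc t n, |F S ψ y n k| with hRdef
    have hR0 : 0 ≤ R := sum_nonneg fun _ _ => abs_nonneg _
    have hτS : 0 < τ ^ S := by positivity
    have hτS1 : τ ^ S ≤ 1 := pow_le_one₀ hτ.le hτ1.le
    have hβ1 : β ≤ 1 / 12 := by linarith
    have h1τ : 1 ≤ 1 / τ := by rw [le_div_iff₀ hτ]; linarith
    -- R ≤ A / 4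
    have hRA : R ≤ A / 4 := by
      have h1 : τ ^ S ≤ τ ^ (min t (S - 1) + 1) :=
        pow_le_pow_of_le_one hτ.le hτ1.le (by omega)
      have h2 : R * τ ^ S ≤ 3 * β * A := (mul_le_mul_of_nonneg_left h1 hR0).trans hR
      have h3 : 3 * β * A ≤ τ ^ S / 4 * A := by
        apply mul_le_mul_of_nonneg_right _ hA
        linarith
      have h4 : R * τ ^ S ≤ (A / 4) * τ ^ S := by linarith
      exact le_of_mul_le_mul_right h4 hτS
    have hsplit : ∀ f : ℕ → ℝ, (∀ k < t, f k = 0) →
        ∑ k ∈ range (n + 1), f k = f t + ∑ k ∈ Ioc t n, f k := by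
      intro f hf
      have e : range (n + 1) = range t ∪ (insert t (Ioc t n)) := by
        ext x
        simp only [mem_range, mem_union, mem_insert, mem_Ioc]
        omega
      rw [e, sum_union, sum_insert (by simp)]
      · rw [sum_eq_zero (fun x hx => hf x (mem_range.1 hx)), zero_add]
      · rw [Finset.disjoint_left]
        intro x hx hx'
        rw [mem_range] at hx
        rw [mem_insert, mem_Ioc] at hx'
        omega
    have hfac : ∀ k : ℕ, 0 ≤ (if S ≤ k + 1 then y (n + 1 - S) else 1) ∧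
        (if S ≤ k + 1 then y (n + 1 - S) else 1) ≤ 1 / τ := by
      intro k
      split_ifs
      · exact hy _
      · exact ⟨zero_le_one, h1τ⟩
    rcases hψ n with h1 | hsmall
    · -- a site with ψ = 1
      refine ⟨t + 1, by omega, ?_, ?_, ?_⟩
      · intro k hk
        rcases Nat.eq_zero_or_pos k with rfl | hk0
        · rw [F_succ_zero hS, h1]; ring
        · obtain ⟨k', rfl⟩ : ∃ k', k = k' + 1 := ⟨k - 1, by omega⟩
          rw [F_succ_succ, h0 k' (by omega)]
          ring
      · rw [F_succ_succ, h1, one_mul]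
        exact mul_nonneg hA (hfac t).1
      · have hIoc : Ioc (t + 1) (n + 1) = (Ioc t n).map ⟨fun x => x + 1, fun a b h => by simpa using h⟩ := by
          ext x
          simp only [mem_Ioc, mem_map, Function.Embedding.coeFn_mk]
          constructor
          · intro hx
            exact ⟨x - 1, by omega, by omega⟩
          · rintro ⟨z, hz, rfl⟩
            omega
        rw [hIoc, sum_map]
        simp only [Function.Embedding.coeFn_mk]
        by_cases hc : t + 1 < S
        · have e1 : min (t + 1) (S - 1) + 1 = (min t (S - 1) + 1) + 1 := by omega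
          have e2 : F S ψ y (n + 1) (t + 1) = A := by
            rw [F_succ_succ, h1, if_neg (by omega)]; ring
          rw [e1, e2, pow_succ]
          have h3 : ∑ x ∈ Ioc t n, |F S ψ y (n + 1) (x + 1)| ≤ R * (1 / τ) := by
            rw [hRdef, sum_mul]
            refine sum_le_sum fun x _ => ?_
            rw [F_succ_succ, h1, one_mul, abs_mul, abs_of_nonneg (hfac x).1]
            exact mul_le_mul_of_nonneg_left (hfac x).2 (abs_nonneg _)
          calc (∑ x ∈ Ioc t n, |F S ψ y (n + 1) (x + 1)|) * (τ ^ (min t (S - 1) + 1) * τ)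
              ≤ (R * (1 / τ)) * (τ ^ (min t (S - 1) + 1) * τ) :=
                mul_le_mul_of_nonneg_right h3 (by positivity)
            _ = R * τ ^ (min t (S - 1) + 1) := by field_simp
            _ ≤ 3 * β * A := hR
        · have e1 : min (t + 1) (S - 1) + 1 = min t (S - 1) + 1 := by omega
          have e2 : F S ψ y (n + 1) (t + 1) = A * y (n + 1 - S) := by
            rw [F_succ_succ, h1, if_pos (by omega)]; ring
          have e3 : ∑ x ∈ Ioc t n, |F S ψ y (n + 1) (x + 1)| = R * y (n + 1 - S) := by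
            rw [hRdef, sum_mul]
            refine sum_congr rfl fun x hx => ?_
            rw [mem_Ioc] at hx
            rw [F_succ_succ, h1, one_mul, abs_mul, if_pos (by omega), abs_of_nonneg (hy _).1]
          rw [e1, e2, e3]
          calc R * y (n + 1 - S) * τ ^ (min t (S - 1) + 1)
              = (R * τ ^ (min t (S - 1) + 1)) * y (n + 1 - S) := by ring
            _ ≤ (3 * β * A) * y (n + 1 - S) := mul_le_mul_of_nonneg_right hR (hy _).1
            _ = 3 * β * (A * y (n + 1 - S)) := by ring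
    · -- a site with small ψ
      have hT := hsplit (fun k => F S ψ y n k) h0
      have hTabs := hsplit (fun k => |F S ψ y n k|) (fun k hk => by rw [h0 k hk, abs_zero])
      beta_reduce at hT hTabs
      rw [abs_of_nonneg hA] at hTabs
      set T := ∑ k ∈ range (n + 1), F S ψ y n k with hTdef
      have hT1 : |∑ k ∈ Ioc t n, F S ψ y n k| ≤ R := abs_sum_le_sum_abs _ _
      have hT2 := (abs_le.1 hT1).1
      have hT3 : 3 / 4 * A ≤ T := by linarith
      have hψ1 := (abs_le.1 hsmall).1
      have hψ2 := (abs_le.1 hsmall).2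
      have hT0 : 0 ≤ T := by linarith
      have hA' : 11 / 16 * A ≤ F S ψ y (n + 1) 0 := by
        rw [F_succ_zero hS, ← hTdef]
        have h2 : 11 / 12 * T ≤ (1 - ψ n) * T := mul_le_mul_of_nonneg_right (by linarith) hT0
        linarith
      refine ⟨0, by omega, fun k hk => absurd hk (by omega), by linarith, ?_⟩
      have hIoc : Ioc 0 (n + 1) = (range (n + 1)).map ⟨fun x => x + 1, fun a b h => by simpa using h⟩ := by
        ext x
        simp only [mem_Ioc, mem_map, mem_range, Function.Embedding.coeFn_mk]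
        constructor
        · intro hx
          exact ⟨x - 1, by omega, by omega⟩
        · rintro ⟨z, hz, rfl⟩
          omega
      rw [hIoc, sum_map]
      simp only [Function.Embedding.coeFn_mk]
      have h3 : ∑ x ∈ range (n + 1), |F S ψ y (n + 1) (x + 1)| ≤ (β * (1 / τ)) * (A + R) := by
        rw [hRdef, ← hTabs, mul_sum]
        refine sum_le_sum fun x _ => ?_
        rw [F_succ_succ, abs_mul, abs_mul, abs_of_nonneg (hfac x).1]
        calc |ψ n| * (|F S ψ y n x| * (if S ≤ x + 1 then y (n + 1 - S) else 1))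
            ≤ β * (|F S ψ y n x| * (1 / τ)) := by
              apply mul_le_mul hsmall _ (mul_nonneg (abs_nonneg _) (hfac x).1) hβ
              exact mul_le_mul_of_nonneg_left (hfac x).2 (abs_nonneg _)
          _ = β * (1 / τ) * |F S ψ y n x| := by ring
      have e1 : min 0 (S - 1) + 1 = 1 := by omega
      rw [e1, pow_one]
      calc (∑ x ∈ range (n + 1), |F S ψ y (n + 1) (x + 1)|) * τ
          ≤ ((β * (1 / τ)) * (A + R)) * τ := mul_le_mul_of_nonneg_right h3 hτ.le
        _ = β * (A + R) := by field_simp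
        _ ≤ β * (5 / 4 * A) := mul_le_mul_of_nonneg_left (by linarith) hβ
        _ ≤ 3 * β * (11 / 16 * A) := by nlinarith [mul_nonneg hβ hA]
        _ ≤ 3 * β * F S ψ y (n + 1) 0 := mul_le_mul_of_nonneg_left hA' (by linarith)

end POS

open POS in
theorem pos : S_POS := by
  intro S N ψ y β τ hS hτ hτ1 hβ hβτ hψ hy
  have hff : ff S N ψ y = ∑ k ∈ range (N + 1), F S ψ y N k := by
    rw [sum_F, ff]
    refine sum_congr rfl fun b hb => ?_
    rw [WW_eq hS, wt]
    congr 1
    have hb' := mem_powerset.1 hb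
    rw [prod_ite]
    have e1 : (range N).filter (fun i => i ∈ b) = b := by
      ext i
      rw [mem_filter]
      exact ⟨fun h => h.2, fun h => ⟨hb' h, h⟩⟩
    have e2 : (range N).filter (fun i => ¬ i ∈ b) = range N \ b := by
      ext i
      rw [mem_filter, mem_sdiff]
    rw [e1, e2]
  obtain ⟨t, htn, h0, hA, hR⟩ := inv hS hτ hτ1 hβ hβτ hψ hy N
  have hR0 : 0 ≤ ∑ k ∈ Ioc t N, |F S ψ y N k| := sum_nonneg fun _ _ => abs_nonneg _
  have hτS : 0 < τ ^ S := by positivity
  have h1 : τ ^ S ≤ τ ^ (min t (S - 1) + 1) := pow_le_pow_of_le_one hτ.le hτ1.le (by omega)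
  have h2 : (∑ k ∈ Ioc t N, |F S ψ y N k|) * τ ^ S ≤ 3 * β * F S ψ y N t :=
    (mul_le_mul_of_nonneg_left h1 hR0).trans hR
  have h3 : 3 * β * F S ψ y N t ≤ F S ψ y N t * τ ^ S := by
    nlinarith [mul_nonneg hβ hA]
  have h4 : ∑ k ∈ Ioc t N, |F S ψ y N k| ≤ F S ψ y N t :=
    le_of_mul_le_mul_right (h2.trans h3) hτS
  have e : range (N + 1) = range t ∪ (insert t (Ioc t N)) := by
    ext x
    simp only [mem_range, mem_union, mem_insert, mem_Ioc]
    omega
  rw [hff, e, sum_union, sum_insert (by simp), sum_eq_zero (fun x hx => h0 x (mem_range.1 hx)),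
    zero_add]
  · have h5 : |∑ k ∈ Ioc t N, F S ψ y N k| ≤ ∑ k ∈ Ioc t N, |F S ψ y N k| :=
      abs_sum_le_sum_abs _ _
    have := (abs_le.1 h5).1
    linarith
  · rw [Finset.disjoint_left]
    intro x hx hx'
    rw [mem_range] at hx
    rw [mem_insert, mem_Ioc] at hx'
    omega

end Pool.Agent.H50.OI
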