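import Pool.Agent.H50.OI.Stm
import Pool.Agent.H50.L.LI.N
import Pool.Agent.H50.L.LI.T

/-! # Project OI: the upper bound for the largest gap -/

set_option autoImplicit false

namespace Pool.Agent.H50.OI

open Finset MeasureTheory Filter Topology Q198.CI

theorem upp : S_UPP := by
  intro Ω _ P _ κ E hCM hκ
  have hlog : Tendsto (fun n : ℕ => Real.log (n : ℝ)) atTop atTop :=
    Real.tendsto_log_atTop.comp tendsto_natCast_atTop_atTop
  have main : ∀ ε : ℝ, 0 < ε → ε ≤ 1 → ∀ᵐ ω ∂P, ∀ᶠ x : ℕ in atTop, ∃ n : ℕ, x < n ∧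
      (n : ℝ) ≤ x + (1 + ε) * Real.log x ^ 2 ∧ ω ∈ E n := by
    intro ε hε hε1
    obtain ⟨η, hη0, hη1, hG⟩ := Q167.LI.GG_near (ε := ε / 4) (by positivity)
    obtain ⟨n₁, hn₁⟩ := eventually_atTop.1 (hκ (2 - η) (by linarith))
    set n₀ : ℕ := max n₁ 1 with hn₀
    have hn0 : ∀ n, n₀ ≤ n → (2 - η) * Real.log n ≤ κ n := fun n hn =>
      hn₁ n ((le_max_left _ _).trans hn)
    set κ₁ : ℕ → ℕ := fun n => if n < n₀ then 0 else ⌊(2 - η) * Real.log n⌋₊ with hκ₁
    have hle : ∀ n, κ₁ n ≤ κ n := by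
      intro n
      simp only [hκ₁]
      split_ifs with h
      · exact Nat.zero_le _
      · exact Nat.floor_le_of_le (hn0 n (not_lt.1 h))
    have hmono : Monotone κ₁ := by
      intro n m hnm
      simp only [hκ₁]
      by_cases h : n < n₀
      · rw [if_pos h]
        exact Nat.zero_le _
      · rw [if_neg h, if_neg (by omega)]
        apply Nat.floor_mono
        have h1 : (1 : ℝ) ≤ n := by
          have : 1 ≤ n := (le_max_right _ _).trans (not_lt.1 h)
          exact_mod_cast this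
        have h2 : (n : ℝ) ≤ m := by exact_mod_cast hnm
        apply mul_le_mul_of_nonneg_left _ (by linarith)
        exact Real.log_le_log (by linarith) h2
    have hlow : ∀ n, n₀ ≤ n → (2 - η) * Real.log n - 1 ≤ κ₁ n := by
      intro n hn
      simp only [hκ₁]
      rw [if_neg (not_lt.2 hn)]
      have := Nat.lt_floor_add_one ((2 - η) * Real.log n)
      linarith
    have hfast : Q167.LI.Fast κ₁ := by
      intro C
      have h2 : ∀ᶠ t : ℝ in atTop, C * Real.log t ≤ t - 1 := by
        have h3 : Real.log =o[atTop] (id : ℝ → ℝ) := Real.isLittleO_log_id_atTop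
        have h4 := h3.def (c := 1 / (2 * (|C| + 1))) (by positivity)
        filter_upwards [h4, eventually_ge_atTop (2:ℝ)] with t h5 h6
        have h0 : 0 ≤ Real.log t := Real.log_nonneg (by linarith)
        rw [Real.norm_of_nonneg h0, id, Real.norm_of_nonneg (by linarith)] at h5
        have h7 : (|C| + 1) * Real.log t ≤ (|C| + 1) * (1 / (2 * (|C| + 1)) * t) :=
          mul_le_mul_of_nonneg_left h5 (by positivity)
        have h8 : (|C| + 1) * (1 / (2 * (|C| + 1)) * t) = t / 2 := by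
          have : |C| + 1 ≠ 0 := by positivity
          field_simp
        have h9 : C * Real.log t ≤ (|C| + 1) * Real.log t :=
          mul_le_mul_of_nonneg_right (by linarith [le_abs_self C]) h0
        linarith
      filter_upwards [hlog.eventually h2, eventually_ge_atTop n₀,
        hlog.eventually_ge_atTop 0] with n g1 g2 g3
      have h3 := hlow n g2
      nlinarith
    have hu := Q167.LI.univ_upper P hCM.1 (κ := κ₁)
      (fun T hT => hCM.2 T fun n hn => ⟨(hT n hn).1, (hT n hn).2.trans (hle n)⟩) hmono hfast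
      (ε := ε / 4) (by positivity) (by linarith)
    have hev : ∀ᶠ x : ℕ in atTop, (1 + ε / 4) * Q167.LI.GG (Q167.LI.ord κ₁ x) x ≤
        (1 + ε) * Real.log x ^ 2 := by
      filter_upwards [hlog.eventually hG, eventually_ge_atTop n₀, eventually_ge_atTop 2,
        hlog.eventually_ge_atTop (2 / η), hlog.eventually_ge_atTop 1] with x g1 g2 g3 g4 g5
      set L : ℝ := Real.log x with hL
      have hx0 : (0 : ℝ) < x := by
        have : 0 < x := by omega
        exact_mod_cast this
      have hx1 : (1 : ℝ) < x := by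
        have : 1 < x := by omega
        exact_mod_cast this
      rw [div_le_iff₀ hη0] at g4
      have hm1 : (1 - η) * L ≤ (Q167.LI.ord κ₁ x : ℕ) := by
        unfold Q167.LI.ord
        rw [Nat.cast_min]
        apply le_min
        · have h1 := hlow x g2
          have h2 : (κ₁ x : ℝ) ≤ 2 * ((κ₁ x / 2 : ℕ) : ℝ) + 1 := by
            have : κ₁ x ≤ 2 * (κ₁ x / 2) + 1 := by omega
            exact_mod_cast this
          rw [← hL] at h1
          nlinarith
        · have h1 := Nat.lt_floor_add_one (Real.log (x : ℝ))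
          rw [← hL] at h1 ⊢
          nlinarith
      have hm2 : ((Q167.LI.ord κ₁ x : ℕ) : ℝ) ≤ L + 1 / 2 := by
        have h1 : Q167.LI.ord κ₁ x ≤ ⌊Real.log (x : ℝ)⌋₊ := min_le_right _ _
        have h2 : ((⌊Real.log (x : ℝ)⌋₊ : ℕ) : ℝ) ≤ Real.log x :=
          Nat.floor_le (Real.log_nonneg hx1.le)
        have h3 : ((Q167.LI.ord κ₁ x : ℕ) : ℝ) ≤ ((⌊Real.log (x : ℝ)⌋₊ : ℕ) : ℝ) := by
          exact_mod_cast h1
        rw [← hL] at h2
        linarith
      have h3 := g1 (Q167.LI.ord κ₁ x) x hm1 hm2 hx1 (by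
        calc (x : ℝ) = Real.exp L := (Real.exp_log hx0).symm
          _ ≤ Real.exp (L + 1 / 2) := Real.exp_le_exp.2 (by linarith))
      calc (1 + ε / 4) * Q167.LI.GG (Q167.LI.ord κ₁ x) x ≤ (1 + ε / 4) * ((1 + ε / 4) * L ^ 2) :=
            mul_le_mul_of_nonneg_left h3 (by positivity)
        _ = ((1 + ε / 4) * (1 + ε / 4)) * L ^ 2 := by ring
        _ ≤ (1 + ε) * L ^ 2 := by
          apply mul_le_mul_of_nonneg_right _ (sq_nonneg _)
          nlinarith
    filter_upwards [hu] with ω hω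
    filter_upwards [hω, hev] with x h1 h2
    obtain ⟨n, hn1, hn2, hn3⟩ := h1
    exact ⟨n, hn1, hn2.trans (by linarith), hn3⟩
  have h2 : ∀ k : ℕ, ∀ᵐ ω ∂P, ∀ᶠ x : ℕ in atTop, ∃ n : ℕ, x < n ∧
      (n : ℝ) ≤ x + (1 + 1 / ((k : ℝ) + 1)) * Real.log x ^ 2 ∧ ω ∈ E n := by
    intro k
    refine main _ (by positivity) ?_
    rw [div_le_one (by positivity)]
    have : (0 : ℝ) ≤ k := Nat.cast_nonneg _
    linarith
  filter_upwards [ae_all_iff.2 h2] with ω hω ε hε
  obtain ⟨k, hk⟩ := exists_nat_one_div_lt hε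
  filter_upwards [hω k] with x hx
  obtain ⟨n, hn1, hn2, hn3⟩ := hx
  refine ⟨n, hn1, hn2.trans ?_, hn3⟩
  have h4 : (1 + 1 / ((k : ℝ) + 1)) * Real.log x ^ 2 ≤ (1 + ε) * Real.log x ^ 2 :=
    mul_le_mul_of_nonneg_right (by linarith) (sq_nonneg _)
  linarith

end Pool.Agent.H50.OI
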